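import Mathlib

/-!
Definitions for the extremal problem of the graph `G₆`.
-/

namespace Pool.Agent.H26.G6

open Filter Asymptotics

/-- The graph `G₆`: the triangle on `0, 1, 2`; the vertex `3` is adjacent to the triangle vertex
`2`; the vertices `4` and `5` are adjacent only to `3`. -/
def graphG6 : SimpleGraph (Fin 6) :=
  SimpleGraph.fromEdgeSet {s(0, 1), s(0, 2), s(1, 2), s(2, 3), s(3, 4), s(3, 5)}

/-- `N(G₆, H)`: the number of subgraphs of `H` isomorphic to `G₆`. -/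
noncomputable def numCopies {n : ℕ} (H : SimpleGraph (Fin n)) : ℕ := H.copyCount graphG6

/-- `ex(n, e, G₆)`: the largest value of `N(G₆, H)` over graphs `H` with `n` vertices and at most
`e` edges. -/
noncomputable def ex (n e : ℕ) : ℕ :=
  sSup {N : ℕ | ∃ H : SimpleGraph (Fin n), H.edgeSet.ncard ≤ e ∧ numCopies H = N}

/-- A sequence of graphs `H n` on `n` vertices with edge density `β + O(1/n)` is an asymptotic
maximiser if `N(G₆, H n) = (1 + o(1)) ex(n, ⌊β n² / 2⌋, G₆)`. -/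
def IsAsymptoticMaximiser (β : ℝ) (H : (n : ℕ) → SimpleGraph (Fin n)) : Prop :=
  (∃ C : ℝ, ∀ n, |2 * ((H n).edgeSet.ncard : ℝ) - β * n ^ 2| ≤ C * n) ∧
    (fun n => (numCopies (H n) : ℝ)) ~[atTop] (fun n => (ex n ⌊β * n ^ 2 / 2⌋₊ : ℝ))

/-- The graph on `Y ∪ R ∪ B` with `Y` the first `y` vertices, `R` the next `r` vertices and `B` the
remaining ones: `Y` and `R` are cliques, `B` is independent, every vertex of `R` is adjacent to all
other vertices, and there are no other edges. -/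
def tGraph (n y r : ℕ) : SimpleGraph (Fin n) where
  Adj i j := i ≠ j ∧ ((y ≤ (i : ℕ) ∧ (i : ℕ) < y + r) ∨ (y ≤ (j : ℕ) ∧ (j : ℕ) < y + r) ∨
    ((i : ℕ) < y ∧ (j : ℕ) < y))
  symm := ⟨by
    rintro i j ⟨h, h'⟩
    refine ⟨h.symm, ?_⟩
    tauto⟩
  loopless := ⟨by
    rintro i ⟨h, _⟩
    exact h rfl⟩

/-- The sizes `|Y| = y n`, `|R| = r n` of the graphs `T^e_n(t)` at density `β`, rounded to integers
in any way. -/
def TSizes (β t : ℝ) (y r : ℕ → ℕ) : Prop :=
  ∀ n, |(y n : ℝ) - Real.sqrt β * t * n| ≤ 1 ∧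
    |(r n : ℝ) - (1 - Real.sqrt (1 - β * (1 - t ^ 2))) * n| ≤ 1 ∧ y n + r n ≤ n

/-- The quasi-clique: the first `a` vertices form a clique, the next vertex is adjacent to `b` of
them, and there are no other edges. -/
def quasiClique (n a b : ℕ) : SimpleGraph (Fin n) where
  Adj i j := i ≠ j ∧ (((i : ℕ) < a ∧ (j : ℕ) < a) ∨ ((i : ℕ) = a ∧ (j : ℕ) < b) ∨
    ((j : ℕ) = a ∧ (i : ℕ) < b))
  symm := ⟨by
    rintro i j ⟨h, h'⟩
    refine ⟨h.symm, ?_⟩
    tauto⟩
  loopless := ⟨by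
    rintro i ⟨h, _⟩
    exact h rfl⟩

/-- The parameters `a n`, `b n` of the quasi-cliques `K^e_n` with `e = (a n).choose 2 + b n` edges,
`0 ≤ b n < a n`, at density `β + O(1/n)`. -/
def KSizes (β : ℝ) (a b : ℕ → ℕ) : Prop :=
  (∀ n, b n < a n ∧ (a n).choose 2 + b n ≤ n.choose 2) ∧
    ∃ C : ℝ, ∀ n, |2 * (((a n).choose 2 + b n : ℕ) : ℝ) - β * n ^ 2| ≤ C * n

end Pool.Agent.H26.G6
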