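import Mathlib

/-!
The homomorphism functional of `G₆` and its behaviour under the compression (Kelmans)
transformation.
-/

namespace Pool.Agent.H26.G6

open Finset

variable {V W : Type*} [Fintype V] [Fintype W]

/-- weighted degree -/
def dg (A : V → V → ℝ) (u : V) : ℝ := ∑ v, A u v

/-- weighted number of triangles through a vertex -/
def tau (A : V → V → ℝ) (x : V) : ℝ := ∑ y, ∑ z, A x y * A x z * A y z

/-- sum of the squares of the degrees of the neighbours -/
def rho (A : V → V → ℝ) (x : V) : ℝ := ∑ u, A x u * dg A u ^ 2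

/-- weighted number of homomorphisms of `G₆` -/
def Phi (A : V → V → ℝ) : ℝ := ∑ x, tau A x * rho A x

/-- sum of the squares of the degrees -/
def S2 (A : V → V → ℝ) : ℝ := ∑ x, dg A x ^ 2

/-- sum of the degrees -/
def S1 (A : V → V → ℝ) : ℝ := ∑ x, dg A x

lemma dg_equiv (e : W ≃ V) (A : V → V → ℝ) (i : W) :
    dg (fun i j => A (e i) (e j)) i = dg A (e i) := by
  unfold dg
  exact e.sum_comp (fun v => A (e i) v)

lemma Phi_equiv (e : W ≃ V) (A : V → V → ℝ) : Phi (fun i j => A (e i) (e j)) = Phi A := by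
  unfold Phi
  rw [← e.sum_comp (fun x => tau A x * rho A x)]
  apply sum_congr rfl
  intro i _
  congr 1
  · unfold tau
    rw [← e.sum_comp (fun y => ∑ z, A (e i) y * A (e i) z * A y z)]
    apply sum_congr rfl
    intro j _
    rw [← e.sum_comp (fun z => A (e i) (e j) * A (e i) z * A (e j) z)]
  · unfold rho
    rw [← e.sum_comp (fun u => A (e i) u * dg A u ^ 2)]
    apply sum_congr rfl
    intro j _
    rw [dg_equiv]

lemma S1_equiv (e : W ≃ V) (A : V → V → ℝ) : S1 (fun i j => A (e i) (e j)) = S1 A := by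
  unfold S1
  rw [← e.sum_comp (fun x => dg A x)]
  exact sum_congr rfl fun i _ => dg_equiv e A i

lemma S2_equiv (e : W ≃ V) (A : V → V → ℝ) : S2 (fun i j => A (e i) (e j)) = S2 A := by
  unfold S2
  rw [← e.sum_comp (fun x => dg A x ^ 2)]
  exact sum_congr rfl fun i _ => by rw [dg_equiv e A i]

lemma Phi_mono {A B : V → V → ℝ} (h0 : ∀ x y, 0 ≤ A x y) (h : ∀ x y, A x y ≤ B x y) :
    Phi A ≤ Phi B := by
  have hd : ∀ x, dg A x ≤ dg B x := fun x => sum_le_sum fun y _ => h x y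
  have hd0 : ∀ x, 0 ≤ dg A x := fun x => sum_nonneg fun y _ => h0 x y
  have hB0 : ∀ x y, 0 ≤ B x y := fun x y => (h0 x y).trans (h x y)
  unfold Phi
  apply sum_le_sum
  intro x _
  apply mul_le_mul
  · unfold tau
    apply sum_le_sum
    intro y _
    apply sum_le_sum
    intro z _
    exact mul_le_mul (mul_le_mul (h _ _) (h _ _) (h0 _ _) (hB0 _ _)) (h _ _) (h0 _ _)
      (mul_nonneg (hB0 _ _) (hB0 _ _))
  · unfold rho
    apply sum_le_sum
    intro u _
    exact mul_le_mul (h _ _) (pow_le_pow_left₀ (hd0 u) (hd u) 2) (sq_nonneg _) (hB0 _ _)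
  · unfold rho
    exact sum_nonneg fun u _ => mul_nonneg (h0 _ _) (sq_nonneg _)
  · unfold tau
    exact sum_nonneg fun y _ => sum_nonneg fun z _ =>
      mul_nonneg (mul_nonneg (hB0 _ _) (hB0 _ _)) (hB0 _ _)

/-- The block matrix with two distinguished vertices. -/
def blk (ε : ℝ) (α β : W → ℝ) (M : W → W → ℝ) : Bool ⊕ W → Bool ⊕ W → ℝ
  | .inl true, .inl true => 0
  | .inl true, .inl false => ε
  | .inl false, .inl true => ε
  | .inl false, .inl false => 0
  | .inl true, .inr v => α v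
  | .inr v, .inl true => α v
  | .inl false, .inr v => β v
  | .inr v, .inl false => β v
  | .inr v, .inr w => M v w

lemma majorize {X Y X' Y' U V U' V' : ℝ} (hY' : 0 ≤ Y') (hU : 0 ≤ U) (hV : 0 ≤ V)
    (hX1 : X ≤ X') (hX2 : Y ≤ X') (hXY : X + Y ≤ X' + Y') (hX' : Y' ≤ X')
    (hU1 : U ≤ U') (hU2 : V ≤ U') (hUV : U + V ≤ U' + V') :
    X * U + Y * V ≤ X' * U' + Y' * V' := by
  rcases le_total U V with h | h
  · have h1 : (X' - Y') * V ≤ (X' - Y') * U' := mul_le_mul_of_nonneg_left hU2 (by linarith)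
    have h2 : Y' * (U + V) ≤ Y' * (U' + V') := mul_le_mul_of_nonneg_left hUV hY'
    have h3 : (V - U) * Y ≤ (V - U) * X' := mul_le_mul_of_nonneg_left hX2 (by linarith)
    have h4 : (X + Y) * U ≤ (X' + Y') * U := mul_le_mul_of_nonneg_right hXY hU
    nlinarith
  · have h1 : (X' - Y') * U ≤ (X' - Y') * U' := mul_le_mul_of_nonneg_left hU1 (by linarith)
    have h2 : Y' * (U + V) ≤ Y' * (U' + V') := mul_le_mul_of_nonneg_left hUV hY'
    have h3 : (U - V) * X ≤ (U - V) * X' := mul_le_mul_of_nonneg_left hX1 (by linarith)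
    have h4 : (X + Y) * V ≤ (X' + Y') * V := mul_le_mul_of_nonneg_right hXY hV
    nlinarith

/-- bilinear form -/
def bil (M : W → W → ℝ) (α β : W → ℝ) : ℝ := ∑ v, ∑ w, α v * β w * M v w

lemma Phi_blk (ε : ℝ) (α β : W → ℝ) (M : W → W → ℝ) :
    Phi (blk ε α β M) =
      (bil M α α + 2 * ε * ∑ v, α v * β v) * (ε * (ε + ∑ v, β v) ^ 2 +
        ∑ v, α v * (α v + β v + ∑ w, M v w) ^ 2) +
      (bil M β β + 2 * ε * ∑ v, α v * β v) * (ε * (ε + ∑ v, α v) ^ 2 +
        ∑ v, β v * (α v + β v + ∑ w, M v w) ^ 2) +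
      ∑ v, ((∑ y, ∑ z, M v y * M v z * M y z) + 2 * (α v * ∑ w, M v w * α w) +
          2 * (β v * ∑ w, M v w * β w) + 2 * ε * (α v * β v)) *
        (α v * (ε + ∑ v, α v) ^ 2 + β v * (ε + ∑ v, β v) ^ 2 +
          ∑ w, M v w * (α w + β w + ∑ z, M w z) ^ 2) := by
  have hda : dg (blk ε α β M) (.inl true) = ε + ∑ v, α v := by
    simp [dg, blk]
  have hdb : dg (blk ε α β M) (.inl false) = ε + ∑ v, β v := by
    simp [dg, blk]
  have hdv : ∀ v, dg (blk ε α β M) (.inr v) = α v + β v + ∑ w, M v w := by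
    intro v
    simp [dg, blk]
  have hta : tau (blk ε α β M) (.inl true) = bil M α α + 2 * ε * ∑ v, α v * β v := by
    simp only [tau, blk, Fintype.sum_sum_type, Fintype.sum_bool, bil, sum_add_distrib]
    simp only [zero_mul, mul_zero, zero_add, add_zero, sum_const_zero]
    have : ∑ x, α x * ε * β x = ε * ∑ v, α v * β v := by
      rw [mul_sum]; exact sum_congr rfl fun _ _ => by ring
    rw [this]
    have : ∑ x, ε * α x * β x = ε * ∑ v, α v * β v := by
      rw [mul_sum]; exact sum_congr rfl fun _ _ => by ring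
    rw [this]
    ring
  have htb : tau (blk ε α β M) (.inl false) = bil M β β + 2 * ε * ∑ v, α v * β v := by
    simp only [tau, blk, Fintype.sum_sum_type, Fintype.sum_bool, bil, sum_add_distrib]
    simp only [zero_mul, mul_zero, zero_add, add_zero, sum_const_zero]
    have : ∑ x, β x * ε * α x = ε * ∑ v, α v * β v := by
      rw [mul_sum]; exact sum_congr rfl fun _ _ => by ring
    rw [this]
    have : ∑ x, ε * β x * α x = ε * ∑ v, α v * β v := by
      rw [mul_sum]; exact sum_congr rfl fun _ _ => by ring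
    rw [this]
    ring
  have htv : ∀ v, tau (blk ε α β M) (.inr v) = (∑ y, ∑ z, M v y * M v z * M y z) +
      2 * (α v * ∑ w, M v w * α w) + 2 * (β v * ∑ w, M v w * β w) +
      2 * ε * (α v * β v) := by
    intro v
    simp only [tau, blk, Fintype.sum_sum_type, Fintype.sum_bool, sum_add_distrib]
    simp only [mul_zero, zero_add, add_zero]
    have e1 : ∑ x, α v * M v x * α x = α v * ∑ w, M v w * α w := by
      rw [mul_sum]; exact sum_congr rfl fun _ _ => by ring
    have e2 : ∑ x, M v x * α v * α x = α v * ∑ w, M v w * α w := by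
      rw [mul_sum]; exact sum_congr rfl fun _ _ => by ring
    have e3 : ∑ x, β v * M v x * β x = β v * ∑ w, M v w * β w := by
      rw [mul_sum]; exact sum_congr rfl fun _ _ => by ring
    have e4 : ∑ x, M v x * β v * β x = β v * ∑ w, M v w * β w := by
      rw [mul_sum]; exact sum_congr rfl fun _ _ => by ring
    rw [e1, e2, e3, e4]
    ring
  unfold Phi
  rw [Fintype.sum_sum_type, Fintype.sum_bool, hta, htb]
  congr 1
  · congr 1
    · congr 1
      simp only [rho, Fintype.sum_sum_type, Fintype.sum_bool, hda, hdb, hdv, blk]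
      ring
    · congr 1
      simp only [rho, Fintype.sum_sum_type, Fintype.sum_bool, hda, hdb, hdv, blk]
      ring
  · apply sum_congr rfl
    intro v _
    rw [htv]
    congr 1
    simp only [rho, Fintype.sum_sum_type, Fintype.sum_bool, hda, hdb, hdv, blk]

lemma bil_add_left (M : W → W → ℝ) (α α' β : W → ℝ) :
    bil M (fun v => α v + α' v) β = bil M α β + bil M α' β := by
  unfold bil
  simp only [add_mul, sum_add_distrib]

lemma bil_add_right (M : W → W → ℝ) (α β β' : W → ℝ) :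
    bil M α (fun v => β v + β' v) = bil M α β + bil M α β' := by
  unfold bil
  simp only [mul_add, add_mul, sum_add_distrib]

lemma bil_comm {M : W → W → ℝ} (hM : ∀ v w, M v w = M w v) (α β : W → ℝ) :
    bil M α β = bil M β α := by
  unfold bil
  rw [sum_comm]
  exact sum_congr rfl fun v _ => sum_congr rfl fun w _ => by rw [hM]; ring

lemma bil_nonneg {M : W → W → ℝ} (hM : ∀ v w, 0 ≤ M v w) {α β : W → ℝ} (hα : ∀ v, 0 ≤ α v)
    (hβ : ∀ v, 0 ≤ β v) : 0 ≤ bil M α β :=
  sum_nonneg fun v _ => sum_nonneg fun w _ => mul_nonneg (mul_nonneg (hα v) (hβ w)) (hM v w)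

lemma sumXY (M : W → W → ℝ) {α β γ : W → ℝ} (hα : ∀ v, α v * α v = α v)
    (hβ : ∀ v, β v * β v = β v) (hγ : ∀ v, α v * β v = γ v) (D1 D2 : ℝ) :
    ∑ v, (2 * (α v * ∑ w, M v w * α w) + 2 * (β v * ∑ w, M v w * β w) + 2 * (α v * β v)) *
      (α v * D1 + β v * D2) =
    D1 * (2 * bil M α α + 2 * bil M γ β + 2 * ∑ v, γ v) +
      D2 * (2 * bil M γ α + 2 * bil M β β + 2 * ∑ v, γ v) := by
  have e : ∀ v, (2 * (α v * ∑ w, M v w * α w) + 2 * (β v * ∑ w, M v w * β w) +
      2 * (α v * β v)) * (α v * D1 + β v * D2) =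
      D1 * (2 * ∑ w, α v * α w * M v w + 2 * ∑ w, γ v * β w * M v w + 2 * γ v) +
      D2 * (2 * ∑ w, γ v * α w * M v w + 2 * ∑ w, β v * β w * M v w + 2 * γ v) := by
    intro v
    have e1 : ∑ w, α v * α w * M v w = α v * ∑ w, M v w * α w := by
      rw [mul_sum]; exact sum_congr rfl fun _ _ => by ring
    have e2 : ∑ w, γ v * β w * M v w = γ v * ∑ w, M v w * β w := by
      rw [mul_sum]; exact sum_congr rfl fun _ _ => by ring
    have e3 : ∑ w, γ v * α w * M v w = γ v * ∑ w, M v w * α w := by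
      rw [mul_sum]; exact sum_congr rfl fun _ _ => by ring
    have e4 : ∑ w, β v * β w * M v w = β v * ∑ w, M v w * β w := by
      rw [mul_sum]; exact sum_congr rfl fun _ _ => by ring
    rw [e1, e2, e3, e4]
    have a1 := hα v
    have a2 := hβ v
    have a3 := hγ v
    generalize ∑ w, M v w * α w = P
    generalize ∑ w, M v w * β w = Q
    have a4 : α v * γ v = γ v := by rw [← a3, ← mul_assoc, a1]
    have a5 : β v * γ v = γ v := by rw [← a3, mul_comm (α v), ← mul_assoc, a2]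
    rw [a3]
    linear_combination (2 * P * D1) * a1 + (2 * Q * D1) * a3 + 2 * D1 * a4 + (2 * P * D2) * a3 +
      (2 * Q * D2) * a2 + 2 * D2 * a5
  rw [sum_congr rfl fun v _ => e v]
  unfold bil
  simp only [sum_add_distrib, ← mul_sum]

/-- The Kelmans transformation does not decrease the functional. -/
theorem kelmans_Phi {ε : ℝ} (hε : ε = 0 ∨ ε = 1) {γ a b : W → ℝ} {M : W → W → ℝ}
    (hM : ∀ v w, M v w = M w v) (hM0 : ∀ v w, 0 ≤ M v w)
    (h : ∀ v, (γ v = 0 ∧ a v = 0 ∧ b v = 0) ∨ (γ v = 1 ∧ a v = 0 ∧ b v = 0) ∨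
      (γ v = 0 ∧ a v = 1 ∧ b v = 0) ∨ (γ v = 0 ∧ a v = 0 ∧ b v = 1)) :
    Phi (blk ε (fun v => γ v + a v) (fun v => γ v + b v) M) ≤
      Phi (blk ε (fun v => γ v + a v + b v) γ M) := by
  have hγ0 : ∀ v, 0 ≤ γ v := fun v => by rcases h v with h | h | h | h <;> simp [h.1]
  have ha0 : ∀ v, 0 ≤ a v := fun v => by rcases h v with h | h | h | h <;> simp [h.2.1]
  have hb0 : ∀ v, 0 ≤ b v := fun v => by rcases h v with h | h | h | h <;> simp [h.2.2]
  have hε0 : 0 ≤ ε := by rcases hε with h | h <;> simp [h]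
  have hprod : ∀ v, (γ v + a v) * (γ v + b v) = γ v := fun v => by
    rcases h v with h | h | h | h <;> simp [h.1, h.2.1, h.2.2]
  have hprod' : ∀ v, (γ v + a v + b v) * γ v = γ v := fun v => by
    rcases h v with h | h | h | h <;> simp [h.1, h.2.1, h.2.2]
  have hα : ∀ v, (γ v + a v) * (γ v + a v) = γ v + a v := fun v => by
    rcases h v with h | h | h | h <;> simp [h.1, h.2.1]
  have hβ : ∀ v, (γ v + b v) * (γ v + b v) = γ v + b v := fun v => by
    rcases h v with h | h | h | h <;> simp [h.1, h.2.2]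
  have hα' : ∀ v, (γ v + a v + b v) * (γ v + a v + b v) = γ v + a v + b v := fun v => by
    rcases h v with h | h | h | h <;> simp [h.1, h.2.1, h.2.2]
  have hγ' : ∀ v, γ v * γ v = γ v := fun v => by
    rcases h v with h | h | h | h <;> simp [h.1]
  rw [Phi_blk, Phi_blk]
  -- common abbreviations
  obtain ⟨d, hd⟩ : ∃ d : W → ℝ, ∀ v, d v = γ v + a v + (γ v + b v) + ∑ w, M v w :=
    ⟨_, fun v => rfl⟩
  have hd' : ∀ v, d v = γ v + a v + b v + γ v + ∑ w, M v w := fun v => by rw [hd]; ring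
  simp only [← hd, ← hd', hprod, hprod']
  clear hd hd'
  have eG : ∀ f : W → ℝ, ∑ v, (γ v + f v) = ∑ v, γ v + ∑ v, f v := fun f => sum_add_distrib
  have eG3 : ∑ v, (γ v + a v + b v) = ∑ v, γ v + ∑ v, a v + ∑ v, b v := by
    rw [sum_add_distrib, sum_add_distrib]
  simp only [eG, eG3]
  have hGs : 0 ≤ ∑ v, γ v := sum_nonneg fun v _ => hγ0 v
  have hAs : 0 ≤ ∑ v, a v := sum_nonneg fun v _ => ha0 v
  have hBs : 0 ≤ ∑ v, b v := sum_nonneg fun v _ => hb0 v
  obtain ⟨G, hG⟩ : ∃ G, G = ∑ v, γ v := ⟨_, rfl⟩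
  obtain ⟨A, hA⟩ : ∃ A, A = ∑ v, a v := ⟨_, rfl⟩
  obtain ⟨B, hB⟩ : ∃ B, B = ∑ v, b v := ⟨_, rfl⟩
  rw [← hG, ← hA, ← hB]
  rw [← hG] at hGs
  rw [← hA] at hAs
  rw [← hB] at hBs
  -- bilinear forms
  have q1 : bil M (fun v => γ v + a v) (fun v => γ v + a v) =
      bil M γ γ + 2 * bil M γ a + bil M a a := by
    rw [bil_add_left, bil_add_right, bil_add_right, bil_comm hM a γ]; ring
  have q2 : bil M (fun v => γ v + b v) (fun v => γ v + b v) =
      bil M γ γ + 2 * bil M γ b + bil M b b := by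
    rw [bil_add_left, bil_add_right, bil_add_right, bil_comm hM b γ]; ring
  have q3 : bil M (fun v => γ v + a v + b v) (fun v => γ v + a v + b v) =
      bil M γ γ + 2 * bil M γ a + bil M a a + 2 * bil M γ b + 2 * bil M a b + bil M b b := by
    simp only [bil_add_left, bil_add_right]
    rw [bil_comm hM a γ, bil_comm hM b γ, bil_comm hM b a]
    ring
  have n1 : 0 ≤ bil M γ γ := bil_nonneg hM0 hγ0 hγ0
  have n2 : 0 ≤ bil M γ a := bil_nonneg hM0 hγ0 ha0
  have n3 : 0 ≤ bil M γ b := bil_nonneg hM0 hγ0 hb0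
  have n4 : 0 ≤ bil M a a := bil_nonneg hM0 ha0 ha0
  have n5 : 0 ≤ bil M a b := bil_nonneg hM0 ha0 hb0
  have n6 : 0 ≤ bil M b b := bil_nonneg hM0 hb0 hb0
  -- the sums with the degrees
  have p1 : ∑ v, (γ v + a v) * d v ^ 2 = ∑ v, γ v * d v ^ 2 + ∑ v, a v * d v ^ 2 := by
    rw [← sum_add_distrib]; exact sum_congr rfl fun _ _ => by ring
  have p2 : ∑ v, (γ v + b v) * d v ^ 2 = ∑ v, γ v * d v ^ 2 + ∑ v, b v * d v ^ 2 := by
    rw [← sum_add_distrib]; exact sum_congr rfl fun _ _ => by ring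
  have p3 : ∑ v, (γ v + a v + b v) * d v ^ 2 = ∑ v, γ v * d v ^ 2 + ∑ v, a v * d v ^ 2 +
      ∑ v, b v * d v ^ 2 := by
    rw [← sum_add_distrib, ← sum_add_distrib]; exact sum_congr rfl fun _ _ => by ring
  have pg : 0 ≤ ∑ v, γ v * d v ^ 2 := sum_nonneg fun v _ => mul_nonneg (hγ0 v) (sq_nonneg _)
  have pa : 0 ≤ ∑ v, a v * d v ^ 2 := sum_nonneg fun v _ => mul_nonneg (ha0 v) (sq_nonneg _)
  have pb : 0 ≤ ∑ v, b v * d v ^ 2 := sum_nonneg fun v _ => mul_nonneg (hb0 v) (sq_nonneg _)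
  -- first part
  have I1 := majorize (X := bil M (fun v => γ v + a v) (fun v => γ v + a v) + 2 * ε * G)
    (Y := bil M (fun v => γ v + b v) (fun v => γ v + b v) + 2 * ε * G)
    (X' := bil M (fun v => γ v + a v + b v) (fun v => γ v + a v + b v) + 2 * ε * G)
    (Y' := bil M γ γ + 2 * ε * G)
    (U := ∑ v, (γ v + a v) * d v ^ 2) (V := ∑ v, (γ v + b v) * d v ^ 2)
    (U' := ∑ v, (γ v + a v + b v) * d v ^ 2) (V' := ∑ v, γ v * d v ^ 2)
    (by positivity) (by rw [p1]; positivity) (by rw [p2]; positivity)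
    (by rw [q1, q3]; linarith) (by rw [q2, q3]; linarith) (by rw [q1, q2, q3]; linarith)
    (by rw [q3]; linarith) (by rw [p1, p3]; linarith) (by rw [p2, p3]; linarith)
    (by rw [p1, p2, p3]; linarith)
  -- pointwise comparison
  have hMa : ∀ v, 0 ≤ ∑ w, M v w * a w := fun v =>
    sum_nonneg fun w _ => mul_nonneg (hM0 v w) (ha0 w)
  have hMb : ∀ v, 0 ≤ ∑ w, M v w * b w := fun v =>
    sum_nonneg fun w _ => mul_nonneg (hM0 v w) (hb0 w)
  have hMg : ∀ v, 0 ≤ ∑ w, M v w * γ w := fun v =>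
    sum_nonneg fun w _ => mul_nonneg (hM0 v w) (hγ0 w)
  have s1 : ∀ v, ∑ w, M v w * (γ w + a w) = ∑ w, M v w * γ w + ∑ w, M v w * a w := fun v => by
    rw [← sum_add_distrib]; exact sum_congr rfl fun _ _ => by ring
  have s2 : ∀ v, ∑ w, M v w * (γ w + b w) = ∑ w, M v w * γ w + ∑ w, M v w * b w := fun v => by
    rw [← sum_add_distrib]; exact sum_congr rfl fun _ _ => by ring
  have s3 : ∀ v, ∑ w, M v w * (γ w + a w + b w) = ∑ w, M v w * γ w + ∑ w, M v w * a w +
      ∑ w, M v w * b w := fun v => by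
    rw [← sum_add_distrib, ← sum_add_distrib]; exact sum_congr rfl fun _ _ => by ring
  have hX : ∀ v, 2 * ((γ v + a v) * ∑ w, M v w * (γ w + a w)) +
      2 * ((γ v + b v) * ∑ w, M v w * (γ w + b w)) + 2 * ε * γ v ≤
      2 * ((γ v + a v + b v) * ∑ w, M v w * (γ w + a w + b w)) +
      2 * (γ v * ∑ w, M v w * γ w) + 2 * ε * γ v := by
    intro v
    rw [s1, s2, s3]
    have := hMa v
    have := hMb v
    have := hMg v
    rcases h v with h | h | h | h <;> rw [h.1, h.2.1, h.2.2] <;>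
      simp only [zero_add, add_zero, one_mul, zero_mul, mul_zero, mul_one] <;> linarith
  have hX0 : ∀ v, 0 ≤ 2 * ((γ v + a v) * ∑ w, M v w * (γ w + a w)) +
      2 * ((γ v + b v) * ∑ w, M v w * (γ w + b w)) + 2 * ε * γ v := by
    intro v
    rw [s1, s2]
    have := hMa v
    have := hMb v
    have := hMg v
    have := hγ0 v
    have := ha0 v
    have := hb0 v
    positivity
  have hY : ∀ v, (γ v + a v) * (ε + (G + A)) ^ 2 + (γ v + b v) * (ε + (G + B)) ^ 2 ≤
      (γ v + a v + b v) * (ε + (G + A + B)) ^ 2 + γ v * (ε + G) ^ 2 := by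
    intro v
    have z1 := mul_nonneg hAs hBs
    have z2 : (ε + (G + A)) ^ 2 ≤ (ε + (G + A + B)) ^ 2 :=
      pow_le_pow_left₀ (by positivity) (by linarith) 2
    have z3 : (ε + (G + B)) ^ 2 ≤ (ε + (G + A + B)) ^ 2 :=
      pow_le_pow_left₀ (by positivity) (by linarith) 2
    rcases h v with h | h | h | h <;> rw [h.1, h.2.1, h.2.2] <;>
      simp only [zero_add, add_zero, one_mul, zero_mul, le_refl] <;> linarith
  have hY0 : ∀ v, 0 ≤ (γ v + a v) * (ε + (G + A)) ^ 2 + (γ v + b v) * (ε + (G + B)) ^ 2 := by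
    intro v
    have := hγ0 v
    have := ha0 v
    have := hb0 v
    positivity
  have ht0 : ∀ v, 0 ≤ ∑ y, ∑ z, M v y * M v z * M y z := fun v =>
    sum_nonneg fun y _ => sum_nonneg fun z _ => mul_nonneg (mul_nonneg (hM0 _ _) (hM0 _ _)) (hM0 _ _)
  have hR0 : ∀ v, 0 ≤ ∑ w, M v w * d w ^ 2 := fun v =>
    sum_nonneg fun w _ => mul_nonneg (hM0 _ _) (sq_nonneg _)
  -- second part
  have I4 : ε * ((bil M (fun v => γ v + a v) (fun v => γ v + a v) + 2 * ε * G) *
        (ε + (G + B)) ^ 2 +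
      (bil M (fun v => γ v + b v) (fun v => γ v + b v) + 2 * ε * G) * (ε + (G + A)) ^ 2) +
      ∑ v, (2 * ((γ v + a v) * ∑ w, M v w * (γ w + a w)) +
      2 * ((γ v + b v) * ∑ w, M v w * (γ w + b w)) + 2 * ε * γ v) *
      ((γ v + a v) * (ε + (G + A)) ^ 2 + (γ v + b v) * (ε + (G + B)) ^ 2) ≤
      ε * ((bil M (fun v => γ v + a v + b v) (fun v => γ v + a v + b v) + 2 * ε * G) *
        (ε + G) ^ 2 + (bil M γ γ + 2 * ε * G) * (ε + (G + A + B)) ^ 2) +
      ∑ v, (2 * ((γ v + a v + b v) * ∑ w, M v w * (γ w + a w + b w)) +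
      2 * (γ v * ∑ w, M v w * γ w) + 2 * ε * γ v) *
      ((γ v + a v + b v) * (ε + (G + A + B)) ^ 2 + γ v * (ε + G) ^ 2) := by
    rcases hε with rfl | rfl
    · refine add_le_add (le_of_eq (by rw [zero_mul, zero_mul])) ?_
      apply sum_le_sum
      intro v _
      exact mul_le_mul (hX v) (hY v) (hY0 v) ((hX0 v).trans (hX v))
    · have k1 := sumXY M hα hβ hprod ((1 + (G + A)) ^ 2) ((1 + (G + B)) ^ 2)
      have k2 := sumXY M hα' hγ' hprod' ((1 + (G + A + B)) ^ 2) ((1 + G) ^ 2)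
      simp only [hprod, hprod'] at k1 k2
      simp only [mul_one]
      rw [k1, k2, ← hG]
      have q4 : bil M γ (fun v => γ v + a v) = bil M γ γ + bil M γ a := bil_add_right _ _ _ _
      have q5 : bil M γ (fun v => γ v + b v) = bil M γ γ + bil M γ b := bil_add_right _ _ _ _
      have q6 : bil M γ (fun v => γ v + a v + b v) = bil M γ γ + bil M γ a + bil M γ b := by
        rw [bil_add_right, q4]
      have maj := majorize (X := (1 + (G + A)) ^ 2) (Y := (1 + (G + B)) ^ 2)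
        (X' := (1 + (G + A + B)) ^ 2) (Y' := (1 + G) ^ 2)
        (U := bil M (fun v => γ v + b v) (fun v => γ v + b v) + 2 * G +
          (2 * bil M (fun v => γ v + a v) (fun v => γ v + a v) +
          2 * bil M γ (fun v => γ v + b v) + 2 * G))
        (V := bil M (fun v => γ v + a v) (fun v => γ v + a v) + 2 * G +
          (2 * bil M γ (fun v => γ v + a v) +
          2 * bil M (fun v => γ v + b v) (fun v => γ v + b v) + 2 * G))
        (U' := bil M γ γ + 2 * G +
          (2 * bil M (fun v => γ v + a v + b v) (fun v => γ v + a v + b v) +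
          2 * bil M γ γ + 2 * G))
        (V' := bil M (fun v => γ v + a v + b v) (fun v => γ v + a v + b v) + 2 * G +
          (2 * bil M γ (fun v => γ v + a v + b v) + 2 * bil M γ γ + 2 * G))
        (by positivity) (by rw [q1, q2, q5]; positivity) (by rw [q1, q2, q4]; positivity)
        (by apply pow_le_pow_left₀ (by positivity); linarith)
        (by apply pow_le_pow_left₀ (by positivity); linarith)
        (by nlinarith [mul_nonneg hAs hBs])
        (by apply pow_le_pow_left₀ (by positivity); linarith)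
        (by rw [q1, q2, q3, q5]; linarith)
        (by rw [q1, q2, q3, q4]; linarith)
        (by rw [q1, q2, q3, q4, q5, q6]; linarith)
      linarith
  -- remaining parts
  have I2 : ∑ v, ((∑ y, ∑ z, M v y * M v z * M y z) +
      (2 * ((γ v + a v) * ∑ w, M v w * (γ w + a w)) +
      2 * ((γ v + b v) * ∑ w, M v w * (γ w + b w)) + 2 * ε * γ v)) * ∑ w, M v w * d w ^ 2 ≤
      ∑ v, ((∑ y, ∑ z, M v y * M v z * M y z) +
      (2 * ((γ v + a v + b v) * ∑ w, M v w * (γ w + a w + b w)) +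
      2 * (γ v * ∑ w, M v w * γ w) + 2 * ε * γ v)) * ∑ w, M v w * d w ^ 2 := by
    apply sum_le_sum
    intro v _
    apply mul_le_mul_of_nonneg_right _ (hR0 v)
    linarith [hX v]
  have I3 : ∑ v, (∑ y, ∑ z, M v y * M v z * M y z) *
      ((γ v + a v) * (ε + (G + A)) ^ 2 + (γ v + b v) * (ε + (G + B)) ^ 2) ≤
      ∑ v, (∑ y, ∑ z, M v y * M v z * M y z) *
      ((γ v + a v + b v) * (ε + (G + A + B)) ^ 2 + γ v * (ε + G) ^ 2) := by
    apply sum_le_sum
    intro v _
    exact mul_le_mul_of_nonneg_left (hY v) (ht0 v)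
  have dec : ∀ (t X Y R : W → ℝ), ∑ v, (t v + X v) * (Y v + R v) =
      ∑ v, (t v + X v) * R v + ∑ v, t v * Y v + ∑ v, X v * Y v := by
    intro t X Y R
    rw [← sum_add_distrib, ← sum_add_distrib]
    exact sum_congr rfl fun _ _ => by ring
  have e1 := dec (fun v => ∑ y, ∑ z, M v y * M v z * M y z)
    (fun v => 2 * ((γ v + a v) * ∑ w, M v w * (γ w + a w)) +
      2 * ((γ v + b v) * ∑ w, M v w * (γ w + b w)) + 2 * ε * γ v)
    (fun v => (γ v + a v) * (ε + (G + A)) ^ 2 + (γ v + b v) * (ε + (G + B)) ^ 2)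
    (fun v => ∑ w, M v w * d w ^ 2)
  have e2 := dec (fun v => ∑ y, ∑ z, M v y * M v z * M y z)
    (fun v => 2 * ((γ v + a v + b v) * ∑ w, M v w * (γ w + a w + b w)) +
      2 * (γ v * ∑ w, M v w * γ w) + 2 * ε * γ v)
    (fun v => (γ v + a v + b v) * (ε + (G + A + B)) ^ 2 + γ v * (ε + G) ^ 2)
    (fun v => ∑ w, M v w * d w ^ 2)
  have e1' : ∑ v, ((∑ y, ∑ z, M v y * M v z * M y z) +
      2 * ((γ v + a v) * ∑ w, M v w * (γ w + a w)) +
      2 * ((γ v + b v) * ∑ w, M v w * (γ w + b w)) + 2 * ε * γ v) *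
      ((γ v + a v) * (ε + (G + A)) ^ 2 + (γ v + b v) * (ε + (G + B)) ^ 2 +
        ∑ w, M v w * d w ^ 2) =
      ∑ v, ((∑ y, ∑ z, M v y * M v z * M y z) +
      (2 * ((γ v + a v) * ∑ w, M v w * (γ w + a w)) +
      2 * ((γ v + b v) * ∑ w, M v w * (γ w + b w)) + 2 * ε * γ v)) *
      ((γ v + a v) * (ε + (G + A)) ^ 2 + (γ v + b v) * (ε + (G + B)) ^ 2 +
        ∑ w, M v w * d w ^ 2) :=
    sum_congr rfl fun _ _ => by ring
  have e2' : ∑ v, ((∑ y, ∑ z, M v y * M v z * M y z) +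
      2 * ((γ v + a v + b v) * ∑ w, M v w * (γ w + a w + b w)) +
      2 * (γ v * ∑ w, M v w * γ w) + 2 * ε * γ v) *
      ((γ v + a v + b v) * (ε + (G + A + B)) ^ 2 + γ v * (ε + G) ^ 2 +
        ∑ w, M v w * d w ^ 2) =
      ∑ v, ((∑ y, ∑ z, M v y * M v z * M y z) +
      (2 * ((γ v + a v + b v) * ∑ w, M v w * (γ w + a w + b w)) +
      2 * (γ v * ∑ w, M v w * γ w) + 2 * ε * γ v)) *
      ((γ v + a v + b v) * (ε + (G + A + B)) ^ 2 + γ v * (ε + G) ^ 2 +
        ∑ w, M v w * d w ^ 2) :=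
    sum_congr rfl fun _ _ => by ring
  rw [e1', e2', e1, e2]
  linarith

end Pool.Agent.H26.G6
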