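import Mathlib
import Pool.Agent.H26.G6Kelmans

/-!
Extremal graphs for the homomorphism functional of `G₆` have nested neighbourhoods.
-/

namespace Pool.Agent.H26.G6

open Finset

variable {V : Type*}

open Classical in
/-- real adjacency matrix -/
noncomputable def adj (H : SimpleGraph V) : V → V → ℝ := fun x y => if H.Adj x y then 1 else 0

lemma adj_eq_one {H : SimpleGraph V} {x y : V} : adj H x y = 1 ↔ H.Adj x y := by
  unfold adj
  split_ifs with h
  · simp [h]
  · simp [h]

lemma adj_of {H : SimpleGraph V} {x y : V} (h : H.Adj x y) : adj H x y = 1 := adj_eq_one.2 h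

lemma adj_of_not {H : SimpleGraph V} {x y : V} (h : ¬ H.Adj x y) : adj H x y = 0 := by
  unfold adj; rw [if_neg h]

lemma adj_cases (H : SimpleGraph V) (x y : V) : adj H x y = 0 ∨ adj H x y = 1 := by
  unfold adj; split_ifs <;> simp

lemma adj_nonneg (H : SimpleGraph V) (x y : V) : 0 ≤ adj H x y := by
  rcases adj_cases H x y with h | h <;> rw [h] <;> norm_num

lemma adj_symm (H : SimpleGraph V) (x y : V) : adj H x y = adj H y x := by
  by_cases h : H.Adj x y
  · rw [adj_of h, adj_of h.symm]
  · rw [adj_of_not h, adj_of_not (fun h' => h h'.symm)]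

lemma adj_self (H : SimpleGraph V) (x : V) : adj H x x = 0 := adj_of_not (H.irrefl)

lemma adj_mono {H K : SimpleGraph V} (h : H ≤ K) (x y : V) : adj H x y ≤ adj K x y := by
  by_cases h' : H.Adj x y
  · rw [adj_of h', adj_of (h h')]
  · rw [adj_of_not h']; exact adj_nonneg _ _ _

lemma exists_graph (B : V → V → ℝ) (h01 : ∀ x y, B x y = 0 ∨ B x y = 1)
    (hsym : ∀ x y, B x y = B y x) (h0 : ∀ x, B x x = 0) : ∃ K : SimpleGraph V, adj K = B := by
  refine ⟨⟨fun x y => B x y = 1, ⟨fun x y h => by rw [hsym]; exact h⟩,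
    ⟨fun x h => by rw [h0] at h; norm_num at h⟩⟩, ?_⟩
  funext x y
  rcases h01 x y with h | h
  · rw [h]; apply adj_of_not; show ¬ B x y = 1; rw [h]; norm_num
  · rw [h]; exact adj_of h

/-- Two distinguished vertices and the rest. -/
noncomputable def twoEquiv {a b : V} (hab : a ≠ b) : Bool ⊕ {v : V // v ≠ a ∧ v ≠ b} ≃ V := by
  classical
  exact
  { toFun := fun i => match i with
      | .inl true => a
      | .inl false => b
      | .inr v => v
    invFun := fun v => if h : v ≠ a ∧ v ≠ b then .inr ⟨v, h⟩ else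
      if v = a then .inl true else .inl false
    left_inv := by
      rintro (⟨_ | _⟩ | ⟨v, hv⟩)
      · simp [hab.symm]
      · simp
      · simp [hv.1, hv.2]
    right_inv := by
      intro v
      by_cases h1 : v = a
      · simp [h1]
      · by_cases h2 : v = b
        · simp [h2, hab.symm]
        · simp [h1, h2] }

@[simp] lemma twoEquiv_true {a b : V} (hab : a ≠ b) : twoEquiv hab (.inl true) = a := rfl
@[simp] lemma twoEquiv_false {a b : V} (hab : a ≠ b) : twoEquiv hab (.inl false) = b := rfl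
@[simp] lemma twoEquiv_inr {a b : V} (hab : a ≠ b) (v : {v : V // v ≠ a ∧ v ≠ b}) :
    twoEquiv hab (.inr v) = v := rfl

section

variable {W : Type*} [Fintype W]

lemma S1_blk (ε : ℝ) (α β : W → ℝ) (M : W → W → ℝ) :
    S1 (blk ε α β M) = 2 * ε + 2 * ∑ v, (α v + β v) + ∑ v, ∑ w, M v w := by
  simp only [S1, dg, blk, Fintype.sum_sum_type, Fintype.sum_bool, sum_add_distrib]
  ring

lemma S2_blk (ε : ℝ) (α β : W → ℝ) (M : W → W → ℝ) :
    S2 (blk ε α β M) = (ε + ∑ v, α v) ^ 2 + (ε + ∑ v, β v) ^ 2 +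
      ∑ v, (α v + β v + ∑ w, M v w) ^ 2 := by
  simp only [S2, dg, blk, Fintype.sum_sum_type, Fintype.sum_bool]
  ring

end

variable [Fintype V]

/-- The Kelmans transformation for graphs. -/
lemma kelmans_graph (H : SimpleGraph V) {a b : V} (hab : a ≠ b)
    (ha : ∃ v, v ≠ a ∧ v ≠ b ∧ H.Adj a v ∧ ¬ H.Adj b v)
    (hb : ∃ v, v ≠ a ∧ v ≠ b ∧ H.Adj b v ∧ ¬ H.Adj a v) :
    ∃ K : SimpleGraph V, Phi (adj H) ≤ Phi (adj K) ∧ S1 (adj K) = S1 (adj H) ∧
      S2 (adj H) < S2 (adj K) := by
  classical
  let W := {v : V // v ≠ a ∧ v ≠ b}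
  let e : Bool ⊕ W ≃ V := twoEquiv hab
  let γ : W → ℝ := fun v => adj H a v * adj H b v
  let α : W → ℝ := fun v => adj H a v - adj H a v * adj H b v
  let β : W → ℝ := fun v => adj H b v - adj H a v * adj H b v
  let M : W → W → ℝ := fun v w => adj H v w
  have hH : (fun i j => adj H (e i) (e j)) =
      blk (adj H a b) (fun v => γ v + α v) (fun v => γ v + β v) M := by
    funext i j
    rcases i with (_ | _) | v <;> rcases j with (_ | _) | w
    · exact adj_self H b
    · exact adj_symm H b a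
    · show adj H b w = γ w + β w
      simp only [γ, β]; ring
    · rfl
    · exact adj_self H a
    · show adj H a w = γ w + α w
      simp only [γ, α]; ring
    · show adj H v b = γ v + β v
      simp only [γ, β]; rw [adj_symm]; ring
    · show adj H v a = γ v + α v
      simp only [γ, α]; rw [adj_symm]; ring
    · rfl
  have hcases : ∀ v, (γ v = 0 ∧ α v = 0 ∧ β v = 0) ∨ (γ v = 1 ∧ α v = 0 ∧ β v = 0) ∨
      (γ v = 0 ∧ α v = 1 ∧ β v = 0) ∨ (γ v = 0 ∧ α v = 0 ∧ β v = 1) := by
    intro v
    simp only [γ, α, β]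
    rcases adj_cases H a v with h | h <;> rcases adj_cases H b v with h' | h' <;> rw [h, h'] <;>
      norm_num
  have hMs : ∀ v w, M v w = M w v := fun v w => adj_symm H v w
  have hM0 : ∀ v w, 0 ≤ M v w := fun v w => adj_nonneg H v w
  have h01 : ∀ i j, blk (adj H a b) (fun v => γ v + α v + β v) γ M i j = 0 ∨
      blk (adj H a b) (fun v => γ v + α v + β v) γ M i j = 1 := by
    have hγ01 : ∀ w, γ w = 0 ∨ γ w = 1 := fun w => by
      rcases hcases w with h | h | h | h <;> rw [h.1] <;> norm_num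
    have hα01 : ∀ w, γ w + α w + β w = 0 ∨ γ w + α w + β w = 1 := fun w => by
      rcases hcases w with h | h | h | h <;> rw [h.1, h.2.1, h.2.2] <;> norm_num
    rintro ((_ | _) | v) ((_ | _) | w) <;> simp only [blk] <;>
      first | exact Or.inl trivial | exact adj_cases _ _ _ | exact hγ01 _ | exact hα01 _
  have hsym : ∀ i j, blk (adj H a b) (fun v => γ v + α v + β v) γ M i j =
      blk (adj H a b) (fun v => γ v + α v + β v) γ M j i := by
    rintro ((_ | _) | v) ((_ | _) | w) <;> simp only [blk]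
    exact adj_symm H v w
  have hdiag : ∀ i, blk (adj H a b) (fun v => γ v + α v + β v) γ M i i = 0 := by
    rintro ((_ | _) | v) <;> simp only [blk]
    exact adj_self H v
  obtain ⟨K, hK⟩ := exists_graph
    (fun x y => blk (adj H a b) (fun v => γ v + α v + β v) γ M (e.symm x) (e.symm y))
    (fun x y => h01 _ _) (fun x y => hsym _ _) (fun x => hdiag _)
  have hKe : (fun i j => adj K (e i) (e j)) =
      blk (adj H a b) (fun v => γ v + α v + β v) γ M := by
    funext i j
    rw [hK]
    simp only [Equiv.symm_apply_apply]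
  refine ⟨K, ?_, ?_, ?_⟩
  · rw [← Phi_equiv e (adj H), ← Phi_equiv e (adj K), hH, hKe]
    exact kelmans_Phi (adj_cases H a b) hMs hM0 hcases
  · rw [← S1_equiv e (adj H), ← S1_equiv e (adj K), hH, hKe, S1_blk, S1_blk]
    have : ∑ v, (γ v + α v + β v + γ v) = ∑ v, (γ v + α v + (γ v + β v)) :=
      sum_congr rfl fun _ _ => by ring
    rw [this]
  · rw [← S2_equiv e (adj H), ← S2_equiv e (adj K), hH, hKe, S2_blk, S2_blk]
    have e1 : ∑ v, (γ v + α v + β v + γ v + ∑ w, M v w) ^ 2 =
        ∑ v, (γ v + α v + (γ v + β v) + ∑ w, M v w) ^ 2 :=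
      sum_congr rfl fun _ _ => by ring
    rw [e1]
    have hα0 : ∀ v, 0 ≤ α v := fun v => by
      rcases hcases v with h | h | h | h <;> rw [h.2.1] <;> norm_num
    have hβ0 : ∀ v, 0 ≤ β v := fun v => by
      rcases hcases v with h | h | h | h <;> rw [h.2.2] <;> norm_num
    have hA : 0 < ∑ v, α v := by
      obtain ⟨v, h1, h2, h3, h4⟩ := ha
      apply sum_pos' (fun i _ => hα0 i)
      refine ⟨⟨v, h1, h2⟩, mem_univ _, ?_⟩
      show 0 < adj H a v - adj H a v * adj H b v
      rw [adj_of h3, adj_of_not h4]; norm_num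
    have hB : 0 < ∑ v, β v := by
      obtain ⟨v, h1, h2, h3, h4⟩ := hb
      apply sum_pos' (fun i _ => hβ0 i)
      refine ⟨⟨v, h1, h2⟩, mem_univ _, ?_⟩
      show 0 < adj H b v - adj H a v * adj H b v
      rw [adj_of h3, adj_of_not h4]; norm_num
    rw [sum_add_distrib, sum_add_distrib, sum_add_distrib, sum_add_distrib]
    have := mul_pos hA hB
    nlinarith

/-- Nested neighbourhoods. -/
def Nested (H : SimpleGraph V) : Prop :=
  ∀ a b, a ≠ b → (∀ v, v ≠ a → v ≠ b → H.Adj a v → H.Adj b v) ∨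
    (∀ v, v ≠ a → v ≠ b → H.Adj b v → H.Adj a v)

/-- Adding an edge. -/
lemma add_edge (H : SimpleGraph V) (hH : H ≠ ⊤) : ∃ K : SimpleGraph V, H ≤ K ∧
    S1 (adj K) = S1 (adj H) + 2 := by
  classical
  obtain ⟨a, b, hab, hadj⟩ : ∃ a b, a ≠ b ∧ ¬ H.Adj a b := by
    by_contra hcon
    push Not at hcon
    apply hH
    ext x y
    rw [SimpleGraph.top_adj]
    exact ⟨fun h => h.ne, fun h => hcon x y h⟩
  obtain ⟨K, hK⟩ := exists_graph
    (fun x y => adj H x y + if (x = a ∧ y = b) ∨ (x = b ∧ y = a) then 1 else 0)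
    (by
      intro x y
      show _ + _ = _ ∨ _ + _ = _
      split_ifs with h
      · right
        rcases h with ⟨rfl, rfl⟩ | ⟨rfl, rfl⟩
        · rw [adj_of_not hadj]; norm_num
        · rw [adj_symm, adj_of_not hadj]; norm_num
      · rw [add_zero]; exact adj_cases H x y)
    (by
      intro x y
      show _ + _ = _ + _
      rw [adj_symm H x y]
      congr 1
      by_cases h : (x = a ∧ y = b) ∨ (x = b ∧ y = a)
      · rw [if_pos h, if_pos (by tauto)]
      · rw [if_neg h, if_neg (by tauto)])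
    (by
      intro x
      show _ + _ = _
      rw [adj_self, if_neg, add_zero]
      rintro (⟨h1, h2⟩ | ⟨h1, h2⟩)
      · exact hab (h1.symm.trans h2)
      · exact hab (h2.symm.trans h1))
  refine ⟨K, ?_, ?_⟩
  · intro x y hxy
    have : adj K x y = 1 := by
      rcases adj_cases K x y with h | h
      · exfalso
        rw [hK] at h
        simp only [adj_of hxy] at h
        split_ifs at h <;> norm_num at h
      · exact h
    exact adj_eq_one.1 this
  · unfold S1 dg
    rw [hK]
    simp only [sum_add_distrib]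
    congr 1
    have : ∀ x y : V, (if (x = a ∧ y = b) ∨ (x = b ∧ y = a) then (1 : ℝ) else 0) =
        (if x = a then (if y = b then 1 else 0) else 0) +
          (if x = b then (if y = a then 1 else 0) else 0) := by
      intro x y
      by_cases h1 : x = a
      · subst h1
        by_cases h2 : y = b
        · simp [h2, hab]
        · simp [h2, hab]
      · by_cases h3 : x = b
        · subst h3
          by_cases h2 : y = a
          · simp [h2, h1]
          · simp [h2, h1]
        · simp [h1, h3]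
    simp only [this, sum_add_distrib]
    simp
    norm_num

/-- Existence of an extremal graph with nested neighbourhoods. -/
lemma exists_extremal (V : Type*) [Fintype V] (t : ℝ) (ht : 0 ≤ t) :
    ∃ H : SimpleGraph V, S1 (adj H) ≤ t ∧
      (∀ K : SimpleGraph V, S1 (adj K) ≤ t → Phi (adj K) ≤ Phi (adj H)) ∧ Nested H ∧
      (H = ⊤ ∨ t < S1 (adj H) + 2) := by
  classical
  let T := {H : SimpleGraph V // S1 (adj H) ≤ t}
  have hne : Nonempty T := ⟨⟨⊥, by
    have : S1 (adj (⊥ : SimpleGraph V)) = 0 := by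
      unfold S1 dg
      apply sum_eq_zero
      intro x _
      apply sum_eq_zero
      intro y _
      exact adj_of_not (by simp)
    rw [this]; exact ht⟩⟩
  obtain ⟨⟨H, hH⟩, hmax⟩ := Finite.exists_max (fun H : T =>
    toLex ((Phi (adj H.1) : ℝ), toLex ((S1 (adj H.1) : ℝ), (S2 (adj H.1) : ℝ))))
  have key : ∀ K : SimpleGraph V, S1 (adj K) ≤ t → Phi (adj K) < Phi (adj H) ∨
      (Phi (adj K) = Phi (adj H) ∧ (S1 (adj K) < S1 (adj H) ∨
        (S1 (adj K) = S1 (adj H) ∧ S2 (adj K) ≤ S2 (adj H)))) := by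
    intro K hK
    have := hmax ⟨K, hK⟩
    simp only [Prod.Lex.toLex_le_toLex] at this
    exact this
  refine ⟨H, hH, ?_, ?_, ?_⟩
  · intro K hK
    rcases key K hK with h | h
    · exact h.le
    · exact h.1.le
  · intro a b hab
    by_contra hcon
    push Not at hcon
    obtain ⟨⟨v, h1, h2, h3, h4⟩, ⟨w, h5, h6, h7, h8⟩⟩ := hcon
    obtain ⟨K, k1, k2, k3⟩ := kelmans_graph H hab ⟨v, h1, h2, h3, h4⟩ ⟨w, h5, h6, h7, h8⟩
    rcases key K (by rw [k2]; exact hH) with h | ⟨_, h | ⟨_, h⟩⟩
    · linarith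
    · linarith
    · linarith
  · by_contra hcon
    push Not at hcon
    obtain ⟨K, k1, k2⟩ := add_edge H hcon.1
    have k3 : Phi (adj H) ≤ Phi (adj K) := Phi_mono (adj_nonneg H) (adj_mono k1)
    rcases key K (by rw [k2]; exact hcon.2) with h | ⟨_, h | ⟨h, _⟩⟩
    · linarith
    · linarith
    · linarith

end Pool.Agent.H26.G6
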