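import Mathlib

/-!
Real inequalities used for the subgraph count of `G₆`.
-/

namespace Pool.Agent.H26.G6

/-- Clique region, all variables homogeneous. -/
lemma clique_key {s a E N : ℝ} (hs : 0 < s) (ha : 0 ≤ a) (hE : 0 ≤ E) (hN : 0 ≤ N)
    (hNE : N ≤ s * E) (hβ : (s + a) ^ 2 ≤ 25 * (s ^ 2 + 2 * E)) :
    s * E ^ 3 ≤ 3 * s ^ 3 * E ^ 2 + 5 * s * E ^ 3 +
      N * (4 * s ^ 4 - a * s ^ 3 + 10 * s ^ 2 * E - 3 * a * s * E + 3 * E ^ 2) +
      N ^ 2 * (3 * a - 2 * s) := by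
  rcases le_or_gt a (4 * s) with h | h
  · -- `a ≤ 4 s`
    have e1 : 0 ≤ N * (s ^ 3 * (4 * s - a)) := by
      apply mul_nonneg hN (mul_nonneg (by positivity) (by linarith))
    rcases le_or_gt (2 * s) (3 * a) with h2 | h2
    · have e2 : 0 ≤ 3 * s ^ 3 * E ^ 2 + N * (10 * s ^ 2 * E - 3 * a * s * E) +
          N ^ 2 * (3 * a - 2 * s) := by
        rcases le_or_gt (3 * a) (10 * s) with h3 | h3
        · have : 0 ≤ N * (s * E * (10 * s - 3 * a)) :=
            mul_nonneg hN (mul_nonneg (by positivity) (by linarith))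
          have : 0 ≤ N ^ 2 * (3 * a - 2 * s) := mul_nonneg (by positivity) (by linarith)
          have : 0 ≤ 3 * s ^ 3 * E ^ 2 := by positivity
          nlinarith
        · have : 0 ≤ N * (s * E * (12 * s - 3 * a)) :=
            mul_nonneg hN (mul_nonneg (by positivity) (by linarith))
          have : 0 ≤ N ^ 2 * (3 * a - 10 * s) := mul_nonneg (by positivity) (by linarith)
          have : 0 ≤ s * (3 * (s * E) ^ 2 - 2 * (s * E) * N + 8 * N ^ 2) := by
            apply mul_nonneg hs.le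
            nlinarith [sq_nonneg (s * E - N), sq_nonneg (s * E), sq_nonneg N]
          nlinarith
      have : 0 ≤ N * (3 * E ^ 2) := by positivity
      have : 0 ≤ s * E ^ 3 := by positivity
      nlinarith
    · have e2 : 0 ≤ N * (10 * s ^ 2 * E - 3 * a * s * E) + N ^ 2 * (3 * a - 2 * s) := by
        have h4 : 0 ≤ N * (s * E - N) * (2 * s - 3 * a) :=
          mul_nonneg (mul_nonneg hN (by linarith)) (by linarith)
        have h5 : 0 ≤ N * E * (8 * s ^ 2) := by positivity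
        nlinarith
      have : 0 ≤ 3 * s ^ 3 * E ^ 2 := by positivity
      have : 0 ≤ N * (3 * E ^ 2) := by positivity
      have : 0 ≤ s * E ^ 3 := by positivity
      nlinarith
  · -- `4 s < a`
    obtain ⟨b, rfl⟩ : ∃ b, a = 4 * s + b := ⟨a - 4 * s, by ring⟩
    have hb : 0 < b := by linarith
    have hE5 : b * (10 * s + b) ≤ 50 * E := by nlinarith
    set X := b * s ^ 3 + (2 * s + 3 * b) * s * E - 3 * E ^ 2 with hX
    have hEpos : 0 < E := by nlinarith [mul_pos hb (by positivity : 0 < 10 * s + b)]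
    have e0 : 3 * s ^ 3 * E ^ 2 + 5 * s * E ^ 3 +
      N * (4 * s ^ 4 - (4 * s + b) * s ^ 3 + 10 * s ^ 2 * E - 3 * (4 * s + b) * s * E + 3 * E ^ 2) +
      N ^ 2 * (3 * (4 * s + b) - 2 * s) =
      (3 * s ^ 3 * E ^ 2 + 5 * s * E ^ 3) - N * X + N ^ 2 * (10 * s + 3 * b) := by
      rw [hX]; ring
    rw [e0]
    rcases le_or_gt X 0 with h0 | h0
    · have : 0 ≤ N * (-X) := mul_nonneg hN (by linarith)
      have : 0 ≤ N ^ 2 * (10 * s + 3 * b) := by positivity
      have : 0 ≤ 3 * s ^ 3 * E ^ 2 := by positivity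
      have : 0 ≤ s * E ^ 3 := by positivity
      nlinarith
    · -- discriminant
      have d1 : X * (10 * s + b) ≤ s * E * (70 * s ^ 2 + 32 * s * b + 3 * b ^ 2) := by
        have : X ≤ b * s ^ 3 + (2 * s + 3 * b) * s * E := by
          rw [hX]; nlinarith [sq_nonneg E]
        have h6 : X * (10 * s + b) ≤ (b * s ^ 3 + (2 * s + 3 * b) * s * E) * (10 * s + b) :=
          mul_le_mul_of_nonneg_right this (by positivity)
        have h7 : b * (10 * s + b) * s ^ 3 ≤ 50 * E * s ^ 3 :=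
          mul_le_mul_of_nonneg_right hE5 (by positivity)
        nlinarith
      have d2 : (X * (10 * s + b)) ^ 2 ≤
          (s * E * (70 * s ^ 2 + 32 * s * b + 3 * b ^ 2)) ^ 2 := by
        apply pow_le_pow_left₀ (by positivity) d1
      have d3 : (s * E * (70 * s ^ 2 + 32 * s * b + 3 * b ^ 2)) ^ 2 ≤
          4 * (10 * s + 3 * b) * (10 * s + b) ^ 2 * (s * E ^ 2) *
            (3 * s ^ 2 + 4 / 5 * s * b + 2 / 25 * b ^ 2) := by
        have h8 : s * (70 * s ^ 2 + 32 * s * b + 3 * b ^ 2) ^ 2 ≤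
            4 * (10 * s + 3 * b) * (10 * s + b) ^ 2 *
              (3 * s ^ 2 + 4 / 5 * s * b + 2 / 25 * b ^ 2) := by
          have : 4 * (10 * s + 3 * b) * (10 * s + b) ^ 2 *
              (3 * s ^ 2 + 4 / 5 * s * b + 2 / 25 * b ^ 2) -
              s * (70 * s ^ 2 + 32 * s * b + 3 * b ^ 2) ^ 2 =
              7100 * s ^ 5 + 4720 * s ^ 4 * b + 1316 * s ^ 3 * b ^ 2 + 228 * s ^ 2 * b ^ 3 +
              23 * s * b ^ 4 + 24 / 25 * b ^ 5 := by ring
          have h10 : 0 ≤ 7100 * s ^ 5 + 4720 * s ^ 4 * b + 1316 * s ^ 3 * b ^ 2 +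
              228 * s ^ 2 * b ^ 3 + 23 * s * b ^ 4 + 24 / 25 * b ^ 5 := by positivity
          linarith
        have h9 : 0 ≤ s * E ^ 2 := by positivity
        have := mul_le_mul_of_nonneg_left h8 h9
        nlinarith
      have d4 : 4 * (10 * s + 3 * b) * (10 * s + b) ^ 2 * (s * E ^ 2) *
            (3 * s ^ 2 + 4 / 5 * s * b + 2 / 25 * b ^ 2) ≤
          4 * (10 * s + 3 * b) * (10 * s + b) ^ 2 * (s * E ^ 2) * (3 * s ^ 2 + 4 * E) := by
        apply mul_le_mul_of_nonneg_left _ (by positivity)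
        nlinarith
      have d5 : X ^ 2 ≤ 4 * (10 * s + 3 * b) * (s * E ^ 2) * (3 * s ^ 2 + 4 * E) := by
        have h11 : (10 * s + b) ^ 2 * X ^ 2 ≤ (10 * s + b) ^ 2 *
            (4 * (10 * s + 3 * b) * (s * E ^ 2) * (3 * s ^ 2 + 4 * E)) := by
          calc (10 * s + b) ^ 2 * X ^ 2 = (X * (10 * s + b)) ^ 2 := by ring
            _ ≤ _ := d2.trans (d3.trans d4)
            _ = _ := by ring
        exact le_of_mul_le_mul_left h11 (by positivity)
      have d6 : 0 ≤ (10 * s + 3 * b) * ((3 * s ^ 3 * E ^ 2 + 4 * s * E ^ 3) - N * X +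
          N ^ 2 * (10 * s + 3 * b)) := by
        nlinarith [sq_nonneg (2 * (10 * s + 3 * b) * N - X)]
      have d7 : 0 ≤ (3 * s ^ 3 * E ^ 2 + 4 * s * E ^ 3) - N * X + N ^ 2 * (10 * s + 3 * b) :=
        nonneg_of_mul_nonneg_right d6 (by positivity)
      nlinarith

/-- Clique region, all variables homogeneous. -/
lemma clique_region {s a E M m : ℝ} (hs : 0 < s) (ha : 0 ≤ a) (hE : 0 ≤ E) (hM : 0 ≤ M)
    (hME : M ≤ s * E) (hm : s * m ≤ s * a * E - a * M + E ^ 2)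
    (hβ : (s + a) ^ 2 ≤ 25 * (s ^ 2 + 2 * E)) :
    (s ^ 3 + 3 * M) * (s ^ 3 + 2 * s * E + m) + s ^ 3 * M + 2 * M ^ 2 + E ^ 3 ≤
      (s ^ 2 + 2 * E) ^ 3 := by
  -- it is enough to prove the inequality multiplied by `s` with `m` replaced by its bound
  set N := s * E - M with hN
  have hN0 : 0 ≤ N := by rw [hN]; linarith
  have hNE : N ≤ s * E := by rw [hN]; linarith
  have hMN : M = s * E - N := by rw [hN]; ring
  have key := clique_key hs ha hE hN0 hNE hβ
  have h1 : s * ((s ^ 3 + 3 * M) * (s ^ 3 + 2 * s * E + m) + s ^ 3 * M + 2 * M ^ 2) ≤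
      (s ^ 3 + 3 * M) * (s ^ 4 + 2 * s ^ 2 * E + (s * a * E - a * M + E ^ 2)) + s ^ 4 * M +
        2 * s * M ^ 2 := by
    have h3 : 0 ≤ s ^ 3 + 3 * M := by positivity
    nlinarith [mul_le_mul_of_nonneg_left hm h3]
  have h2 : s * (s ^ 2 + 2 * E) ^ 3 - ((s ^ 3 + 3 * M) * (s ^ 4 + 2 * s ^ 2 * E +
      (s * a * E - a * M + E ^ 2)) + s ^ 4 * M + 2 * s * M ^ 2) =
      3 * s ^ 3 * E ^ 2 + 5 * s * E ^ 3 +
      N * (4 * s ^ 4 - a * s ^ 3 + 10 * s ^ 2 * E - 3 * a * s * E + 3 * E ^ 2) +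
      N ^ 2 * (3 * a - 2 * s) := by
    rw [hMN]; ring
  have h4 : s * ((s ^ 3 + 3 * M) * (s ^ 3 + 2 * s * E + m) + s ^ 3 * M + 2 * M ^ 2 + E ^ 3) ≤
      s * (s ^ 2 + 2 * E) ^ 3 := by linarith
  exact le_of_mul_le_mul_left h4 hs

end Pool.Agent.H26.G6
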