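import Mathlib

/-!
Real inequalities used for the subgraph count of `G₆`: second region.
-/

namespace Pool.Agent.H26.G6

private lemma disc_pos {x : ℝ} (h1 : (1/50) ≤ x) (h2 : x ≤ (19/25)) :
    0 ≤ (-194481/2560000) * x ^ 0 + (2753/640) * x ^ 1 + (-1892483/288000) * x ^ 2 + (441/1600) * x ^ 3 + (693589/320000) * x ^ 4 + (-539/800) * x ^ 5 + (-1/4) * x ^ 6 + (147/400) * x ^ 7 + (-117649/1440000) * x ^ 8 := by
  have e : (-194481/2560000) * x ^ 0 + (2753/640) * x ^ 1 + (-1892483/288000) * x ^ 2 + (441/1600) * x ^ 3 + (693589/320000) * x ^ 4 + (-539/800) * x ^ 5 + (-1/4) * x ^ 6 + (147/400) * x ^ 7 + (-117649/1440000) * x ^ 8 = (418286834260717351/5057970413646240000) * ((x - (1/50)) ^ 0 * ((19/25) - x) ^ 8) + (10717159268558847169/316123150852890000) * ((x - (1/50)) ^ 1 * ((19/25) - x) ^ 7) + (15419856035740599463/79030787713222500) * ((x - (1/50)) ^ 2 * ((19/25)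 - x) ^ 6) + (8173110824363382389/17562397269605000) * ((x - (1/50)) ^ 3 * ((19/25) - x) ^ 5) + (24782887461100377971/42149753447052000) * ((x - (1/50)) ^ 4 * ((19/25) - x) ^ 4) + (3659221066464551733/8781198634802500) * ((x - (1/50)) ^ 5 * ((19/25) - x) ^ 3) + (12536929870684225093/79030787713222500) * ((x - (1/50)) ^ 6 * ((19/25) - x) ^ 2) + (1052899511775530237/39515393856611250) * ((x - (1/50)) ^ 7 * ((19/25) - x) ^ 1) + (237538601979759631/316123150852890000) * ((x - (1/50)) ^ 8 * ((19/25) - x) ^ 0) := by ring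
  rw [e]
  have h3 : 0 ≤ x - (1/50) := by linarith
  have h4 : 0 ≤ (19/25) - x := by linarith
  positivity

private lemma lin_pos {x : ℝ} (h1 : 0 ≤ x) (h2 : x ≤ (1/10)) :
    0 ≤ (2449/9600) * x ^ 0 + (-27/16) * x ^ 1 + (147/3200) * x ^ 2 + (9/4) * x ^ 3 + (-833/1600) * x ^ 4 + (-3/4) * x ^ 5 + (539/2400) * x ^ 6 := by
  have e : (2449/9600) * x ^ 0 + (-27/16) * x ^ 1 + (147/3200) * x ^ 2 + (9/4) * x ^ 3 + (-833/1600) * x ^ 4 + (-3/4) * x ^ 5 + (539/2400) * x ^ 6 = (1530625/6) * ((x - 0) ^ 0 * ((1/10) - x) ^ 6) + 1361875 * ((x - 0) ^ 1 * ((1/10) - x) ^ 5) + (23866175/8) * ((x - 0) ^ 2 * ((1/10) - x) ^ 4) + (20512025/6) * ((x - 0) ^ 3 * ((1/10) - x) ^ 3) + (34376267/16) * ((x - 0) ^ 4 * ((1/10) - x) ^ 2) + (5562807/8) * ((x - 0) ^ 5 * ((1/10) - x) ^ 1) + (71203363/800) * ((x - 0) ^ 6 * ((1/10) - x) ^ 0) := by ring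
  rw [e]
  have h3 : 0 ≤ x - 0 := by linarith
  have h4 : 0 ≤ (1/10) - x := by linarith
  positivity

lemma regionII_H {x ν σ : ℝ} (hx : 0 ≤ x) (hx2 : x ^ 2 ≤ 15 / 26)
    (hνe : ν ≤ 3 / 4 - x ^ 2 / 2) (hσ : 0 ≤ σ) (hσ2 : σ ≤ 49 / 300) :
    0 ≤ (1 / 4 - 3 * x ^ 3 / 4 + x ^ 5 / 2 + σ * (83 / 64 - 9 * x ^ 2 / 16 - 3 * x ^ 6 / 4)) -
      (9 * x / 4 - 5 * x ^ 3 / 2 + σ * (27 / 16 + 17 * x ^ 4 / 4)) * ν +
      (3 * x - 5 * σ * x ^ 2) * ν ^ 2 := by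
  have hx3 : x ≤ 19 / 25 := by nlinarith
  -- value at `σ = 0`
  have hA : 0 ≤ 1 / 4 - 3 * x ^ 3 / 4 + x ^ 5 / 2 - (9 * x / 4 - 5 * x ^ 3 / 2) * ν +
      3 * x * ν ^ 2 := by
    have h1 : 0 ≤ 3 - x * (9 / 4 - x ^ 2 / 2) ^ 2 := by
      have h2 : (9 / 4 - x ^ 2 / 2) ^ 2 ≤ 3 / x ∨ x = 0 := by
        rcases hx.eq_or_lt with h | h
        · right; exact h.symm
        left
        rw [le_div_iff₀ h]
        nlinarith [mul_nonneg hx (sub_nonneg.2 hx3), pow_nonneg hx 3, pow_nonneg hx 2,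
          mul_nonneg (mul_nonneg hx hx) (sub_nonneg.2 hx3),
          mul_nonneg (pow_nonneg hx 3) (sub_nonneg.2 hx3),
          mul_nonneg (pow_nonneg hx 4) (sub_nonneg.2 hx3),
          sq_nonneg (x - 19 / 25)]
      rcases h2 with h2 | h2
      · rcases hx.eq_or_lt with h | h
        · rw [← h]; norm_num
        · rw [le_div_iff₀ h] at h2; linarith
      · rw [h2]; norm_num
    have h3 : 0 ≤ x * (x ^ 2 + 6 * ν - 3 * (3 / 4 - x ^ 2 / 2)) ^ 2 := by positivity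
    nlinarith
  -- value at `σ = 49 / 300`
  have hB : 0 ≤ (1 / 4 - 3 * x ^ 3 / 4 + x ^ 5 / 2 +
      (49 / 300) * (83 / 64 - 9 * x ^ 2 / 16 - 3 * x ^ 6 / 4)) -
      (9 * x / 4 - 5 * x ^ 3 / 2 + (49 / 300) * (27 / 16 + 17 * x ^ 4 / 4)) * ν +
      (3 * x - 5 * (49 / 300) * x ^ 2) * ν ^ 2 := by
    rcases le_or_gt (1 / 50) x with h | h
    · have hD := disc_pos h hx3
      have hc2 : 0 < 3 * x - 5 * (49 / 300) * x ^ 2 := by nlinarith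
      set c0 := 1 / 4 - 3 * x ^ 3 / 4 + x ^ 5 / 2 +
        (49 / 300) * (83 / 64 - 9 * x ^ 2 / 16 - 3 * x ^ 6 / 4) with hc0
      set c1 := 9 * x / 4 - 5 * x ^ 3 / 2 + (49 / 300) * (27 / 16 + 17 * x ^ 4 / 4) with hc1
      set c2 := 3 * x - 5 * (49 / 300) * x ^ 2 with hc2'
      have hD' : 0 ≤ 4 * c0 * c2 - c1 ^ 2 := by
        refine hD.trans (le_of_eq ?_)
        rw [hc0, hc1, hc2']; ring
      have h5 : 0 ≤ 4 * c2 * (c0 - c1 * ν + c2 * ν ^ 2) := by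
        nlinarith [sq_nonneg (2 * c2 * ν - c1)]
      exact nonneg_of_mul_nonneg_right h5 (by positivity)
    · have hE := lin_pos hx (by linarith : x ≤ 1 / 10)
      have hc1 : 0 ≤ 9 * x / 4 - 5 * x ^ 3 / 2 + (49 / 300) * (27 / 16 + 17 * x ^ 4 / 4) := by
        have : x ^ 3 ≤ x := by nlinarith [mul_nonneg hx hx]
        nlinarith [pow_nonneg hx 4, pow_nonneg hx 3, mul_nonneg hx (by linarith : 0 ≤ 1 / 50 - x)]
      have hc2 : 0 ≤ (3 * x - 5 * (49 / 300) * x ^ 2) * ν ^ 2 := by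
        apply mul_nonneg _ (sq_nonneg _)
        nlinarith
      have h6 := mul_le_mul_of_nonneg_left hνe hc1
      nlinarith
  have h7 : 0 ≤ (49 / 300) * ((1 / 4 - 3 * x ^ 3 / 4 + x ^ 5 / 2 +
      σ * (83 / 64 - 9 * x ^ 2 / 16 - 3 * x ^ 6 / 4)) -
      (9 * x / 4 - 5 * x ^ 3 / 2 + σ * (27 / 16 + 17 * x ^ 4 / 4)) * ν +
      (3 * x - 5 * σ * x ^ 2) * ν ^ 2) := by
    have e1 := mul_nonneg (by linarith : 0 ≤ 49 / 300 - σ) hA
    have e2 := mul_nonneg hσ hB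
    nlinarith
  linarith

/-- Second region: `E` large compared with `s²`. -/
lemma regionII {s a E M m σ : ℝ} (hs : 0 < s) (hsa : s + a = 1) (hE : 4 / 5 * s ^ 2 ≤ E)
    (hβ : s ^ 2 + 2 * E ≤ 1 / 25) (hM : 0 ≤ M) (hME : M ≤ s * E)
    (hm : s * m ≤ s * a * E - a * M + E ^ 2) (hσ : 0 < σ)
    (hσ2 : σ ^ 2 = 2 / 3 * (s ^ 2 + 2 * E)) :
    (s ^ 3 + 3 * M) * (s ^ 3 + 2 * s * E + m) + s ^ 3 * M + 2 * M ^ 2 ≤
      σ ^ 5 / 4 + 83 / 64 * σ ^ 6 := by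
  obtain ⟨x, rfl⟩ : ∃ x, s = x * σ := ⟨s / σ, by field_simp⟩
  have hx : 0 < x := pos_of_mul_pos_left hs hσ.le
  obtain ⟨ν, rfl⟩ : ∃ ν, M = ν * (x * σ ^ 3) := ⟨M / (x * σ ^ 3), by field_simp⟩
  have hEe : E = σ ^ 2 * (3 / 4 - x ^ 2 / 2) := by nlinarith
  have hσ3 : σ ≤ 49 / 300 := by nlinarith
  have hν : 0 ≤ ν := by
    by_contra hcon
    push Not at hcon
    have : 0 < (-ν) * (x * σ ^ 3) := by
      have : 0 < -ν := by linarith
      positivity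
    linarith
  have hνe : ν ≤ 3 / 4 - x ^ 2 / 2 := by
    rw [hEe] at hME
    have h1 : ν * (x * σ ^ 3) ≤ (3 / 4 - x ^ 2 / 2) * (x * σ ^ 3) := by
      calc ν * (x * σ ^ 3) ≤ _ := hME
        _ = _ := by ring
    exact le_of_mul_le_mul_right h1 (by positivity)
  have hx2 : x ^ 2 ≤ 15 / 26 := by
    have h1 : 4 / 5 * (x * σ) ^ 2 ≤ σ ^ 2 * (3 / 4 - x ^ 2 / 2) := by rw [← hEe]; exact hE
    have h2 : (4 / 5 * x ^ 2) * σ ^ 2 ≤ (3 / 4 - x ^ 2 / 2) * σ ^ 2 := by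
      calc (4 / 5 * x ^ 2) * σ ^ 2 = 4 / 5 * (x * σ) ^ 2 := by ring
        _ ≤ _ := h1
        _ = _ := by ring
    have h3 := le_of_mul_le_mul_right h2 (by positivity)
    linarith
  have hH := regionII_H hx.le hx2 hνe hσ.le hσ3
  have ha : a = 1 - x * σ := by linarith
  have h3 : 0 ≤ (x * σ) ^ 3 + 3 * (ν * (x * σ ^ 3)) := by positivity
  have h4 := mul_le_mul_of_nonneg_left hm h3
  have h5 : (x * σ) * (((x * σ) ^ 3 + 3 * (ν * (x * σ ^ 3))) *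
      ((x * σ) ^ 3 + 2 * (x * σ) * E + m) + (x * σ) ^ 3 * (ν * (x * σ ^ 3)) +
      2 * (ν * (x * σ ^ 3)) ^ 2) ≤ (x * σ) * (σ ^ 5 / 4 + 83 / 64 * σ ^ 6) := by
    have h6 := mul_nonneg (by positivity : 0 ≤ x * σ ^ 6) hH
    rw [hEe, ha] at h4
    rw [hEe]
    nlinarith
  exact le_of_mul_le_mul_left h5 (by positivity)

end Pool.Agent.H26.G6
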