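import Mathlib

/-!
Real inequalities used for the subgraph count of `G₆`: first region, scalar part.
-/

namespace Pool.Agent.H26.G6

/-- Homomorphism polynomial of the graphs made of a clique of mass `y`, a dominating clique of
mass `r` and an independent set of mass `b`. -/
def tT (r y b : ℝ) : ℝ :=
  ((r + y) ^ 3 + 2 * b * r ^ 2) * ((r + y) ^ 3 + 2 * (r + y) * b * r + b ^ 2 * r) +
    b * r ^ 3 * (2 * (r + y) ^ 2 + 2 * (r + y) * b + 2 * b * r + b ^ 2)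

/-- Split graph with clique mass `s`, mass `p` of vertices adjacent to all of the clique and
mass `b` of vertices adjacent to a part of the clique of mass `c`. -/
def t2 (s p c b : ℝ) : ℝ :=
  (s ^ 3 + 2 * (p * s ^ 2 + b * c ^ 2)) *
      (s ^ 3 + 2 * s * (p * s + b * c) + (c * (p + b) ^ 2 + (s - c) * p ^ 2)) +
    2 * s ^ 2 * (p * s ^ 3 + b * c ^ 3) +
    2 * s * (p * s ^ 2 * (p * s + b * c) + (p + b) * b * c ^ 3) +
    2 * (s ^ 2 * p * (p * s ^ 2 + b * c ^ 2) + b * c ^ 3 * (p * s + b * c)) +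
    (s ^ 2 * p * (c * (p + b) ^ 2 + (s - c) * p ^ 2) + (p + b) ^ 2 * b * c ^ 3)

/-- The bound obtained by splitting the independent part in two. -/
def B0 (s pU EU QU CU mUU ED QD CD mDD : ℝ) : ℝ :=
  (s ^ 3 + 2 * (QU + QD)) * (s ^ 3 + 2 * s * (EU + ED) + (mUU + 2 * pU * ED + mDD)) +
    2 * s ^ 2 * (CU + CD) + 2 * s * ((EU + ED) * QU + pU * CD + ED * QD) +
    2 * ((QU + QD) * QU + EU * CD + QD ^ 2) +
    ((mUU + 2 * pU * ED + mDD) * QU + pU ^ 2 * CD + 2 * pU * ED * QD + mDD * QD)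

lemma step3 {r y p w y' : ℝ} (hr : 0 ≤ r) (hy : 0 ≤ y) (hp : 0 ≤ p) (hpy : p ≤ 2 * y)
    (hw : 0 ≤ w) (hy' : 0 ≤ y') (h : y' ^ 2 = y ^ 2 + 2 * p * y) :
    t2 (r + y) p r (w - y - p) ≤ tT r y' (w - y') := by
  have h3 : y ^ 3 + 3 * y ^ 2 * p + y * p ^ 2 ≤ y' ^ 3 := by
    have e1 : (y ^ 3 + 3 * y ^ 2 * p + y * p ^ 2) ^ 2 ≤ (y' ^ 3) ^ 2 := by
      have : (y' ^ 3) ^ 2 = (y ^ 2 + 2 * p * y) ^ 3 := by rw [← h]; ring
      rw [this]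
      have e2 : 0 ≤ y ^ 2 * p ^ 2 * (y * p * (2 * y - p) + y ^ 3 + (y ^ 2 * p) * 0) := by
        apply mul_nonneg (by positivity)
        have : 0 ≤ y * p * (2 * y - p) := mul_nonneg (by positivity) (by linarith)
        positivity
      have e3 : (y ^ 2 + 2 * p * y) ^ 3 - (y ^ 3 + 3 * y ^ 2 * p + y * p ^ 2) ^ 2 =
          y ^ 2 * p ^ 2 * (y ^ 2 + 2 * y * p - p ^ 2) := by ring
      have e4 : 0 ≤ y ^ 2 * p ^ 2 * (y ^ 2 + 2 * y * p - p ^ 2) := by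
        apply mul_nonneg (by positivity)
        nlinarith
      linarith
    exact le_of_sq_le_sq e1 (by positivity)
  have h4 : y' ^ 4 = (y ^ 2 + 2 * p * y) ^ 2 := by rw [← h]; ring
  have h5 : (y ^ 2 + 2 * p * y) * (y ^ 3 + 3 * y ^ 2 * p + y * p ^ 2) ≤ y' ^ 5 := by
    have : y' ^ 5 = y' ^ 2 * y' ^ 3 := by ring
    rw [this, h]
    apply mul_le_mul_of_nonneg_left h3 (by positivity)
  have h6 : y' ^ 6 = (y ^ 2 + 2 * p * y) ^ 3 := by rw [← h]; ring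
  have eT : tT r y' (w - y') = y' ^ 6 + 5 * r * y' ^ 5 + r * w ^ 2 * y' ^ 3 +
      8 * r ^ 2 * y' ^ 4 + 4 * r ^ 2 * w * y' ^ 3 + 3 * r ^ 2 * w ^ 2 * y' ^ 2 +
      6 * r ^ 3 * y' ^ 3 + 11 * r ^ 3 * w * y' ^ 2 + 3 * r ^ 3 * w ^ 3 + 6 * r ^ 4 * y' ^ 2 +
      9 * r ^ 4 * w ^ 2 + 6 * r ^ 5 * w + r ^ 6 := by
    unfold tT; ring
  have e2 : t2 (r + y) p r (w - y - p) =
      (y ^ 6 + 6 * p * y ^ 5 + 9 * p ^ 2 * y ^ 4 + 3 * p ^ 3 * y ^ 3) +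
      r * (5 * y ^ 5 + 25 * p * y ^ 4 + 29 * p ^ 2 * y ^ 3 + 6 * p ^ 3 * y ^ 2) +
      r * w ^ 2 * (y ^ 3 + 3 * p * y ^ 2) +
      r ^ 2 * (8 * y ^ 4 + 32 * p * y ^ 3 + 25 * p ^ 2 * y ^ 2 + p ^ 3 * y) +
      r ^ 2 * w * (4 * y ^ 3 + 12 * p * y ^ 2 + 2 * p ^ 2 * y) +
      r ^ 2 * w ^ 2 * (3 * y ^ 2 + 6 * p * y) +
      r ^ 3 * (6 * y ^ 3 + 18 * p * y ^ 2 + 5 * p ^ 2 * y) +
      r ^ 3 * w * (11 * y ^ 2 + 22 * p * y) + 3 * r ^ 3 * w ^ 3 +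
      r ^ 4 * (6 * y ^ 2 + 12 * p * y) + 9 * r ^ 4 * w ^ 2 + 6 * r ^ 5 * w + r ^ 6 := by
    unfold t2; ring
  rw [eT, e2, h6, h4, h]
  have g1 := mul_le_mul_of_nonneg_left h5 (by positivity : 0 ≤ 5 * r)
  have g2 := mul_le_mul_of_nonneg_left h3 (by positivity : 0 ≤ r * w ^ 2)
  have g3 := mul_le_mul_of_nonneg_left h3 (by positivity : 0 ≤ 4 * r ^ 2 * w)
  have g4 := mul_le_mul_of_nonneg_left h3 (by positivity : 0 ≤ 6 * r ^ 3)
  have g5 : 0 ≤ r ^ 2 * (y * p ^ 2 * (2 * y - p)) :=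
    mul_nonneg (by positivity) (mul_nonneg (by positivity) (by linarith))
  have k1 : 0 ≤ 3 * p ^ 2 * y ^ 4 + 5 * p ^ 3 * y ^ 3 := by positivity
  have k2 : 0 ≤ r * (6 * p ^ 2 * y ^ 3 + 4 * p ^ 3 * y ^ 2) := by positivity
  have k3 : 0 ≤ r * w ^ 2 * (y * p ^ 2) := by positivity
  have k4 : 0 ≤ r ^ 2 * w * (2 * y * p ^ 2) := by positivity
  have k5 : 0 ≤ r ^ 3 * (y * p ^ 2) := by positivity
  have k6 : 0 ≤ r ^ 2 * (5 * y ^ 2 * p ^ 2) := by positivity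
  nlinarith


private lemma f1_neg {u d : ℝ} (hu : 0 ≤ u) (hd : 0 ≤ d) (h : u + d ≤ 4 / 5) :
    -28/15 + 5021/1500*d + 124/375*d*u + -1269/500*d*u^2 + -1041/500*d^2 + 423/500*d^3 + 167/500*u + 1337/750*u^2 + -423/250*u^3 ≤ 0 := by
  nlinarith [mul_nonneg hu hd, mul_nonneg hu (sub_nonneg.2 h), mul_nonneg hd (sub_nonneg.2 h),
    mul_nonneg (mul_nonneg hd hd) (sub_nonneg.2 h), mul_nonneg (mul_nonneg hu hd) (sub_nonneg.2 h),
    mul_nonneg (mul_nonneg hu hu) (sub_nonneg.2 h), mul_nonneg (mul_nonneg hu hu) hd, pow_nonneg hu 3, pow_nonneg hd 3,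
    mul_nonneg hu (mul_nonneg hu hu), sq_nonneg (d - 4/5), sq_nonneg (u - 4/5)]

lemma s_le {s e : ℝ} (hs : 0 < s) (he : 0 ≤ e) (he2 : e ≤ 4 / 5) (h : s ^ 2 * (1 + 2 * e) ≤ 1 / 25) :
    s ≤ 1 / 5 - 47 / 500 * e := by
  by_contra hcon
  push Not at hcon
  have h1 : 0 < 1 / 5 - 47 / 500 * e := by linarith
  have h2 : (1 / 5 - 47 / 500 * e) ^ 2 < s ^ 2 := by
    apply pow_lt_pow_left₀ hcon h1.le (by norm_num)
  have h3 : (1 / 5 - 47 / 500 * e) ^ 2 * (1 + 2 * e) < s ^ 2 * (1 + 2 * e) := by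
    apply mul_lt_mul_of_pos_right h2 (by linarith)
  have h4 : 1 / 25 ≤ (1 / 5 - 47 / 500 * e) ^ 2 * (1 + 2 * e) := by
    nlinarith [mul_nonneg he (sub_nonneg.2 he2), mul_nonneg (mul_nonneg he he) (sub_nonneg.2 he2)]
  linarith

/-- scaled form of the inequality behind `step1`. -/
lemma step1_scaled {s P u q d γ w m pD : ℝ} (hs : 0 < s) (hP : 0 ≤ P) (hPu : P ≤ 3 * u)
    (hd : 0 ≤ d) (hγ : 0 ≤ γ) (hpD : pD = 1 - s - P * s) (hγd : pD * γ = d * s)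
    (hud : u + d ≤ 4 / 5) (hβ : s ^ 2 * (1 + 2 * (u + d)) ≤ 1 / 25) (hq : u / 3 ≤ q)
    (hm : m ≤ P * u) (hw : 0 ≤ w) :
    2 * s + 4 * s * (u + d) + 2 * m * s + 6 * P * d * s + 3 * pD * d +
      (2 + 2 * P + 2 * u + P ^ 2) * s * (1 / 3 + 2 * γ) + 2 * s * d + 2 * q * s +
      4 * d * γ * s + 2 * w * s ≤ 3 * pD * (1 + 3 * q + 3 * d * γ + 3 * w) := by
  have hu : 0 ≤ u := by linarith
  have hs1 : s ≤ 1 / 5 - 47 / 500 * (u + d) := s_le hs (by linarith) hud hβ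
  have hpD1 : 4 / 7 ≤ pD := by
    have h1 : s * (1 + 3 * u) ≤ 3 / 7 := by
      by_contra hcon
      push Not at hcon
      have h2 : (3 / 7) ^ 2 < (s * (1 + 3 * u)) ^ 2 := by
        apply pow_lt_pow_left₀ hcon (by norm_num) (by norm_num)
      have h3 : s ^ 2 * (1 + 2 * u) ≤ 1 / 25 := by nlinarith [mul_nonneg (sq_nonneg s) hd]
      have h4 : (1 + 3 * u) ^ 2 ≤ 225 / 49 * (1 + 2 * u) := by nlinarith
      have h5 : s ^ 2 * (1 + 3 * u) ^ 2 ≤ s ^ 2 * (225 / 49 * (1 + 2 * u)) :=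
        mul_le_mul_of_nonneg_left h4 (sq_nonneg s)
      nlinarith
    have h6 : P * s ≤ 3 * u * s := mul_le_mul_of_nonneg_right hPu hs.le
    rw [hpD]; nlinarith
  -- reduction to the extreme values of `q`, `w`, `m`
  have r1 : 0 ≤ (q - u / 3) * (9 * pD - 2 * s) := mul_nonneg (by linarith) (by linarith)
  have r2 : 0 ≤ w * (9 * pD - 2 * s) := mul_nonneg hw (by linarith)
  have r3 : 0 ≤ (P * u - m) * (2 * s) := mul_nonneg (by linarith) (by linarith)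
  -- the terms with `γ`
  have hγ1 : γ ≤ 7 / 4 * (d * s) := by
    have : 4 / 7 * γ ≤ pD * γ := mul_le_mul_of_nonneg_right hpD1 hγ
    linarith
  have hP2 : P ^ 2 ≤ 9 * u ^ 2 := by nlinarith
  have r4 : γ * s * (2 * (2 + 2 * P + 2 * u + P ^ 2) + 4 * d) ≤ 7 / 25 * d * (1 + 9 / 4 * u) := by
    have e1 : 2 * (2 + 2 * P + 2 * u + P ^ 2) + 4 * d ≤ 4 * ((1 + 9 / 4 * u) * (1 + 2 * (u + d))) := by
      nlinarith [mul_nonneg hu hd]
    have e2 : γ * s * (2 * (2 + 2 * P + 2 * u + P ^ 2) + 4 * d) ≤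
        γ * s * (4 * ((1 + 9 / 4 * u) * (1 + 2 * (u + d)))) :=
      mul_le_mul_of_nonneg_left e1 (by positivity)
    have e3 : γ * s * (4 * ((1 + 9 / 4 * u) * (1 + 2 * (u + d)))) ≤
        7 / 4 * (d * s) * s * (4 * ((1 + 9 / 4 * u) * (1 + 2 * (u + d)))) := by
      apply mul_le_mul_of_nonneg_right _ (by positivity)
      apply mul_le_mul_of_nonneg_right hγ1 hs.le
    have e4 : 7 / 4 * (d * s) * s * (4 * ((1 + 9 / 4 * u) * (1 + 2 * (u + d)))) =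
        7 * (d * (1 + 9 / 4 * u)) * (s ^ 2 * (1 + 2 * (u + d))) := by ring
    have e5 : 7 * (d * (1 + 9 / 4 * u)) * (s ^ 2 * (1 + 2 * (u + d))) ≤
        7 * (d * (1 + 9 / 4 * u)) * (1 / 25) := mul_le_mul_of_nonneg_left hβ (by positivity)
    linarith
  have hdd : 3 * pD * (3 * d * γ) = 9 * d ^ 2 * s := by
    calc 3 * pD * (3 * d * γ) = 9 * d * (pD * γ) := by ring
      _ = _ := by rw [hγd]; ring
  -- the main inequality
  have r5 : 2 * s + 4 * s * (u + d) + 2 * (P * u) * s + 6 * P * d * s + 3 * pD * d +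
      (2 + 2 * P + 2 * u + P ^ 2) * s * (1 / 3) + 2 * s * d + 2 * (u / 3) * s +
      7 / 25 * d * (1 + 9 / 4 * u) ≤ 3 * pD * (1 + u) + 9 * d ^ 2 * s := by
    have q1 : 0 ≤ (3 * u - P) * (s * (2 * u + 3 * d + 2 / 3 + (P + 3 * u) / 3 + 3 * (1 + u))) :=
      mul_nonneg (by linarith) (by positivity)
    have q2 : 0 ≤ (1 / 5 - 47 / 500 * (u + d) - s) * (8 / 3 + 6 * d + (4 + 8 / 3 + 2 / 3) * u +
        9 * u ^ 2 + 18 * u * d - 9 * d ^ 2 + 3 * (1 + 3 * u) * (1 + u - d)) := by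
      apply mul_nonneg (by linarith)
      nlinarith [mul_nonneg hu hd, mul_nonneg hu hu]
    have q3 := f1_neg hu hd hud
    rw [hpD]
    nlinarith
  nlinarith

/-- Replacing the lower part by its mean. -/
lemma step1 {s pU EU QU CU mUU pD c v L CD : ℝ} (hs : 0 < s) (hpU : 0 ≤ pU)
    (hsa : s + (pU + pD) = 1) (hEU0 : 0 ≤ EU) (hc : 0 ≤ c) (hpD : 0 ≤ pD)
    (hE : EU + pD * c ≤ 4 / 5 * s ^ 2) (hβ : s ^ 2 + 2 * (EU + pD * c) ≤ 1 / 25)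
    (hEU : s / 3 * pU ≤ EU) (hQU : s / 3 * EU ≤ QU) (hmUU : mUU ≤ pU * EU)
    (hv : 0 ≤ v) (hL : 3 * pD * v ≤ s * L) (hCD : CD ≤ pD * c ^ 3 + (s / 3 + 2 * c) * v) :
    B0 s pU EU QU CU mUU (pD * c) (pD * c ^ 2 + v) CD (pD ^ 2 * c - L) ≤
      B0 s pU EU QU CU mUU (pD * c) (pD * c ^ 2) (pD * c ^ 3) (pD ^ 2 * c) := by
  have hQU0 : 0 ≤ QU := le_trans (by positivity) hQU
  have h1 : B0 s pU EU QU CU mUU (pD * c) (pD * c ^ 2 + v) CD (pD ^ 2 * c - L) ≤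
      B0 s pU EU QU CU mUU (pD * c) (pD * c ^ 2 + v) (pD * c ^ 3 + (s / 3 + 2 * c) * v)
        (pD ^ 2 * c - L) := by
    have := mul_le_mul_of_nonneg_left hCD
      (by positivity : 0 ≤ 2 * s ^ 2 + 2 * s * pU + 2 * EU + pU ^ 2)
    unfold B0
    nlinarith
  have h2 : B0 s pU EU QU CU mUU (pD * c) (pD * c ^ 2 + v) (pD * c ^ 3 + (s / 3 + 2 * c) * v)
        (pD ^ 2 * c - L) - B0 s pU EU QU CU mUU (pD * c) (pD * c ^ 2) (pD * c ^ 3) (pD ^ 2 * c) =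
      v * (2 * s ^ 3 + 4 * s * (EU + pD * c) + 2 * (mUU + 2 * pU * (pD * c) + pD ^ 2 * c) +
        (2 * s ^ 2 + 2 * s * pU + 2 * EU + pU ^ 2) * (s / 3 + 2 * c) + 2 * s * (pD * c) +
        2 * QU + 4 * (pD * c ^ 2) + 2 * v + 2 * pU * (pD * c) + pD ^ 2 * c) -
      L * (s ^ 3 + 2 * (QU + pD * c ^ 2 + v) + QU + pD * c ^ 2 + v) := by
    unfold B0; ring
  have hP0 : 0 ≤ pU / s := by positivity
  have hs2 : 0 < s ^ 2 := by positivity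
  have hs3 : 0 < s ^ 3 := by positivity
  have key := step1_scaled (s := s) (P := pU / s) (u := EU / s ^ 2) (q := QU / s ^ 3)
    (d := pD * c / s ^ 2) (γ := c / s) (w := v / s ^ 3) (m := mUU / s ^ 3) (pD := pD) hs hP0
    (by rw [div_le_iff₀ hs]
        have : 3 * (EU / s ^ 2) * s = 3 * EU / s := by field_simp
        rw [this, le_div_iff₀ hs]; nlinarith)
    (by positivity) (by positivity)
    (by rw [div_mul_cancel₀ _ hs.ne']; linarith)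
    (by field_simp)
    (by rw [← add_div, div_le_iff₀ hs2]; linarith)
    (by rw [← add_div]
        have : s ^ 2 * (1 + 2 * ((EU + pD * c) / s ^ 2)) = s ^ 2 + 2 * (EU + pD * c) := by
          field_simp
        rw [this]; exact hβ)
    (by rw [le_div_iff₀ hs3]
        have : EU / s ^ 2 / 3 * s ^ 3 = s / 3 * EU := by field_simp
        rw [this]; exact hQU)
    (by rw [div_le_iff₀ hs3]
        have : pU / s * (EU / s ^ 2) * s ^ 3 = pU * EU := by field_simp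
        rw [this]; exact hmUU)
    (by positivity)
  have key2 : s * (2 * s ^ 3 + 4 * s * (EU + pD * c) + 2 * (mUU + 2 * pU * (pD * c) + pD ^ 2 * c) +
        (2 * s ^ 2 + 2 * s * pU + 2 * EU + pU ^ 2) * (s / 3 + 2 * c) + 2 * s * (pD * c) +
        2 * QU + 4 * (pD * c ^ 2) + 2 * v + 2 * pU * (pD * c) + pD ^ 2 * c) ≤
      3 * pD * (s ^ 3 + 2 * (QU + pD * c ^ 2 + v) + QU + pD * c ^ 2 + v) := by
    have k := mul_le_mul_of_nonneg_right key hs3.le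
    have e1 : (2 * s + 4 * s * (EU / s ^ 2 + pD * c / s ^ 2) + 2 * (mUU / s ^ 3) * s +
      6 * (pU / s) * (pD * c / s ^ 2) * s + 3 * pD * (pD * c / s ^ 2) +
      (2 + 2 * (pU / s) + 2 * (EU / s ^ 2) + (pU / s) ^ 2) * s * (1 / 3 + 2 * (c / s)) +
      2 * s * (pD * c / s ^ 2) + 2 * (QU / s ^ 3) * s +
      4 * (pD * c / s ^ 2) * (c / s) * s + 2 * (v / s ^ 3) * s) * s ^ 3 =
      s * (2 * s ^ 3 + 4 * s * (EU + pD * c) + 2 * (mUU + 2 * pU * (pD * c) + pD ^ 2 * c) +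
        (2 * s ^ 2 + 2 * s * pU + 2 * EU + pU ^ 2) * (s / 3 + 2 * c) + 2 * s * (pD * c) +
        2 * QU + 4 * (pD * c ^ 2) + 2 * v + 2 * pU * (pD * c) + pD ^ 2 * c) := by
      field_simp; ring
    have e2 : 3 * pD * (1 + 3 * (QU / s ^ 3) + 3 * (pD * c / s ^ 2) * (c / s) +
        3 * (v / s ^ 3)) * s ^ 3 =
        3 * pD * (s ^ 3 + 2 * (QU + pD * c ^ 2 + v) + QU + pD * c ^ 2 + v) := by
      field_simp; ring
    rw [e1, e2] at k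
    exact k
  have h3 : 0 ≤ s ^ 3 + 2 * (QU + pD * c ^ 2 + v) + QU + pD * c ^ 2 + v := by positivity
  have h4 := mul_le_mul_of_nonneg_right hL h3
  have h5 := mul_le_mul_of_nonneg_left key2 hv
  generalize 2 * s ^ 3 + 4 * s * (EU + pD * c) + 2 * (mUU + 2 * pU * (pD * c) + pD ^ 2 * c) +
        (2 * s ^ 2 + 2 * s * pU + 2 * EU + pU ^ 2) * (s / 3 + 2 * c) + 2 * s * (pD * c) +
        2 * QU + 4 * (pD * c ^ 2) + 2 * v + 2 * pU * (pD * c) + pD ^ 2 * c = W at h2 h5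
  generalize s ^ 3 + 2 * (QU + pD * c ^ 2 + v) + QU + pD * c ^ 2 + v = Z at h2 h4 h5
  have h7 : B0 s pU EU QU CU mUU (pD * c) (pD * c ^ 2 + v)
      (pD * c ^ 3 + (s / 3 + 2 * c) * v) (pD ^ 2 * c - L) =
      B0 s pU EU QU CU mUU (pD * c) (pD * c ^ 2) (pD * c ^ 3) (pD ^ 2 * c) +
        (v * W - L * Z) := by linarith
  have h6 : s * (B0 s pU EU QU CU mUU (pD * c) (pD * c ^ 2 + v)
      (pD * c ^ 3 + (s / 3 + 2 * c) * v) (pD ^ 2 * c - L)) ≤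
      s * B0 s pU EU QU CU mUU (pD * c) (pD * c ^ 2) (pD * c ^ 3) (pD ^ 2 * c) := by
    rw [h7]
    have h8 : v * (s * W) - s * L * Z ≤ 0 := by
      have : v * (3 * pD * Z) = 3 * pD * v * Z := by ring
      linarith
    have h9 : s * (B0 s pU EU QU CU mUU (pD * c) (pD * c ^ 2) (pD * c ^ 3) (pD ^ 2 * c) +
        (v * W - L * Z)) =
        s * B0 s pU EU QU CU mUU (pD * c) (pD * c ^ 2) (pD * c ^ 3) (pD ^ 2 * c) +
        (v * (s * W) - s * L * Z) := by ring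
    rw [h9]
    linarith
  exact h1.trans (le_of_mul_le_mul_left h6 hs)


lemma K_scaled {τ δ γ : ℝ} (hτ : 0 ≤ τ) (hδ : 0 ≤ δ) (hγ : 0 ≤ γ) (h4 : 4 * γ ≤ δ)
    (h : τ + δ ≤ 4 / 5) :
    τ * (1 + 3 * (τ + δ * γ) + γ ^ 2 * (4 + τ)) ≤
      (1 / 3 - γ) * (4 + 4 * γ + 6 * (τ + δ) + 2 * (τ + δ * γ)) := by
  have h1 : γ ≤ 1 / 5 - τ / 4 := by linarith
  have h2 : (1 / 3 - γ) * (4 + 8 * τ + 6 * δ) ≤
      (1 / 3 - γ) * (4 + 4 * γ + 6 * (τ + δ) + 2 * (τ + δ * γ)) := by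
    apply mul_le_mul_of_nonneg_left _ (by linarith)
    nlinarith [mul_nonneg hδ hγ]
  have h3 : (2 / 15 + τ / 4) * (4 + 8 * τ) ≤ (1 / 3 - γ) * (4 + 8 * τ + 6 * δ) := by
    have : (2 / 15 + τ / 4) * (4 + 8 * τ) ≤ (1 / 3 - γ) * (4 + 8 * τ) := by
      apply mul_le_mul_of_nonneg_right _ (by linarith)
      linarith
    have : 0 ≤ (1 / 3 - γ) * (6 * δ) := mul_nonneg (by linarith) (by linarith)
    linarith
  have h5 : δ * γ ≤ (4 / 5 - τ) * (1 / 5 - τ / 4) := by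
    apply mul_le_mul (by linarith) h1 hγ (by linarith)
  have h6 : γ ^ 2 ≤ (1 / 5 - τ / 4) ^ 2 := pow_le_pow_left₀ hγ h1 2
  have h7 : γ ^ 2 * (4 + τ) ≤ (1 / 5 - τ / 4) ^ 2 * (4 + τ) :=
    mul_le_mul_of_nonneg_right h6 (by linarith)
  have h8 : τ * (1 + 3 * (τ + δ * γ) + γ ^ 2 * (4 + τ)) ≤
      τ * (1 + 3 * (τ + (4 / 5 - τ) * (1 / 5 - τ / 4)) + (1 / 5 - τ / 4) ^ 2 * (4 + τ)) := by
    apply mul_le_mul_of_nonneg_left _ hτ
    linarith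
  have h9 : τ * (1 + 3 * (τ + (4 / 5 - τ) * (1 / 5 - τ / 4)) + (1 / 5 - τ / 4) ^ 2 * (4 + τ)) ≤
      (2 / 15 + τ / 4) * (4 + 8 * τ) := by
    have : τ ≤ 4 / 5 := by linarith
    nlinarith [mul_nonneg hτ (sub_nonneg.2 this), mul_nonneg (mul_nonneg hτ hτ) (sub_nonneg.2 this),
      pow_nonneg hτ 3, pow_nonneg hτ 2, mul_nonneg (pow_nonneg hτ 3) (sub_nonneg.2 this)]
  linarith

/-- Moving the upper part to the extreme values. -/
lemma step2 {s p c x A pD CU mUU : ℝ} (hs : 0 < s) (hp : 0 ≤ p) (hc : 0 ≤ c) (hx : 0 ≤ x)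
    (hpD : 0 ≤ pD) (h4 : 4 * (s * c) ≤ (pD + x) * c)
    (hE : p * s + (pD + x) * c ≤ 4 / 5 * s ^ 2)
    (hA : (s / 3 - c) * (s - c) * x ≤ A) (hQ : 0 ≤ p * s ^ 2 + x * c ^ 2 - A)
    (hCU : CU ≤ p * s ^ 3 + x * c ^ 3 - (s + 2 * c) * A)
    (hmUU : mUU ≤ (p + x) ^ 2 * c + (s - c) * (p ^ 2 + p * x)) :
    B0 s (p + x) (p * s + x * c) (p * s ^ 2 + x * c ^ 2 - A) CU mUU (pD * c) (pD * c ^ 2)
      (pD * c ^ 3) (pD ^ 2 * c) ≤ t2 s p c (pD + x) := by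
  obtain ⟨τ, rfl⟩ : ∃ τ, p = τ * s := ⟨p / s, by field_simp⟩
  obtain ⟨γ, rfl⟩ : ∃ γ, c = γ * s := ⟨c / s, by field_simp⟩
  obtain ⟨b, hb⟩ : ∃ b, b = pD + x := ⟨_, rfl⟩
  have hs2 : 0 < s ^ 2 := by positivity
  obtain ⟨δ, hδ⟩ : ∃ δ, b * (γ * s) = δ * s ^ 2 := ⟨b * (γ * s) / s ^ 2, by field_simp⟩
  rw [← hb] at h4 hE
  have hb0 : 0 ≤ b := by rw [hb]; linarith
  have hτ : 0 ≤ τ := nonneg_of_mul_nonneg_left hp hs
  have hγ : 0 ≤ γ := nonneg_of_mul_nonneg_left hc hs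
  have hδ0 : 0 ≤ δ := by
    have : 0 ≤ δ * s ^ 2 := by rw [← hδ]; positivity
    exact nonneg_of_mul_nonneg_left this hs2
  have h4' : 4 * γ ≤ δ := by
    have : (4 * γ) * s ^ 2 ≤ δ * s ^ 2 := by rw [← hδ]; linarith
    exact le_of_mul_le_mul_right this hs2
  have hτδ : τ + δ ≤ 4 / 5 := by
    have : (τ + δ) * s ^ 2 ≤ 4 / 5 * s ^ 2 := by linarith
    exact le_of_mul_le_mul_right this hs2
  have hγ5 : γ ≤ 1 / 5 := by linarith
  have hA0 : 0 ≤ A := by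
    refine le_trans ?_ hA
    have e1 : 0 ≤ s / 3 - γ * s := by nlinarith
    have e2 : 0 ≤ s - γ * s := by nlinarith
    positivity
  have hK := K_scaled hτ hδ0 hγ h4' hτδ
  -- the scalar inequality in the original variables
  set R : ℝ := 4 * s ^ 3 + 4 * s ^ 2 * (γ * s) + 6 * s * (τ * s * s + b * (γ * s)) +
    2 * (τ * s * s ^ 2 + b * (γ * s) ^ 2) with hR
  have hK' : (τ * s) * (s ^ 3 + 3 * (τ * s * s ^ 2 + b * (γ * s) ^ 2) +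
      (γ * s) ^ 2 * (4 * s + τ * s)) ≤ (s / 3 - γ * s) * R := by
    have k := mul_le_mul_of_nonneg_right hK (by positivity : 0 ≤ s ^ 4)
    have e1 : b * (γ * s) ^ 2 = δ * s ^ 2 * (γ * s) := by rw [← hδ]; ring
    have e2 : R = 4 * s ^ 3 + 4 * s ^ 2 * (γ * s) + 6 * s * (τ * s * s + δ * s ^ 2) +
        2 * (τ * s * s ^ 2 + δ * s ^ 2 * (γ * s)) := by rw [hR, e1, hδ]
    rw [e1, e2]
    nlinarith
  have hR0 : 0 ≤ R := by rw [hR]; positivity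
  -- monotonicity in `CU` and `mUU`
  have h1 : B0 s (τ * s + x) (τ * s * s + x * (γ * s)) (τ * s * s ^ 2 + x * (γ * s) ^ 2 - A) CU
      mUU (pD * (γ * s)) (pD * (γ * s) ^ 2) (pD * (γ * s) ^ 3) (pD ^ 2 * (γ * s)) ≤
      B0 s (τ * s + x) (τ * s * s + x * (γ * s)) (τ * s * s ^ 2 + x * (γ * s) ^ 2 - A)
      (τ * s * s ^ 3 + x * (γ * s) ^ 3 - (s + 2 * (γ * s)) * A)
      ((τ * s + x) ^ 2 * (γ * s) + (s - γ * s) * ((τ * s) ^ 2 + τ * s * x))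
      (pD * (γ * s)) (pD * (γ * s) ^ 2) (pD * (γ * s) ^ 3) (pD ^ 2 * (γ * s)) := by
    have m1 := mul_le_mul_of_nonneg_left hCU (by positivity : 0 ≤ 2 * s ^ 2)
    have m2 := mul_le_mul_of_nonneg_left hmUU
      (by positivity : 0 ≤ s ^ 3 + 2 * ((τ * s * s ^ 2 + x * (γ * s) ^ 2 - A) +
        pD * (γ * s) ^ 2) + (τ * s * s ^ 2 + x * (γ * s) ^ 2 - A))
    generalize (τ * s * s ^ 2 + x * (γ * s) ^ 2 - A) = QU at m1 m2 ⊢
    unfold B0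
    generalize (τ * s * s ^ 3 + x * (γ * s) ^ 3 - (s + 2 * (γ * s)) * A) = CU' at m1 m2 ⊢
    generalize ((τ * s + x) ^ 2 * (γ * s) + (s - γ * s) * ((τ * s) ^ 2 + τ * s * x)) = mUU' at m1 m2 ⊢
    generalize pD * (γ * s) ^ 2 = QD at m1 m2 ⊢
    generalize τ * s * s + x * (γ * s) = EU at m1 m2 ⊢
    generalize pD * (γ * s) ^ 3 = CD at m1 m2 ⊢
    generalize pD ^ 2 * (γ * s) = mDD at m1 m2 ⊢
    generalize pD * (γ * s) = ED at m1 m2 ⊢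
    linarith
  refine h1.trans ?_
  have h2 : B0 s (τ * s + x) (τ * s * s + x * (γ * s)) (τ * s * s ^ 2 + x * (γ * s) ^ 2 - A)
      (τ * s * s ^ 3 + x * (γ * s) ^ 3 - (s + 2 * (γ * s)) * A)
      ((τ * s + x) ^ 2 * (γ * s) + (s - γ * s) * ((τ * s) ^ 2 + τ * s * x))
      (pD * (γ * s)) (pD * (γ * s) ^ 2) (pD * (γ * s) ^ 3) (pD ^ 2 * (γ * s)) -
      t2 s (τ * s) (γ * s) (pD + x) =
      -A * (4 * s ^ 3 + 4 * s ^ 2 * (γ * s) + 6 * s * (τ * s * s + (pD + x) * (γ * s)) +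
        2 * (τ * s * s ^ 2 + (pD + x) * (γ * s) ^ 2) +
        2 * (τ * s * s ^ 2 + x * (γ * s) ^ 2 - A) +
        3 * ((γ * s) * (τ * s + (pD + x)) ^ 2 + (s - γ * s) * (τ * s) ^ 2)) +
      (s - γ * s) * (τ * s) * x * (s ^ 3 + (τ * s * s ^ 2 + x * (γ * s) ^ 2 - A) +
        2 * (τ * s * s ^ 2 + (pD + x) * (γ * s) ^ 2 - A)) +
      x * (γ * s) ^ 2 * (τ * s) * (s - γ * s) * (4 * s + τ * s) := by
    unfold B0 t2; ring
  have e2 : 0 ≤ s - γ * s := by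
    have : γ * s ≤ 1 / 5 * s := mul_le_mul_of_nonneg_right hγ5 hs.le
    linarith
  have h3 : 0 ≤ A * (2 * (τ * s * s ^ 2 + x * (γ * s) ^ 2 - A) +
      3 * ((γ * s) * (τ * s + b) ^ 2 + (s - γ * s) * (τ * s) ^ 2)) := by
    apply mul_nonneg hA0
    have : 0 ≤ (s - γ * s) * (τ * s) ^ 2 := mul_nonneg e2 (sq_nonneg _)
    positivity
  have h5 : 0 ≤ (s - γ * s) * (τ * s) * x * (pD * (γ * s) ^ 2 + 3 * A) := by positivity
  have h6 := mul_le_mul_of_nonneg_left hK' (mul_nonneg e2 hx)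
  have h7 := mul_le_mul_of_nonneg_right hA hR0
  rw [← hb] at h2
  rw [← hb, ← sub_nonpos, h2]
  have h8 : b * (γ * s) ^ 2 = pD * (γ * s) ^ 2 + x * (γ * s) ^ 2 := by rw [hb]; ring
  have h9 : (s - γ * s) * x * ((s / 3 - γ * s) * R) = (s / 3 - γ * s) * (s - γ * s) * x * R := by
    ring
  rw [h9] at h6
  have h10 : -A * (4 * s ^ 3 + 4 * s ^ 2 * (γ * s) + 6 * s * (τ * s * s + b * (γ * s)) +
        2 * (τ * s * s ^ 2 + b * (γ * s) ^ 2) +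
        2 * (τ * s * s ^ 2 + x * (γ * s) ^ 2 - A) +
        3 * ((γ * s) * (τ * s + b) ^ 2 + (s - γ * s) * (τ * s) ^ 2)) = -(A * R) -
      A * (2 * (τ * s * s ^ 2 + x * (γ * s) ^ 2 - A) +
      3 * ((γ * s) * (τ * s + b) ^ 2 + (s - γ * s) * (τ * s) ^ 2)) := by rw [hR]; ring
  have h11 : (s - γ * s) * (τ * s) * x * (s ^ 3 + (τ * s * s ^ 2 + x * (γ * s) ^ 2 - A) +
        2 * (τ * s * s ^ 2 + b * (γ * s) ^ 2 - A)) +
      x * (γ * s) ^ 2 * (τ * s) * (s - γ * s) * (4 * s + τ * s) =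
      (s - γ * s) * x * (τ * s * (s ^ 3 + 3 * (τ * s * s ^ 2 + b * (γ * s) ^ 2) +
      (γ * s) ^ 2 * (4 * s + τ * s))) -
      (s - γ * s) * (τ * s) * x * (pD * (γ * s) ^ 2 + 3 * A) := by
    rw [h8]; ring
  linarith

end Pool.Agent.H26.G6
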