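import Mathlib
import Pool.Agent.H26.G6Ineq
import Pool.Agent.H26.G6Ineq2
import Pool.Agent.H26.G6Ineq3

/-!
Bounds for the functional describing the copies of `G₆` in a split graph with nested
neighbourhoods.
-/

namespace Pool.Agent.H26.G6

open Finset

variable {ι : Type*} [Fintype ι]

/-- Upper bound for the (normalised) number of homomorphisms of `G₆` into a split graph with clique
mass `s`, whose other vertices have mass `h` each and (normalised) degrees `κ i`. -/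
noncomputable def tK (h s : ℝ) (κ : ι → ℝ) : ℝ :=
  (s ^ 3 + 2 * (h * ∑ i, κ i ^ 2)) *
      (s ^ 3 + 2 * s * (h * ∑ i, κ i) + h ^ 2 * ∑ i, ∑ j, min (κ i) (κ j)) +
    2 * s ^ 2 * (h * ∑ i, κ i ^ 3) +
    2 * s * (h ^ 2 * ∑ i, ∑ j, κ i ^ 2 * min (κ i) (κ j)) +
    2 * (h ^ 2 * ∑ i, ∑ j, κ i ^ 2 * (κ j * min (κ i) (κ j))) +
    h ^ 3 * ∑ i, ∑ j, ∑ l, κ i ^ 2 * min (κ i) (min (κ j) (κ l))

/-- crude bound. -/
lemma tK_le_F {h s : ℝ} {κ : ι → ℝ} (hh : 0 ≤ h) (hs : 0 ≤ s) (h0 : ∀ i, 0 ≤ κ i)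
    (h1 : ∀ i, κ i ≤ s) :
    tK h s κ ≤ (s ^ 3 + 3 * (h * ∑ i, κ i ^ 2)) *
      (s ^ 3 + 2 * s * (h * ∑ i, κ i) + h ^ 2 * ∑ i, ∑ j, min (κ i) (κ j)) +
      s ^ 3 * (h * ∑ i, κ i ^ 2) + 2 * (h * ∑ i, κ i ^ 2) ^ 2 := by
  have e1 : h * ∑ i, κ i ^ 3 ≤ s * (h * ∑ i, κ i ^ 2) := by
    have : ∑ i, κ i ^ 3 ≤ s * ∑ i, κ i ^ 2 := by
      rw [mul_sum]
      apply sum_le_sum
      intro i _
      calc κ i ^ 3 = κ i * κ i ^ 2 := by ring
        _ ≤ s * κ i ^ 2 := mul_le_mul_of_nonneg_right (h1 i) (sq_nonneg _)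
    calc h * ∑ i, κ i ^ 3 ≤ h * (s * ∑ i, κ i ^ 2) := mul_le_mul_of_nonneg_left this hh
      _ = _ := by ring
  have e2 : h ^ 2 * ∑ i, ∑ j, κ i ^ 2 * min (κ i) (κ j) ≤
      (h * ∑ i, κ i ^ 2) * (h * ∑ i, κ i) := by
    have : ∑ i, ∑ j, κ i ^ 2 * min (κ i) (κ j) ≤ (∑ i, κ i ^ 2) * ∑ i, κ i := by
      rw [sum_mul_sum]
      apply sum_le_sum
      intro i _
      apply sum_le_sum
      intro j _
      exact mul_le_mul_of_nonneg_left (min_le_right _ _) (sq_nonneg _)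
    calc h ^ 2 * ∑ i, ∑ j, κ i ^ 2 * min (κ i) (κ j) ≤
        h ^ 2 * ((∑ i, κ i ^ 2) * ∑ i, κ i) := mul_le_mul_of_nonneg_left this (by positivity)
      _ = _ := by ring
  have e3 : h ^ 2 * ∑ i, ∑ j, κ i ^ 2 * (κ j * min (κ i) (κ j)) ≤
      (h * ∑ i, κ i ^ 2) ^ 2 := by
    have : ∑ i, ∑ j, κ i ^ 2 * (κ j * min (κ i) (κ j)) ≤ (∑ i, κ i ^ 2) * ∑ i, κ i ^ 2 := by
      rw [sum_mul_sum]
      apply sum_le_sum
      intro i _
      apply sum_le_sum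
      intro j _
      apply mul_le_mul_of_nonneg_left _ (sq_nonneg _)
      calc κ j * min (κ i) (κ j) ≤ κ j * κ j := mul_le_mul_of_nonneg_left (min_le_right _ _) (h0 j)
        _ = _ := by ring
    calc h ^ 2 * ∑ i, ∑ j, κ i ^ 2 * (κ j * min (κ i) (κ j)) ≤
        h ^ 2 * ((∑ i, κ i ^ 2) * ∑ i, κ i ^ 2) := mul_le_mul_of_nonneg_left this (by positivity)
      _ = _ := by ring
  have e4 : h ^ 3 * ∑ i, ∑ j, ∑ l, κ i ^ 2 * min (κ i) (min (κ j) (κ l)) ≤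
      (h * ∑ i, κ i ^ 2) * (h ^ 2 * ∑ i, ∑ j, min (κ i) (κ j)) := by
    have : ∑ i, ∑ j, ∑ l, κ i ^ 2 * min (κ i) (min (κ j) (κ l)) ≤
        (∑ i, κ i ^ 2) * ∑ i, ∑ j, min (κ i) (κ j) := by
      rw [sum_mul]
      apply sum_le_sum
      intro i _
      rw [mul_sum]
      apply sum_le_sum
      intro j _
      rw [mul_sum]
      apply sum_le_sum
      intro l _
      exact mul_le_mul_of_nonneg_left (min_le_right _ _) (sq_nonneg _)
    calc h ^ 3 * ∑ i, ∑ j, ∑ l, κ i ^ 2 * min (κ i) (min (κ j) (κ l)) ≤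
        h ^ 3 * ((∑ i, κ i ^ 2) * ∑ i, ∑ j, min (κ i) (κ j)) :=
          mul_le_mul_of_nonneg_left this (by positivity)
      _ = _ := by ring
  unfold tK
  have f1 := mul_le_mul_of_nonneg_left e1 (by positivity : 0 ≤ 2 * s ^ 2)
  have f2 := mul_le_mul_of_nonneg_left e2 (by positivity : 0 ≤ 2 * s)
  generalize h * ∑ i, κ i ^ 2 = M at *
  generalize h * ∑ i, κ i ^ 3 = M3 at *
  generalize h * ∑ i, κ i = E at *
  generalize h ^ 2 * ∑ i, ∑ j, κ i ^ 2 * min (κ i) (κ j) = g at *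
  generalize h ^ 2 * ∑ i, ∑ j, κ i ^ 2 * (κ j * min (κ i) (κ j)) = f at *
  generalize h ^ 2 * ∑ i, ∑ j, min (κ i) (κ j) = m at *
  nlinarith

/-- bound for the number of pairs. -/
lemma m2_le {h s : ℝ} {κ : ι → ℝ} (h0 : ∀ i, 0 ≤ κ i)
    (h1 : ∀ i, κ i ≤ s) :
    s * (h ^ 2 * ∑ i, ∑ j, min (κ i) (κ j)) ≤
      s * (h * (Fintype.card ι : ℝ)) * (h * ∑ i, κ i) - (h * (Fintype.card ι : ℝ)) *
        (h * ∑ i, κ i ^ 2) + (h * ∑ i, κ i) ^ 2 := by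
  have key : s * ∑ i, ∑ j, min (κ i) (κ j) ≤
      ∑ i, ∑ j, ((s * κ i + s * κ j - κ i ^ 2 - κ j ^ 2) / 2 + κ i * κ j) := by
    rw [mul_sum]
    apply sum_le_sum
    intro i _
    rw [mul_sum]
    apply sum_le_sum
    intro j _
    have hi := h0 i
    have hj := h0 j
    have hi1 := h1 i
    have hj1 := h1 j
    rcases le_total (κ i) (κ j) with h | h
    · rw [min_eq_left h]; nlinarith
    · rw [min_eq_right h]; nlinarith
  have e : ∑ i, ∑ j, ((s * κ i + s * κ j - κ i ^ 2 - κ j ^ 2) / 2 + κ i * κ j) =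
      (Fintype.card ι : ℝ) * (s * ∑ i, κ i - ∑ i, κ i ^ 2) + (∑ i, κ i) ^ 2 := by
    have e1 : ∑ i, ∑ j, κ i * κ j = (∑ i, κ i) ^ 2 := by
      rw [sq, sum_mul_sum]
    have e2 : ∀ i, ∑ j, ((s * κ i + s * κ j - κ i ^ 2 - κ j ^ 2) / 2 + κ i * κ j) =
        (Fintype.card ι : ℝ) * ((s * κ i - κ i ^ 2) / 2) + (s * ∑ j, κ j - ∑ j, κ j ^ 2) / 2 +
          ∑ j, κ i * κ j := by
      intro i
      rw [sum_add_distrib]
      congr 1
      rw [← sum_div]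
      have : ∑ j, (s * κ i + s * κ j - κ i ^ 2 - κ j ^ 2) =
          (Fintype.card ι : ℝ) * (s * κ i - κ i ^ 2) + (s * ∑ j, κ j - ∑ j, κ j ^ 2) := by
        simp only [sum_sub_distrib, sum_add_distrib, sum_const, card_univ, nsmul_eq_mul, mul_sum]
        ring
      rw [this]; ring
    rw [sum_congr rfl (fun i _ => e2 i), sum_add_distrib, sum_add_distrib, e1, ← mul_sum,
      sum_const, card_univ, nsmul_eq_mul, ← sum_div, sum_sub_distrib, ← mul_sum]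
    ring
  rw [e] at key
  have := mul_le_mul_of_nonneg_left key (sq_nonneg h)
  nlinarith

/-- Splitting the independent part in two. -/
lemma tK_le_B0 {h s : ℝ} {κ : ι → ℝ} (hh : 0 ≤ h) (hs : 0 ≤ s) (h0 : ∀ i, 0 ≤ κ i)
    {U D : Finset ι}
    (hUD : ∀ f : ι → ℝ, ∑ i, f i = ∑ i ∈ U, f i + ∑ i ∈ D, f i) :
    tK h s κ ≤ B0 s (h * U.card) (h * ∑ i ∈ U, κ i) (h * ∑ i ∈ U, κ i ^ 2)
      (h * ∑ i ∈ U, κ i ^ 3) (h ^ 2 * ∑ i ∈ U, ∑ j ∈ U, min (κ i) (κ j))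
      (h * ∑ i ∈ D, κ i) (h * ∑ i ∈ D, κ i ^ 2) (h * ∑ i ∈ D, κ i ^ 3)
      (h ^ 2 * ∑ i ∈ D, ∑ j ∈ D, min (κ i) (κ j)) := by
  have hE := hUD κ
  have hM := hUD (fun i => κ i ^ 2)
  have hC := hUD (fun i => κ i ^ 3)
  -- pairs
  have hφ : ∀ i, ∑ j, min (κ i) (κ j) ≤ (U.card : ℝ) * κ i + ∑ j ∈ D, κ j := by
    intro i
    rw [hUD]
    apply add_le_add
    · calc ∑ j ∈ U, min (κ i) (κ j) ≤ ∑ _j ∈ U, κ i := sum_le_sum fun j _ => min_le_left _ _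
        _ = _ := by rw [sum_const, nsmul_eq_mul]
    · exact sum_le_sum fun j _ => min_le_right _ _
  have hφ' : ∀ i, ∑ j, min (κ i) (κ j) ≤ ∑ j, κ j := fun i =>
    sum_le_sum fun j _ => min_le_right _ _
  have hm2 : ∑ i, ∑ j, min (κ i) (κ j) ≤ ∑ i ∈ U, ∑ j ∈ U, min (κ i) (κ j) +
      2 * ((U.card : ℝ) * ∑ j ∈ D, κ j) + ∑ i ∈ D, ∑ j ∈ D, min (κ i) (κ j) := by
    rw [hUD]
    have e1 : ∑ i ∈ U, ∑ j, min (κ i) (κ j) ≤ ∑ i ∈ U, ∑ j ∈ U, min (κ i) (κ j) +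
        (U.card : ℝ) * ∑ j ∈ D, κ j := by
      have : (U.card : ℝ) * ∑ j ∈ D, κ j = ∑ _i ∈ U, ∑ j ∈ D, κ j := by
        rw [sum_const, nsmul_eq_mul]
      rw [this, ← sum_add_distrib]
      apply sum_le_sum
      intro i _
      rw [hUD]
      gcongr
      exact min_le_right _ _
    have e2 : ∑ i ∈ D, ∑ j, min (κ i) (κ j) ≤ (U.card : ℝ) * ∑ j ∈ D, κ j +
        ∑ i ∈ D, ∑ j ∈ D, min (κ i) (κ j) := by
      rw [mul_sum, ← sum_add_distrib]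
      apply sum_le_sum
      intro i _
      rw [hUD]
      gcongr
      calc ∑ j ∈ U, min (κ i) (κ j) ≤ ∑ _j ∈ U, κ i := sum_le_sum fun j _ => min_le_left _ _
        _ = _ := by rw [sum_const, nsmul_eq_mul]
    linarith
  have hg : ∑ i, ∑ j, κ i ^ 2 * min (κ i) (κ j) ≤
      (∑ i ∈ U, κ i + ∑ i ∈ D, κ i) * ∑ i ∈ U, κ i ^ 2 +
        ((U.card : ℝ) * ∑ i ∈ D, κ i ^ 3 + (∑ i ∈ D, κ i) * ∑ i ∈ D, κ i ^ 2) := by
    rw [hUD]
    apply add_le_add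
    · rw [mul_comm, sum_mul]
      apply sum_le_sum
      intro i _
      rw [← mul_sum, ← hE]
      exact mul_le_mul_of_nonneg_left (hφ' i) (sq_nonneg _)
    · rw [mul_sum, mul_sum, ← sum_add_distrib]
      apply sum_le_sum
      intro i _
      rw [← mul_sum]
      have := mul_le_mul_of_nonneg_left (hφ i) (sq_nonneg (κ i))
      nlinarith
  have hf : ∑ i, ∑ j, κ i ^ 2 * (κ j * min (κ i) (κ j)) ≤
      (∑ i ∈ U, κ i ^ 2 + ∑ i ∈ D, κ i ^ 2) * ∑ i ∈ U, κ i ^ 2 +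
        ((∑ i ∈ U, κ i) * ∑ i ∈ D, κ i ^ 3 + (∑ i ∈ D, κ i ^ 2) * ∑ i ∈ D, κ i ^ 2) := by
    rw [hUD]
    apply add_le_add
    · rw [mul_comm, sum_mul]
      apply sum_le_sum
      intro i _
      rw [← mul_sum, ← hM]
      apply mul_le_mul_of_nonneg_left _ (sq_nonneg _)
      apply sum_le_sum
      intro j _
      calc κ j * min (κ i) (κ j) ≤ κ j * κ j := mul_le_mul_of_nonneg_left (min_le_right _ _) (h0 j)
        _ = _ := by ring
    · rw [mul_sum, mul_sum, ← sum_add_distrib]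
      apply sum_le_sum
      intro i _
      rw [← mul_sum]
      have : ∑ j, κ j * min (κ i) (κ j) ≤ (∑ j ∈ U, κ j) * κ i + ∑ j ∈ D, κ j ^ 2 := by
        rw [hUD]
        apply add_le_add
        · rw [sum_mul]
          apply sum_le_sum
          intro j _
          exact mul_le_mul_of_nonneg_left (min_le_left _ _) (h0 j)
        · apply sum_le_sum
          intro j _
          calc κ j * min (κ i) (κ j) ≤ κ j * κ j :=
                mul_le_mul_of_nonneg_left (min_le_right _ _) (h0 j)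
            _ = _ := by ring
      have := mul_le_mul_of_nonneg_left this (sq_nonneg (κ i))
      nlinarith
  have hh3 : ∑ i, ∑ j, ∑ l, κ i ^ 2 * min (κ i) (min (κ j) (κ l)) ≤
      (∑ i ∈ U, ∑ j ∈ U, min (κ i) (κ j) + 2 * ((U.card : ℝ) * ∑ j ∈ D, κ j) +
        ∑ i ∈ D, ∑ j ∈ D, min (κ i) (κ j)) * (∑ i ∈ U, κ i ^ 2) +
        ((U.card : ℝ) ^ 2 * (∑ i ∈ D, κ i ^ 3) + 2 * ((U.card : ℝ) * ∑ j ∈ D, κ j) *
          (∑ i ∈ D, κ i ^ 2) + (∑ i ∈ D, ∑ j ∈ D, min (κ i) (κ j)) * (∑ i ∈ D, κ i ^ 2)) := by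
    rw [hUD]
    apply add_le_add
    · rw [mul_comm, sum_mul]
      apply sum_le_sum
      intro i _
      rw [← sum_congr rfl (fun j _ => mul_sum univ (fun l => min (κ i) (min (κ j) (κ l))) (κ i ^ 2)),
        ← mul_sum]
      apply mul_le_mul_of_nonneg_left _ (sq_nonneg _)
      refine le_trans ?_ hm2
      apply sum_le_sum
      intro j _
      apply sum_le_sum
      intro l _
      exact min_le_right _ _
    · have eR : (U.card : ℝ) ^ 2 * (∑ i ∈ D, κ i ^ 3) + 2 * ((U.card : ℝ) * ∑ j ∈ D, κ j) *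
          (∑ i ∈ D, κ i ^ 2) + (∑ i ∈ D, ∑ j ∈ D, min (κ i) (κ j)) * (∑ i ∈ D, κ i ^ 2) =
          ∑ i ∈ D, ((U.card : ℝ) ^ 2 * κ i ^ 3 + 2 * ((U.card : ℝ) * ∑ j ∈ D, κ j) * κ i ^ 2 +
            (∑ i ∈ D, ∑ j ∈ D, min (κ i) (κ j)) * κ i ^ 2) := by
        rw [sum_add_distrib, sum_add_distrib, ← mul_sum, ← mul_sum, ← mul_sum]
      rw [eR]
      apply sum_le_sum
      intro i _
      rw [← sum_congr rfl (fun j _ => mul_sum univ (fun l => min (κ i) (min (κ j) (κ l))) (κ i ^ 2)),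
        ← mul_sum]
      have k1 : ∑ j ∈ U, ∑ l, min (κ i) (min (κ j) (κ l)) ≤
          (U.card : ℝ) * ((U.card : ℝ) * κ i + ∑ l ∈ D, κ l) := by
        rw [← nsmul_eq_mul, ← sum_const]
        apply sum_le_sum
        intro j _
        refine le_trans ?_ (hφ i)
        apply sum_le_sum
        intro l _
        exact min_le_min le_rfl (min_le_right _ _)
      have k2 : ∑ j ∈ D, ∑ l, min (κ i) (min (κ j) (κ l)) ≤
          (U.card : ℝ) * ∑ j ∈ D, κ j + ∑ i ∈ D, ∑ j ∈ D, min (κ i) (κ j) := by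
        rw [mul_sum, ← sum_add_distrib]
        apply sum_le_sum
        intro j _
        rw [hUD]
        apply add_le_add
        · rw [← nsmul_eq_mul, ← sum_const]
          apply sum_le_sum
          intro l _
          exact (min_le_right _ _).trans (min_le_left _ _)
        · apply sum_le_sum
          intro l _
          exact min_le_right _ _
      have k3 : ∑ j, ∑ l, min (κ i) (min (κ j) (κ l)) ≤
          (U.card : ℝ) ^ 2 * κ i + 2 * ((U.card : ℝ) * ∑ j ∈ D, κ j) +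
            ∑ i ∈ D, ∑ j ∈ D, min (κ i) (κ j) := by
        rw [hUD]; nlinarith
      have := mul_le_mul_of_nonneg_left k3 (sq_nonneg (κ i))
      nlinarith
  have hQU0 : 0 ≤ ∑ i ∈ U, κ i ^ 2 := sum_nonneg fun i _ => sq_nonneg _
  have hQD0 : 0 ≤ ∑ i ∈ D, κ i ^ 2 := sum_nonneg fun i _ => sq_nonneg _
  have t1 := mul_le_mul_of_nonneg_left hm2 (by positivity : 0 ≤ h ^ 2 *
    (s ^ 3 + 2 * (h * (∑ i ∈ U, κ i ^ 2 + ∑ i ∈ D, κ i ^ 2))))
  have t2 := mul_le_mul_of_nonneg_left hg (by positivity : 0 ≤ 2 * s * h ^ 2)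
  have t3 := mul_le_mul_of_nonneg_left hf (by positivity : 0 ≤ 2 * h ^ 2)
  have t4 := mul_le_mul_of_nonneg_left hh3 (by positivity : 0 ≤ h ^ 3)
  unfold tK
  rw [hE, hM, hC]
  unfold B0
  generalize ∑ i ∈ U, κ i ^ 2 = QU at *
  generalize ∑ i ∈ D, κ i ^ 2 = QD at *
  generalize ∑ i ∈ U, κ i ^ 3 = CU at *
  generalize ∑ i ∈ D, κ i ^ 3 = CD at *
  generalize ∑ i ∈ U, ∑ j ∈ U, min (κ i) (κ j) = mUU at *
  generalize ∑ i ∈ D, ∑ j ∈ D, min (κ i) (κ j) = mDD at *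
  generalize ∑ i, ∑ j, min (κ i) (κ j) = m2 at *
  generalize ∑ i ∈ U, κ i = EU at *
  generalize ∑ i ∈ D, κ i = ED at *
  generalize ∑ i, ∑ j, κ i ^ 2 * min (κ i) (κ j) = g at *
  generalize ∑ i, ∑ j, κ i ^ 2 * (κ j * min (κ i) (κ j)) = f at *
  generalize ∑ i, ∑ j, ∑ l, κ i ^ 2 * min (κ i) (min (κ j) (κ l)) = h3 at *
  generalize (U.card : ℝ) = u at *
  nlinarith

end Pool.Agent.H26.G6
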