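import Mathlib
import Pool.Agent.H26.G6Sum

/-!
The main inequality for the functional describing the copies of `G₆` in a split graph.
-/

namespace Pool.Agent.H26.G6

open Finset

variable {ι : Type*}

/-- Moments of a function on a finite set, compared with the constant function. -/
lemma mean_facts {h s c : ℝ} {κ : ι → ℝ} {D : Finset ι} (hh : 0 ≤ h)
    (h0 : ∀ i ∈ D, 0 ≤ κ i) (h1 : ∀ i ∈ D, κ i ≤ s / 3)
    (hc : h * (D.card : ℝ) * c = h * ∑ i ∈ D, κ i) :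
    0 ≤ h * ∑ i ∈ D, κ i ^ 2 - h * (D.card : ℝ) * c ^ 2 ∧
    h * ∑ i ∈ D, κ i ^ 3 ≤ h * (D.card : ℝ) * c ^ 3 +
      (s / 3 + 2 * c) * (h * ∑ i ∈ D, κ i ^ 2 - h * (D.card : ℝ) * c ^ 2) ∧
    3 * (h * (D.card : ℝ)) * (h * ∑ i ∈ D, κ i ^ 2 - h * (D.card : ℝ) * c ^ 2) ≤
      s * ((h * (D.card : ℝ)) ^ 2 * c - h ^ 2 * ∑ i ∈ D, ∑ j ∈ D, min (κ i) (κ j)) := by
  have e1 : h * ∑ i ∈ D, (κ i - c) ^ 2 = h * ∑ i ∈ D, κ i ^ 2 - h * (D.card : ℝ) * c ^ 2 := by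
    have : ∑ i ∈ D, (κ i - c) ^ 2 = ∑ i ∈ D, κ i ^ 2 - 2 * c * ∑ i ∈ D, κ i +
        (D.card : ℝ) * c ^ 2 := by
      rw [mul_sum, ← sum_sub_distrib, ← nsmul_eq_mul, ← sum_const, ← sum_add_distrib]
      apply sum_congr rfl
      intro i _
      ring
    rw [this]
    linear_combination (2 * c) * hc
  refine ⟨?_, ?_, ?_⟩
  · rw [← e1]
    exact mul_nonneg hh (sum_nonneg fun i _ => sq_nonneg _)
  · have e2 : h * ∑ i ∈ D, κ i ^ 3 = h * (D.card : ℝ) * c ^ 3 +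
        h * ∑ i ∈ D, (κ i - c) ^ 2 * (κ i + 2 * c) := by
      have : ∑ i ∈ D, κ i ^ 3 = ∑ i ∈ D, (κ i - c) ^ 2 * (κ i + 2 * c) +
          3 * c ^ 2 * ∑ i ∈ D, κ i - (D.card : ℝ) * (2 * c ^ 3) := by
        rw [mul_sum, ← sum_add_distrib, ← nsmul_eq_mul, ← sum_const, ← sum_sub_distrib]
        apply sum_congr rfl
        intro i _
        ring
      rw [this]
      linear_combination (-3 * c ^ 2) * hc
    rw [e2, ← e1]
    have : ∑ i ∈ D, (κ i - c) ^ 2 * (κ i + 2 * c) ≤ (s / 3 + 2 * c) * ∑ i ∈ D, (κ i - c) ^ 2 := by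
      rw [mul_sum]
      apply sum_le_sum
      intro i hi
      have := mul_le_mul_of_nonneg_left (h1 i hi) (sq_nonneg (κ i - c))
      nlinarith
    have := mul_le_mul_of_nonneg_left this hh
    linarith
  · have key : 0 ≤ ∑ i ∈ D, ∑ j ∈ D, (s / 3 * ((κ i + κ j) / 2 - min (κ i) (κ j)) -
        ((κ i ^ 2 + κ j ^ 2) / 2 - κ i * κ j)) := by
      apply sum_nonneg
      intro i hi
      apply sum_nonneg
      intro j hj
      have hi0 := h0 i hi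
      have hj0 := h0 j hj
      have hi1 := h1 i hi
      have hj1 := h1 j hj
      rcases le_total (κ i) (κ j) with h | h
      · rw [min_eq_left h]; nlinarith
      · rw [min_eq_right h]; nlinarith
    have e3 : ∑ i ∈ D, ∑ j ∈ D, (s / 3 * ((κ i + κ j) / 2 - min (κ i) (κ j)) -
        ((κ i ^ 2 + κ j ^ 2) / 2 - κ i * κ j)) =
        s / 3 * ((D.card : ℝ) * ∑ i ∈ D, κ i - ∑ i ∈ D, ∑ j ∈ D, min (κ i) (κ j)) -
        ((D.card : ℝ) * ∑ i ∈ D, κ i ^ 2 - (∑ i ∈ D, κ i) ^ 2) := by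
      have e4 : ∀ i ∈ D, ∑ j ∈ D, (s / 3 * ((κ i + κ j) / 2 - min (κ i) (κ j)) -
        ((κ i ^ 2 + κ j ^ 2) / 2 - κ i * κ j)) =
        s / 3 * (((D.card : ℝ) * κ i + ∑ j ∈ D, κ j) / 2 - ∑ j ∈ D, min (κ i) (κ j)) -
        (((D.card : ℝ) * κ i ^ 2 + ∑ j ∈ D, κ j ^ 2) / 2 - κ i * ∑ j ∈ D, κ j) := by
        intro i _
        rw [sum_sub_distrib, sum_sub_distrib, ← mul_sum, ← mul_sum, sum_sub_distrib, ← sum_div,
          ← sum_div, sum_add_distrib, sum_add_distrib, sum_const, sum_const, nsmul_eq_mul,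
          nsmul_eq_mul]
      rw [sum_congr rfl e4, sum_sub_distrib, sum_sub_distrib, ← mul_sum, ← sum_mul,
        sum_sub_distrib, ← sum_div, ← sum_div, sum_add_distrib, sum_add_distrib, sum_const,
        sum_const, nsmul_eq_mul, nsmul_eq_mul, ← mul_sum, ← mul_sum]
      ring
    rw [e3] at key
    have k2 := mul_le_mul_of_nonneg_left key (sq_nonneg h)
    have e5 : (h * ∑ i ∈ D, κ i) ^ 2 = (h * (D.card : ℝ) * c) ^ 2 := by rw [hc]
    have e6 : (h * (D.card : ℝ)) ^ 2 * c = (h * (D.card : ℝ)) * (h * ∑ i ∈ D, κ i) := by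
      rw [← hc]; ring
    rw [e6]
    nlinarith

/-- Facts about the upper part. -/
lemma upper_facts {h s c p x : ℝ} {κ : ι → ℝ} {U : Finset ι} (hh : 0 ≤ h)
    (h1 : ∀ i ∈ U, κ i ≤ s) (h2 : ∀ i ∈ U, s / 3 ≤ κ i)
    (hpx : p + x = h * (U.card : ℝ)) (hp : p * s + x * c = h * ∑ i ∈ U, κ i) :
    (s / 3 - c) * (s - c) * x ≤ p * s ^ 2 + x * c ^ 2 - h * ∑ i ∈ U, κ i ^ 2 ∧
    h * ∑ i ∈ U, κ i ^ 3 ≤ p * s ^ 3 + x * c ^ 3 - (s + 2 * c) *
      (p * s ^ 2 + x * c ^ 2 - h * ∑ i ∈ U, κ i ^ 2) := by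
  have e1 : p * s ^ 2 + x * c ^ 2 - h * ∑ i ∈ U, κ i ^ 2 =
      h * ∑ i ∈ U, (κ i - c) * (s - κ i) := by
    have : ∑ i ∈ U, (κ i - c) * (s - κ i) = (s + c) * ∑ i ∈ U, κ i - ∑ i ∈ U, κ i ^ 2 -
        (U.card : ℝ) * (c * s) := by
      rw [mul_sum, ← nsmul_eq_mul, ← sum_const, ← sum_sub_distrib, ← sum_sub_distrib]
      apply sum_congr rfl
      intro i _
      ring
    rw [this]
    linear_combination (s + c) * hp - (c * s) * hpx
  have e2 : (s - c) * x = h * ∑ i ∈ U, (s - κ i) := by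
    have : ∑ i ∈ U, (s - κ i) = (U.card : ℝ) * s - ∑ i ∈ U, κ i := by
      rw [← nsmul_eq_mul, ← sum_const, ← sum_sub_distrib]
    rw [this]
    linear_combination s * hpx - hp
  constructor
  · rw [e1, mul_assoc, e2]
    have : (s / 3 - c) * ∑ i ∈ U, (s - κ i) ≤ ∑ i ∈ U, (κ i - c) * (s - κ i) := by
      rw [mul_sum]
      apply sum_le_sum
      intro i hi
      apply mul_le_mul_of_nonneg_right _ (by linarith [h1 i hi])
      linarith [h2 i hi]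
    have := mul_le_mul_of_nonneg_left this hh
    linarith
  · rw [e1]
    have e3 : p * s ^ 3 + x * c ^ 3 = h * ∑ i ∈ U, (κ i * (s ^ 2 + s * c + c ^ 2) -
        c * s * (s + c)) := by
      have : ∑ i ∈ U, (κ i * (s ^ 2 + s * c + c ^ 2) - c * s * (s + c)) =
          (s ^ 2 + s * c + c ^ 2) * ∑ i ∈ U, κ i - (U.card : ℝ) * (c * s * (s + c)) := by
        rw [mul_sum, ← nsmul_eq_mul, ← sum_const, ← sum_sub_distrib]
        apply sum_congr rfl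
        intro i _
        ring
      rw [this]
      linear_combination (s ^ 2 + s * c + c ^ 2) * hp - (c * s * (s + c)) * hpx
    rw [e3]
    have : ∑ i ∈ U, κ i ^ 3 ≤ ∑ i ∈ U, (κ i * (s ^ 2 + s * c + c ^ 2) -
        c * s * (s + c)) - (s + 2 * c) * ∑ i ∈ U, (κ i - c) * (s - κ i) := by
      rw [mul_sum, ← sum_sub_distrib]
      apply sum_le_sum
      intro i hi
      have k1 : 0 ≤ (κ i - c) ^ 2 * (s - κ i) :=
        mul_nonneg (sq_nonneg _) (by linarith [h1 i hi])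
      nlinarith
    have := mul_le_mul_of_nonneg_left this hh
    linarith

variable [Fintype ι]

/-- First region: `E` small compared with `s²`. -/
lemma regionI {h s : ℝ} {κ : ι → ℝ} (hh : 0 < h) (hs : 0 < s) (h0 : ∀ i, 0 ≤ κ i)
    (h1 : ∀ i, κ i ≤ s) (hsa : s + h * (Fintype.card ι : ℝ) = 1)
    (hE : h * ∑ i, κ i ≤ 4 / 5 * s ^ 2) (hβ : s ^ 2 + 2 * (h * ∑ i, κ i) ≤ 1 / 25) :
    ∃ r y : ℝ, 0 ≤ r ∧ r ≤ 1 ∧ 0 ≤ y ∧ y ^ 2 + 2 * r - r ^ 2 = s ^ 2 + 2 * (h * ∑ i, κ i) ∧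
      tK h s κ ≤ tT r y (1 - r - y) := by
  classical
  set U : Finset ι := univ.filter (fun i => s / 3 < κ i) with hU
  set D : Finset ι := univ.filter (fun i => ¬ s / 3 < κ i) with hD
  have hUD : ∀ f : ι → ℝ, ∑ i, f i = ∑ i ∈ U, f i + ∑ i ∈ D, f i := fun f =>
    (sum_filter_add_sum_filter_not univ (fun i => s / 3 < κ i) f).symm
  have hUm : ∀ i ∈ U, s / 3 ≤ κ i := fun i hi => by
    rw [hU, mem_filter] at hi; exact hi.2.le
  have hDm : ∀ i ∈ D, κ i ≤ s / 3 := fun i hi => by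
    rw [hD, mem_filter] at hi; exact not_lt.1 hi.2
  have hcard : (Fintype.card ι : ℝ) = (U.card : ℝ) + (D.card : ℝ) := by
    have := hUD (fun _ => 1)
    simpa using this
  have hB := tK_le_B0 (h := h) (s := s) (κ := κ) hh.le hs.le h0 hUD
  have hEsum := hUD κ
  -- names
  obtain ⟨EU, hEU⟩ : ∃ EU, EU = h * ∑ i ∈ U, κ i := ⟨_, rfl⟩
  obtain ⟨ED, hED⟩ : ∃ ED, ED = h * ∑ i ∈ D, κ i := ⟨_, rfl⟩
  obtain ⟨pU, hpU⟩ : ∃ pU, pU = h * (U.card : ℝ) := ⟨_, rfl⟩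
  obtain ⟨pD, hpD⟩ : ∃ pD, pD = h * (D.card : ℝ) := ⟨_, rfl⟩
  have hEE : h * ∑ i, κ i = EU + ED := by rw [hEsum, hEU, hED]; ring
  rw [hEE] at hE hβ ⊢
  have hpp : s + (pU + pD) = 1 := by rw [hpU, hpD, ← hsa, hcard]; ring
  have hpU0 : 0 ≤ pU := by rw [hpU]; positivity
  have hpD0 : 0 ≤ pD := by rw [hpD]; positivity
  have hEU0 : 0 ≤ EU := by rw [hEU]; exact mul_nonneg hh.le (sum_nonneg fun i _ => h0 i)
  have hED0 : 0 ≤ ED := by rw [hED]; exact mul_nonneg hh.le (sum_nonneg fun i _ => h0 i)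
  have hEU3 : s / 3 * pU ≤ EU := by
    have : (U.card : ℝ) * (s / 3) ≤ ∑ i ∈ U, κ i := by
      rw [← nsmul_eq_mul, ← sum_const]; exact sum_le_sum hUm
    rw [hpU, hEU]
    have := mul_le_mul_of_nonneg_left this hh.le
    linarith
  have hEUs : EU ≤ pU * s := by
    have : ∑ i ∈ U, κ i ≤ (U.card : ℝ) * s := by
      rw [← nsmul_eq_mul, ← sum_const]; exact sum_le_sum fun i _ => h1 i
    rw [hpU, hEU]
    have := mul_le_mul_of_nonneg_left this hh.le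
    linarith
  have hQU : s / 3 * EU ≤ h * ∑ i ∈ U, κ i ^ 2 := by
    have : s / 3 * ∑ i ∈ U, κ i ≤ ∑ i ∈ U, κ i ^ 2 := by
      rw [mul_sum]
      apply sum_le_sum
      intro i hi
      have := mul_le_mul_of_nonneg_right (hUm i hi) (h0 i)
      nlinarith
    rw [hEU]
    have := mul_le_mul_of_nonneg_left this hh.le
    linarith
  have hmUU : h ^ 2 * ∑ i ∈ U, ∑ j ∈ U, min (κ i) (κ j) ≤ pU * EU := by
    have : ∑ i ∈ U, ∑ j ∈ U, min (κ i) (κ j) ≤ (U.card : ℝ) * ∑ j ∈ U, κ j := by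
      rw [← nsmul_eq_mul, ← sum_const]
      apply sum_le_sum
      intro i _
      apply sum_le_sum
      intro j _
      exact min_le_right _ _
    rw [hpU, hEU]
    have := mul_le_mul_of_nonneg_left this (sq_nonneg h)
    nlinarith
  have hs5 : s ≤ 1 / 5 := by nlinarith
  have hpU1 : pU ≤ 12 / 5 * s := by
    have : s * pU ≤ s * (12 / 5 * s) := by nlinarith
    exact le_of_mul_le_mul_left this hs
  have hpD1 : 0 < pD := by linarith
  obtain ⟨c, hc⟩ : ∃ c, pD * c = ED := ⟨ED / pD, by field_simp⟩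
  have hc0 : 0 ≤ c := by
    have : 0 ≤ pD * c := by rw [hc]; exact hED0
    exact nonneg_of_mul_nonneg_right this hpD1
  have hc3 : c ≤ s / 3 := by
    have : pD * c ≤ pD * (s / 3) := by
      rw [hc, hED, hpD]
      have : ∑ i ∈ D, κ i ≤ (D.card : ℝ) * (s / 3) := by
        rw [← nsmul_eq_mul, ← sum_const]; exact sum_le_sum hDm
      have := mul_le_mul_of_nonneg_left this hh.le
      linarith
    exact le_of_mul_le_mul_left this hpD1
  obtain ⟨m1, m2, m3⟩ := mean_facts (h := h) (s := s) (c := c) (κ := κ) (D := D) hh.le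
    (fun i _ => h0 i) hDm (by rw [← hpD, hc, hED])
  rw [← hpD] at m1 m2 m3
  -- first step
  have s1 := step1 (s := s) (pU := pU) (EU := EU) (QU := h * ∑ i ∈ U, κ i ^ 2)
    (CU := h * ∑ i ∈ U, κ i ^ 3) (mUU := h ^ 2 * ∑ i ∈ U, ∑ j ∈ U, min (κ i) (κ j))
    (pD := pD) (c := c) (v := h * ∑ i ∈ D, κ i ^ 2 - pD * c ^ 2)
    (L := pD ^ 2 * c - h ^ 2 * ∑ i ∈ D, ∑ j ∈ D, min (κ i) (κ j))
    (CD := h * ∑ i ∈ D, κ i ^ 3) hs hpU0 hpp hEU0 hc0 hpD0 (by rw [hc]; exact hE)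
    (by rw [hc]; exact hβ) hEU3 hQU hmUU m1 m3 m2
  have r1 : pD * c ^ 2 + (h * ∑ i ∈ D, κ i ^ 2 - pD * c ^ 2) = h * ∑ i ∈ D, κ i ^ 2 := by ring
  have r2 : pD ^ 2 * c - (pD ^ 2 * c - h ^ 2 * ∑ i ∈ D, ∑ j ∈ D, min (κ i) (κ j)) =
    h ^ 2 * ∑ i ∈ D, ∑ j ∈ D, min (κ i) (κ j) := by ring
  rw [r1, r2] at s1
  -- second step
  have hcs : c < s := by linarith
  obtain ⟨p, hp⟩ : ∃ p, p * (s - c) = EU - pU * c := ⟨(EU - pU * c) / (s - c), by
    have : s - c ≠ 0 := by linarith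
    field_simp⟩
  obtain ⟨x, hx⟩ : ∃ x, p + x = pU := ⟨pU - p, by ring⟩
  have hsc : 0 < s - c := by linarith
  have hp0 : 0 ≤ p := by
    have : 0 ≤ p * (s - c) := by
      rw [hp]
      have := mul_le_mul_of_nonneg_left hc3 hpU0
      linarith
    exact nonneg_of_mul_nonneg_left this hsc
  have hx0 : 0 ≤ x := by
    have : 0 ≤ x * (s - c) := by
      have : x * (s - c) = pU * s - EU := by
        have : x = pU - p := by linarith
        rw [this, sub_mul, hp]; ring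
      rw [this]; linarith
    exact nonneg_of_mul_nonneg_left this hsc
  have hpx : p * s + x * c = EU := by
    have : x = pU - p := by linarith
    rw [this]; linarith
  obtain ⟨u1, u2⟩ := upper_facts (h := h) (s := s) (c := c) (p := p) (x := x) (κ := κ) (U := U)
    hh.le (fun i _ => h1 i) hUm (by rw [hx, hpU]) (by rw [hpx, hEU])
  have h5s : 5 * s ^ 2 + (EU + ED) ≤ s := by
    by_contra hcon
    push Not at hcon
    have k1 : s ^ 2 < (5 * s ^ 2 + (EU + ED)) ^ 2 := pow_lt_pow_left₀ hcon hs.le (by norm_num)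
    have k2 : (5 * s ^ 2 + (EU + ED)) ^ 2 ≤ 25 * s ^ 2 * (s ^ 2 + 2 * (EU + ED)) := by
      have k5 : 0 ≤ (EU + ED) * (4 / 5 * s ^ 2 - (EU + ED)) :=
        mul_nonneg (by linarith) (by linarith)
      have k3 : 0 ≤ s ^ 2 * (EU + ED) := by positivity
      have k6 : 25 * s ^ 2 * (s ^ 2 + 2 * (EU + ED)) - (5 * s ^ 2 + (EU + ED)) ^ 2 =
        (EU + ED) * (4 / 5 * s ^ 2 - (EU + ED)) + 196 / 5 * (s ^ 2 * (EU + ED)) := by ring
      linarith
    have k4 : 25 * s ^ 2 * (s ^ 2 + 2 * (EU + ED)) ≤ 25 * s ^ 2 * (1 / 25) :=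
      mul_le_mul_of_nonneg_left hβ (by positivity)
    linarith
  have hps : p * s ≤ EU + ED := by
    have : 0 ≤ x * c := mul_nonneg hx0 hc0
    linarith
  have h5p : 5 * s + p ≤ 1 := by
    have : s * (5 * s + p) ≤ s * 1 := by
      have k7 : s * (5 * s + p) = 5 * s ^ 2 + p * s := by ring
      rw [k7]; linarith
    exact le_of_mul_le_mul_left this hs
  have hb4 : 4 * s ≤ pD + x := by linarith
  have h4 : 4 * (s * c) ≤ (pD + x) * c := by
    have := mul_le_mul_of_nonneg_right hb4 hc0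
    linarith
  have hEtot : p * s + (pD + x) * c = EU + ED := by rw [add_mul, hc]; linarith
  have s2 := step2 (s := s) (p := p) (c := c) (x := x)
    (A := p * s ^ 2 + x * c ^ 2 - h * ∑ i ∈ U, κ i ^ 2) (pD := pD)
    (CU := h * ∑ i ∈ U, κ i ^ 3) (mUU := h ^ 2 * ∑ i ∈ U, ∑ j ∈ U, min (κ i) (κ j))
    hs hp0 hc0 hx0 hpD0 h4 (by rw [hEtot]; exact hE) u1
    (by
      have : 0 ≤ h * ∑ i ∈ U, κ i ^ 2 :=
        mul_nonneg hh.le (sum_nonneg fun i _ => sq_nonneg _)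
      linarith)
    u2
    (by
      have : (p + x) ^ 2 * c + (s - c) * (p ^ 2 + p * x) = pU * EU := by
        rw [← hpx, ← hx]; ring
      rw [this]; exact hmUU)
  have r3 : p * s ^ 2 + x * c ^ 2 - (p * s ^ 2 + x * c ^ 2 - h * ∑ i ∈ U, κ i ^ 2) =
    h * ∑ i ∈ U, κ i ^ 2 := by ring
  rw [r3, hx, hpx] at s2
  -- third step
  have hc5 : c ≤ s / 5 := by
    have : (4 * s) * c ≤ (4 * s) * (s / 5) := by
      have : 0 ≤ p * s := mul_nonneg hp0 hs.le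
      have k8 : (4 * s) * (s / 5) = 4 / 5 * s ^ 2 := by ring
      rw [k8]; linarith
    exact le_of_mul_le_mul_left this (by positivity)
  have hp45 : p ≤ 4 / 5 * s := by
    have : p * s ≤ (4 / 5 * s) * s := by
      have k9 : (4 / 5 * s) * s = 4 / 5 * s ^ 2 := by ring
      rw [k9]; linarith
    exact le_of_mul_le_mul_right this hs
  have hw : pD + x = (1 - c) - (s - c) - p := by linarith
  have hy2 : 0 ≤ (s - c) ^ 2 + 2 * p * (s - c) := by positivity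
  have s3 := step3 (r := c) (y := s - c) (p := p) (w := 1 - c)
    (y' := Real.sqrt ((s - c) ^ 2 + 2 * p * (s - c))) hc0 hsc.le hp0 (by linarith) (by linarith)
    (Real.sqrt_nonneg _) (Real.sq_sqrt hy2)
  refine ⟨c, Real.sqrt ((s - c) ^ 2 + 2 * p * (s - c)), hc0, by linarith, Real.sqrt_nonneg _,
    ?_, ?_⟩
  · rw [Real.sq_sqrt hy2, ← hEtot, hw]; ring
  · have r4 : c + (s - c) = s := by ring
    rw [r4, ← hw] at s3
    refine hB.trans (le_trans ?_ (s1.trans (s2.trans s3)))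
    rw [← hpU, ← hEU, ← hED, hc]

/-- Main inequality, small densities. -/
theorem main_small {h s : ℝ} {κ : ι → ℝ} (hh : 0 < h) (hs : 0 < s) (h0 : ∀ i, 0 ≤ κ i)
    (h1 : ∀ i, κ i ≤ s) (hsa : s + h * (Fintype.card ι : ℝ) = 1)
    (hβ : s ^ 2 + 2 * (h * ∑ i, κ i) ≤ 1 / 25) :
    ∃ r y : ℝ, 0 ≤ r ∧ r ≤ 1 ∧ 0 ≤ y ∧ y ^ 2 + 2 * r - r ^ 2 = s ^ 2 + 2 * (h * ∑ i, κ i) ∧
      tK h s κ ≤ tT r y (1 - r - y) := by
  rcases le_total (h * ∑ i, κ i) (4 / 5 * s ^ 2) with hE | hE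
  · exact regionI hh hs h0 h1 hsa hE hβ
  have hF := tK_le_F (h := h) (s := s) (κ := κ) hh.le hs.le h0 h1
  have hm := m2_le (h := h) (s := s) (κ := κ) h0 h1
  have hM0 : 0 ≤ h * ∑ i, κ i ^ 2 := mul_nonneg hh.le (sum_nonneg fun i _ => sq_nonneg _)
  have hM1 : h * ∑ i, κ i ^ 2 ≤ s * (h * ∑ i, κ i) := by
    have : ∑ i, κ i ^ 2 ≤ s * ∑ i, κ i := by
      rw [mul_sum]
      apply sum_le_sum
      intro i _
      have := mul_le_mul_of_nonneg_right (h1 i) (h0 i)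
      nlinarith
    have := mul_le_mul_of_nonneg_left this hh.le
    linarith
  generalize h * ∑ i, κ i ^ 2 = M at *
  generalize h * ∑ i, κ i = E at *
  generalize h ^ 2 * ∑ i, ∑ j, min (κ i) (κ j) = m at *
  generalize h * (Fintype.card ι : ℝ) = a at *
  obtain ⟨σ, hσ0, hσ⟩ : ∃ σ : ℝ, 0 < σ ∧ σ ^ 2 = 2 / 3 * (s ^ 2 + 2 * E) := by
    have : 0 < 2 / 3 * (s ^ 2 + 2 * E) := by
      have : 0 < s ^ 2 := by positivity
      linarith
    exact ⟨Real.sqrt (2 / 3 * (s ^ 2 + 2 * E)), Real.sqrt_pos.2 this, Real.sq_sqrt this.le⟩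
  have hII := regionII hs hsa hE hβ hM0 hM1 hm hσ0 hσ
  have hσ1 : σ ≤ 49 / 300 := by
    by_contra hcon
    push Not at hcon
    have := pow_lt_pow_left₀ hcon (by norm_num) (by norm_num : (2 : ℕ) ≠ 0)
    norm_num at this
    linarith
  obtain ⟨r, hr⟩ : ∃ r : ℝ, (1 - σ) * r = σ ^ 2 / 4 := by
    have : (1 - σ) ≠ 0 := by linarith
    exact ⟨σ ^ 2 / 4 / (1 - σ), by field_simp⟩
  have h1σ : 0 < 1 - σ := by linarith
  have hr0 : 0 ≤ r := by
    have : 0 ≤ (1 - σ) * r := by rw [hr]; positivity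
    exact nonneg_of_mul_nonneg_right this h1σ
  have hr1 : σ ^ 2 / 4 ≤ r := by
    have : 0 ≤ σ * r := by positivity
    linarith
  have hr2 : r ≤ σ := by
    have : (1 - σ) * r ≤ (1 - σ) * σ := by
      rw [hr]
      have : 0 ≤ σ * (1 - 5 / 4 * σ) := mul_nonneg hσ0.le (by linarith)
      linarith
    exact le_of_mul_le_mul_left this h1σ
  refine ⟨r, σ - r, hr0, by linarith, by linarith, ?_, ?_⟩
  · have : (σ - r) ^ 2 + 2 * r - r ^ 2 = σ ^ 2 + 2 * ((1 - σ) * r) := by ring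
    rw [this, hr]; linarith
  · refine hF.trans (hII.trans ?_)
    have e1 : tT r (σ - r) (1 - r - (σ - r)) = (σ ^ 3 + 2 * (((1 - σ) * r) * r)) *
        (σ ^ 3 + 2 * σ * ((1 - σ) * r) + (1 - σ) * ((1 - σ) * r)) +
        ((1 - σ) * r) * r ^ 2 * (1 + σ ^ 2 + 2 * ((1 - σ) * r)) := by
      unfold tT; ring
    rw [e1, hr]
    have k1 : σ ^ 2 / 4 * (σ ^ 2 / 4) ≤ σ ^ 2 / 4 * r := mul_le_mul_of_nonneg_left hr1 (by positivity)
    have k2 : (σ ^ 2 / 4) ^ 2 ≤ r ^ 2 := pow_le_pow_left₀ (by positivity) hr1 2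
    have k3 : σ ^ 5 / 4 + 83 / 64 * σ ^ 6 ≤
        (σ ^ 3 + 2 * (σ ^ 2 / 4 * (σ ^ 2 / 4))) *
        (σ ^ 3 + 2 * σ * (σ ^ 2 / 4) + (1 - σ) * (σ ^ 2 / 4)) +
        σ ^ 2 / 4 * (σ ^ 2 / 4) ^ 2 := by
      have : (σ ^ 3 + 2 * (σ ^ 2 / 4 * (σ ^ 2 / 4))) *
        (σ ^ 3 + 2 * σ * (σ ^ 2 / 4) + (1 - σ) * (σ ^ 2 / 4)) +
        σ ^ 2 / 4 * (σ ^ 2 / 4) ^ 2 - (σ ^ 5 / 4 + 83 / 64 * σ ^ 6) = 5 / 32 * σ ^ 7 := by ring
      have : 0 ≤ 5 / 32 * σ ^ 7 := by positivity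
      linarith
    refine k3.trans (add_le_add ?_ ?_)
    · apply mul_le_mul_of_nonneg_right _ (by positivity)
      linarith
    · have k4 := mul_le_mul_of_nonneg_left k2 (by positivity : 0 ≤ σ ^ 2 / 4)
      have k5 : 0 ≤ σ ^ 2 / 4 * r ^ 2 * (σ ^ 2 + 2 * (σ ^ 2 / 4)) := by positivity
      linarith

/-- Main inequality, large densities. -/
theorem main_large {h s : ℝ} {κ : ι → ℝ} (hh : 0 < h) (hs : 0 < s) (h0 : ∀ i, 0 ≤ κ i)
    (h1 : ∀ i, κ i ≤ s) (hsa : s + h * (Fintype.card ι : ℝ) = 1)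
    (hβ : 1 ≤ 25 * (s ^ 2 + 2 * (h * ∑ i, κ i))) :
    tK h s κ ≤ (s ^ 2 + 2 * (h * ∑ i, κ i)) ^ 3 := by
  have hF := tK_le_F (h := h) (s := s) (κ := κ) hh.le hs.le h0 h1
  have hm := m2_le (h := h) (s := s) (κ := κ) h0 h1
  have hM0 : 0 ≤ h * ∑ i, κ i ^ 2 := mul_nonneg hh.le (sum_nonneg fun i _ => sq_nonneg _)
  have hE0 : 0 ≤ h * ∑ i, κ i := mul_nonneg hh.le (sum_nonneg fun i _ => h0 i)
  have hM1 : h * ∑ i, κ i ^ 2 ≤ s * (h * ∑ i, κ i) := by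
    have : ∑ i, κ i ^ 2 ≤ s * ∑ i, κ i := by
      rw [mul_sum]
      apply sum_le_sum
      intro i _
      have := mul_le_mul_of_nonneg_right (h1 i) (h0 i)
      nlinarith
    have := mul_le_mul_of_nonneg_left this hh.le
    linarith
  generalize h * ∑ i, κ i ^ 2 = M at *
  generalize h * ∑ i, κ i = E at *
  generalize h ^ 2 * ∑ i, ∑ j, min (κ i) (κ j) = m at *
  have ha : 0 ≤ h * (Fintype.card ι : ℝ) := by positivity
  have := clique_region (s := s) (a := h * (Fintype.card ι : ℝ)) (E := E) (M := M) (m := m) hs ha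
    hE0 hM0 hM1 hm (by rw [hsa]; linarith)
  have : 0 ≤ E ^ 3 := by positivity
  linarith

end Pool.Agent.H26.G6
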