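import Mathlib
import Pool.Agent.H26.G6Graph
import Pool.Agent.H26.G6RegionI

/-!
The functional on split graphs, and the bound for arbitrary graphs.
-/

namespace Pool.Agent.H26.G6

open Finset

lemma nested_split {V : Type*} [Fintype V] {H : SimpleGraph V} (hH : Nested H) :
    ∃ C : Finset V, (∀ x ∈ C, ∀ y ∈ C, x ≠ y → H.Adj x y) ∧
      (∀ x, x ∉ C → ∀ y, y ∉ C → ¬ H.Adj x y) ∧ (∀ w, w ∉ C → ∃ c ∈ C, ¬ H.Adj w c) := by
  classical
  obtain ⟨C, hC, hmax⟩ := Finset.exists_max_image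
    (univ.filter (fun C : Finset V => ∀ x ∈ C, ∀ y ∈ C, x ≠ y → H.Adj x y)) Finset.card
    ⟨∅, by simp⟩
  rw [mem_filter] at hC
  have hC' := hC.2
  have hmax' : ∀ D : Finset V, (∀ x ∈ D, ∀ y ∈ D, x ≠ y → H.Adj x y) → D.card ≤ C.card :=
    fun D hD => hmax D (by rw [mem_filter]; exact ⟨mem_univ _, hD⟩)
  have hext : ∀ w, w ∉ C → ∃ c ∈ C, ¬ H.Adj w c := by
    intro w hw
    by_contra hcon
    push Not at hcon
    have := hmax' (insert w C) (by
      intro x hx y hy hxy
      rw [mem_insert] at hx hy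
      rcases hx with rfl | hx <;> rcases hy with rfl | hy
      · exact absurd rfl hxy
      · exact hcon y hy
      · exact (hcon x hx).symm
      · exact hC' x hx y hy hxy)
    rw [card_insert_of_notMem hw] at this
    omega
  refine ⟨C, hC', ?_, hext⟩
  intro w hw w' hw' hadj
  have hne : w ≠ w' := hadj.ne
  by_cases hcom : ∃ c ∈ C, ¬ H.Adj w c ∧ ¬ H.Adj w' c
  · obtain ⟨c, hc, h1, h2⟩ := hcom
    have hcw : c ≠ w := fun h => hw (h ▸ hc)
    have hcw' : c ≠ w' := fun h => hw' (h ▸ hc)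
    -- all the other vertices of `C` are adjacent to `w` and `w'`
    have k1 : ∀ v ∈ C, v ≠ c → H.Adj w v := by
      intro v hv hvc
      have hvw : v ≠ w := fun h => hw (h ▸ hv)
      rcases hH c w hcw with h | h
      · exact h v hvc hvw (hC' c hc v hv hvc.symm)
      · exact absurd (h w' hcw'.symm hne.symm hadj).symm h2
    have k2 : ∀ v ∈ C, v ≠ c → H.Adj w' v := by
      intro v hv hvc
      have hvw : v ≠ w' := fun h => hw' (h ▸ hv)
      rcases hH c w' hcw' with h | h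
      · exact h v hvc hvw (hC' c hc v hv hvc.symm)
      · exact absurd (h w hcw.symm hne hadj.symm).symm h1
    have hD := hmax' (insert w (insert w' (C.erase c))) (by
      intro x hx y hy hxy
      simp only [mem_insert, mem_erase] at hx hy
      rcases hx with rfl | rfl | ⟨hx1, hx2⟩ <;> rcases hy with rfl | rfl | ⟨hy1, hy2⟩
      · exact absurd rfl hxy
      · exact hadj
      · exact k1 y hy2 hy1
      · exact hadj.symm
      · exact absurd rfl hxy
      · exact k2 y hy2 hy1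
      · exact (k1 x hx2 hx1).symm
      · exact (k2 x hx2 hx1).symm
      · exact hC' x hx2 y hy2 hxy)
    rw [card_insert_of_notMem, card_insert_of_notMem, card_erase_of_mem hc] at hD
    · have : 0 < C.card := card_pos.2 ⟨c, hc⟩
      omega
    · simp only [mem_erase]
      exact fun h => hw' h.2
    · simp only [mem_insert, mem_erase]
      rintro (h | h)
      · exact hne h
      · exact hw h.2
  · push Not at hcom
    obtain ⟨c, hc, h1⟩ := hext w hw
    obtain ⟨c', hc', h2⟩ := hext w' hw'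
    have h3 : H.Adj w' c := hcom c hc h1
    have h4 : H.Adj w c' := by
      by_contra h
      exact h2 (hcom c' hc' h)
    rcases hH w w' hne with h | h
    · exact h2 (h c' (fun e => hw (e ▸ hc')) (fun e => hw' (e ▸ hc')) h4)
    · exact h1 (h c (fun e => hw (e ▸ hc)) (fun e => hw' (e ▸ hc)) h3)

section

variable {X Y : Type*} [Fintype X] [Fintype Y]

/-- Split matrix with all entries of the clique block equal to one. -/
def splitM (B : X → Y → ℝ) : X ⊕ Y → X ⊕ Y → ℝ
  | .inl _, .inl _ => 1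
  | .inl x, .inr y => B x y
  | .inr y, .inl x => B x y
  | .inr _, .inr _ => 0

lemma Phi_splitM (B : X → Y → ℝ) :
    Phi (splitM B) =
      ((Fintype.card X : ℝ) ^ 3 + 2 * ∑ y, (∑ x, B x y) ^ 2) *
        ((Fintype.card X : ℝ) ^ 3 + 2 * (Fintype.card X : ℝ) * ∑ y, ∑ x, B x y +
          ∑ y, ∑ y', ∑ x, B x y * B x y') +
      2 * (Fintype.card X : ℝ) ^ 2 * ∑ y, (∑ x, B x y) ^ 3 +
      2 * (Fintype.card X : ℝ) * ∑ y, ∑ y', (∑ x, B x y) ^ 2 * ∑ x, B x y * B x y' +
      2 * ∑ y, ∑ y', (∑ x, B x y) ^ 2 * ((∑ x, B x y') * ∑ x, B x y * B x y') +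
      ∑ y, ∑ y', ∑ y'', (∑ x, B x y) ^ 2 * ∑ x, B x y * (B x y' * B x y'') := by
  obtain ⟨k, hk⟩ : ∃ k : ℝ, k = (Fintype.card X : ℝ) := ⟨_, rfl⟩
  obtain ⟨κ, hκ⟩ : ∃ κ : Y → ℝ, ∀ y, κ y = ∑ x, B x y := ⟨_, fun _ => rfl⟩
  obtain ⟨o, ho⟩ : ∃ o : X → ℝ, ∀ x, o x = ∑ y, B x y := ⟨_, fun _ => rfl⟩
  simp only [← hk, ← hκ]
  have hdx : ∀ x, dg (splitM B) (.inl x) = k + o x := by
    intro x
    simp [dg, splitM, hk, ho]
  have hdy : ∀ y, dg (splitM B) (.inr y) = κ y := by
    intro y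
    simp [dg, splitM, hκ]
  have htx : ∀ x, tau (splitM B) (.inl x) = k ^ 2 + 2 * ∑ y, B x y * κ y := by
    intro x
    simp only [tau, splitM, Fintype.sum_sum_type, mul_one, one_mul, mul_zero, sum_const_zero,
      add_zero, sum_add_distrib, sum_const, card_univ, nsmul_eq_mul]
    have e1 : ∑ x', ∑ y, B x y * B x' y = ∑ y, B x y * κ y := by
      rw [sum_comm]
      exact sum_congr rfl fun y _ => by rw [hκ, mul_sum]
    have e2 : ∑ y, ∑ x', B x y * B x' y = ∑ y, B x y * κ y :=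
      sum_congr rfl fun y _ => by rw [hκ, mul_sum]
    rw [← hk, e1, e2]
    ring
  have hty : ∀ y, tau (splitM B) (.inr y) = κ y ^ 2 := by
    intro y
    simp only [tau, splitM, Fintype.sum_sum_type, mul_one, mul_zero, zero_mul,
      sum_const_zero, add_zero]
    rw [sq, hκ, sum_mul_sum]
  have hE : ∑ x, o x = ∑ y, κ y := by
    simp only [ho, hκ]; exact sum_comm
  have hS : ∑ x, (k + o x) ^ 2 = k ^ 3 + 2 * k * ∑ y, κ y + ∑ y, ∑ y', ∑ x, B x y * B x y' := by
    have e1 : ∑ x, (k + o x) ^ 2 = ∑ _x : X, k ^ 2 + 2 * k * ∑ x, o x + ∑ x, o x ^ 2 := by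
      rw [mul_sum, ← sum_add_distrib, ← sum_add_distrib]
      exact sum_congr rfl fun _ _ => by ring
    have e2 : ∑ x, o x ^ 2 = ∑ y, ∑ y', ∑ x, B x y * B x y' := by
      have : ∀ x, o x ^ 2 = ∑ y, ∑ y', B x y * B x y' := by
        intro x; rw [sq, ho, sum_mul_sum]
      rw [sum_congr rfl fun x _ => this x, sum_comm]
      exact sum_congr rfl fun y _ => sum_comm
    rw [e1, e2, hE, sum_const, card_univ, nsmul_eq_mul, ← hk]
    ring
  have hrx : ∀ x, rho (splitM B) (.inl x) = ∑ x, (k + o x) ^ 2 + ∑ y, B x y * κ y ^ 2 := by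
    intro x
    simp only [rho, Fintype.sum_sum_type, hdx, hdy, splitM, one_mul]
  have hry : ∀ y, rho (splitM B) (.inr y) = ∑ x, B x y * (k + o x) ^ 2 := by
    intro y
    simp only [rho, Fintype.sum_sum_type, hdx, splitM, zero_mul, sum_const_zero, add_zero]
  unfold Phi
  rw [Fintype.sum_sum_type]
  simp only [htx, hty, hrx, hry, hS]
  obtain ⟨S, hSd⟩ : ∃ S, S = k ^ 3 + 2 * k * ∑ y, κ y + ∑ y, ∑ y', ∑ x, B x y * B x y' :=
    ⟨_, rfl⟩
  rw [← hSd]
  -- the first sum
  have f1 : ∑ x, ∑ y, B x y * κ y = ∑ y, κ y ^ 2 := by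
    rw [sum_comm]
    apply sum_congr rfl
    intro y _
    rw [← sum_mul, ← hκ]; ring
  have f2 : ∑ x, ∑ y, B x y * κ y ^ 2 = ∑ y, κ y ^ 3 := by
    rw [sum_comm]
    apply sum_congr rfl
    intro y _
    rw [← sum_mul, ← hκ]; ring
  have f3 : ∑ x, (∑ y, B x y * κ y ^ 2) * (∑ y, B x y * κ y) =
      ∑ y, ∑ y', κ y ^ 2 * (κ y' * ∑ x, B x y * B x y') := by
    have : ∀ x, (∑ y, B x y * κ y ^ 2) * (∑ y, B x y * κ y) =
        ∑ y, ∑ y', κ y ^ 2 * (κ y' * (B x y * B x y')) := by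
      intro x
      rw [sum_mul_sum]
      exact sum_congr rfl fun _ _ => sum_congr rfl fun _ _ => by ring
    rw [sum_congr rfl fun x _ => this x, sum_comm]
    apply sum_congr rfl
    intro y _
    rw [sum_comm]
    apply sum_congr rfl
    intro y' _
    rw [← mul_sum, ← mul_sum]
  have f4 : ∑ x, (k ^ 2 + 2 * ∑ y, B x y * κ y) * (S + ∑ y, B x y * κ y ^ 2) =
      k ^ 3 * S + k ^ 2 * ∑ y, κ y ^ 3 + 2 * S * ∑ y, κ y ^ 2 +
        2 * ∑ y, ∑ y', κ y ^ 2 * (κ y' * ∑ x, B x y * B x y') := by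
    have : ∀ x, (k ^ 2 + 2 * ∑ y, B x y * κ y) * (S + ∑ y, B x y * κ y ^ 2) =
        k ^ 2 * S + k ^ 2 * ∑ y, B x y * κ y ^ 2 + 2 * S * ∑ y, B x y * κ y +
          2 * ((∑ y, B x y * κ y ^ 2) * (∑ y, B x y * κ y)) := by
      intro x; ring
    rw [sum_congr rfl fun x _ => this x, sum_add_distrib, sum_add_distrib, sum_add_distrib]
    obtain ⟨Q, hQ⟩ : ∃ Q, Q = ∑ y, ∑ y', κ y ^ 2 * (κ y' * ∑ x, B x y * B x y') := ⟨_, rfl⟩
    rw [← hQ] at f3 ⊢
    simp only [← mul_sum]
    rw [f1, f2, f3, sum_const, card_univ, nsmul_eq_mul, ← hk]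
    ring
  -- the second sum
  have g1 : ∀ y, ∑ x, B x y * o x = ∑ y', ∑ x, B x y * B x y' := by
    intro y
    rw [sum_comm]
    exact sum_congr rfl fun x _ => by rw [ho, mul_sum]
  have g2 : ∀ y, ∑ x, B x y * o x ^ 2 = ∑ y', ∑ y'', ∑ x, B x y * (B x y' * B x y'') := by
    intro y
    have : ∀ x, B x y * o x ^ 2 = ∑ y', ∑ y'', B x y * (B x y' * B x y'') := by
      intro x
      rw [sq, ho, sum_mul_sum, mul_sum]
      exact sum_congr rfl fun _ _ => by rw [mul_sum]
    rw [sum_congr rfl fun x _ => this x, sum_comm]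
    exact sum_congr rfl fun _ _ => sum_comm
  have g3 : ∑ y, κ y ^ 2 * ∑ x, B x y * (k + o x) ^ 2 =
      k ^ 2 * ∑ y, κ y ^ 3 + 2 * k * ∑ y, ∑ y', κ y ^ 2 * ∑ x, B x y * B x y' +
        ∑ y, ∑ y', ∑ y'', κ y ^ 2 * ∑ x, B x y * (B x y' * B x y'') := by
    have : ∀ y, κ y ^ 2 * ∑ x, B x y * (k + o x) ^ 2 = k ^ 2 * κ y ^ 3 +
        2 * k * ∑ y', κ y ^ 2 * ∑ x, B x y * B x y' +
        ∑ y', ∑ y'', κ y ^ 2 * ∑ x, B x y * (B x y' * B x y'') := by
      intro y
      have e1 : ∑ x, B x y * (k + o x) ^ 2 = k ^ 2 * κ y + 2 * k * ∑ x, B x y * o x +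
          ∑ x, B x y * o x ^ 2 := by
        rw [hκ, mul_sum, mul_sum, ← sum_add_distrib, ← sum_add_distrib]
        exact sum_congr rfl fun _ _ => by ring
      rw [e1, g1, g2]
      simp only [← mul_sum]
      ring
    rw [sum_congr rfl fun y _ => this y, sum_add_distrib, sum_add_distrib, ← mul_sum, ← mul_sum]
  rw [f4, g3]
  ring

lemma Phi_splitM_le (B : X → Y → ℝ) (h0 : ∀ x y, 0 ≤ B x y) (h1 : ∀ x y, B x y ≤ 1) :
    Phi (splitM B) ≤ tK 1 (Fintype.card X : ℝ) (fun y => ∑ x, B x y) := by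
  rw [Phi_splitM]
  unfold tK
  have hκ0 : ∀ y, 0 ≤ ∑ x, B x y := fun y => sum_nonneg fun x _ => h0 x y
  have o2 : ∀ y y', ∑ x, B x y * B x y' ≤ min (∑ x, B x y) (∑ x, B x y') := by
    intro y y'
    apply le_min
    · exact sum_le_sum fun x _ => mul_le_of_le_one_right (h0 x y) (h1 x y')
    · exact sum_le_sum fun x _ => mul_le_of_le_one_left (h0 x y') (h1 x y)
  have o3 : ∀ y y' y'', ∑ x, B x y * (B x y' * B x y'') ≤
      min (∑ x, B x y) (min (∑ x, B x y') (∑ x, B x y'')) := by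
    intro y y' y''
    apply le_min
    · exact sum_le_sum fun x _ => mul_le_of_le_one_right (h0 x y)
        (mul_le_one₀ (h1 x y') (h0 x y'') (h1 x y''))
    · refine le_trans ?_ (o2 y' y'')
      exact sum_le_sum fun x _ => mul_le_of_le_one_left
        (mul_nonneg (h0 x y') (h0 x y'')) (h1 x y)
  simp only [one_mul, one_pow]
  have hk : (0 : ℝ) ≤ (Fintype.card X : ℝ) := by positivity
  refine add_le_add (add_le_add (add_le_add (add_le_add ?_ le_rfl) ?_) ?_) ?_
  · apply mul_le_mul_of_nonneg_left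
    · gcongr
      exact o2 _ _
    · have : 0 ≤ ∑ y, (∑ x, B x y) ^ 2 := sum_nonneg fun y _ => sq_nonneg _
      positivity
  · apply mul_le_mul_of_nonneg_left _ (by positivity)
    apply sum_le_sum
    intro y _
    apply sum_le_sum
    intro y' _
    exact mul_le_mul_of_nonneg_left (o2 _ _) (sq_nonneg _)
  · apply mul_le_mul_of_nonneg_left _ (by positivity)
    apply sum_le_sum
    intro y _
    apply sum_le_sum
    intro y' _
    exact mul_le_mul_of_nonneg_left (mul_le_mul_of_nonneg_left (o2 _ _) (hκ0 _)) (sq_nonneg _)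
  · apply sum_le_sum
    intro y _
    apply sum_le_sum
    intro y' _
    apply sum_le_sum
    intro y'' _
    exact mul_le_mul_of_nonneg_left (o3 _ _ _) (sq_nonneg _)

end

/-- Homogeneity. -/
lemma tK_scale {ι : Type*} [Fintype ι] {n : ℝ} (hn : 0 < n) (s : ℝ) (κ : ι → ℝ) :
    tK 1 s κ = n ^ 6 * tK (1 / n) (s / n) (fun i => κ i / n) := by
  have hn' : n ≠ 0 := hn.ne'
  have hmin : ∀ a b : ℝ, min (a / n) (b / n) = min a b / n := fun a b =>
    (min_div_div_right hn.le a b)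
  have e1 : ∑ i, (κ i / n) ^ 2 = (∑ i, κ i ^ 2) / n ^ 2 := by
    rw [sum_div]; exact sum_congr rfl fun _ _ => by rw [div_pow]
  have e2 : ∑ i, (κ i / n) ^ 3 = (∑ i, κ i ^ 3) / n ^ 3 := by
    rw [sum_div]; exact sum_congr rfl fun _ _ => by rw [div_pow]
  have e3 : ∑ i, κ i / n = (∑ i, κ i) / n := by rw [sum_div]
  have e4 : ∑ i, ∑ j, min (κ i) (κ j) / n = (∑ i, ∑ j, min (κ i) (κ j)) / n := by
    simp only [sum_div]
  have e5 : ∑ i, ∑ j, (κ i / n) ^ 2 * (min (κ i) (κ j) / n) =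
      (∑ i, ∑ j, κ i ^ 2 * min (κ i) (κ j)) / n ^ 3 := by
    simp only [sum_div]
    exact sum_congr rfl fun _ _ => sum_congr rfl fun _ _ => by field_simp
  have e6 : ∑ i, ∑ j, (κ i / n) ^ 2 * (κ j / n * (min (κ i) (κ j) / n)) =
      (∑ i, ∑ j, κ i ^ 2 * (κ j * min (κ i) (κ j))) / n ^ 4 := by
    simp only [sum_div]
    exact sum_congr rfl fun _ _ => sum_congr rfl fun _ _ => by field_simp
  have e7 : ∑ i, ∑ j, ∑ l, (κ i / n) ^ 2 * (min (κ i) (min (κ j) (κ l)) / n) =
      (∑ i, ∑ j, ∑ l, κ i ^ 2 * min (κ i) (min (κ j) (κ l))) / n ^ 3 := by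
    simp only [sum_div]
    exact sum_congr rfl fun _ _ => sum_congr rfl fun _ _ => sum_congr rfl fun _ _ => by field_simp
  unfold tK
  simp only [hmin]
  rw [e1, e2, e3, e4, e5, e6, e7]
  field_simp

lemma S1_eq {V : Type*} [Fintype V] (H : SimpleGraph V) :
    S1 (adj H) = 2 * (H.edgeSet.ncard : ℝ) := by
  classical
  have e1 : ∀ x, dg (adj H) x = (H.degree x : ℝ) := by
    intro x
    unfold dg adj
    rw [sum_boole, ← SimpleGraph.card_neighborFinset_eq_degree]
    congr 2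
    ext y
    simp
  unfold S1
  rw [sum_congr rfl fun x _ => e1 x, ← Nat.cast_sum, SimpleGraph.sum_degrees_eq_twice_card_edges]
  have : H.edgeSet.ncard = H.edgeFinset.card := by
    rw [← SimpleGraph.coe_edgeFinset, Set.ncard_coe_finset]
  rw [this]
  push_cast
  ring

lemma nested_bound {V : Type} [Fintype V] [Nonempty V] {H : SimpleGraph V} (hH : Nested H) :
    ∃ (k : ℕ) (ι : Type) (_ : Fintype ι) (κ : ι → ℝ), 1 ≤ k ∧ k + Fintype.card ι = Fintype.card V ∧
      (∀ i, 0 ≤ κ i) ∧ (∀ i, κ i ≤ (k : ℝ) - 1) ∧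
      (k : ℝ) ^ 2 + 2 * ∑ i, κ i = S1 (adj H) + k ∧ Phi (adj H) ≤ tK 1 (k : ℝ) κ := by
  classical
  obtain ⟨C, h1, h2, h3⟩ := nested_split hH
  have hk : Fintype.card {x // x ∈ C} = C.card := Fintype.card_coe C
  let e : {x // x ∈ C} ⊕ {x // ¬ x ∈ C} ≃ V := Equiv.sumCompl (fun x => x ∈ C)
  let B : {x // x ∈ C} → {x // ¬ x ∈ C} → ℝ := fun x y => adj H x y
  have hle : ∀ i j, adj H (e i) (e j) ≤ splitM B i j := by
    rintro (x | y) (x' | y')
    · show adj H x x' ≤ 1
      rcases adj_cases H x x' with h | h <;> rw [h]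
      norm_num
    · exact le_rfl
    · show adj H y x' ≤ adj H x' y
      rw [adj_symm]
    · show adj H y y' ≤ 0
      rw [adj_of_not (h2 y y.2 y' y'.2)]
  refine ⟨C.card, {x // ¬ x ∈ C}, inferInstance, fun y => ∑ x, B x y, ?_, ?_, ?_, ?_, ?_, ?_⟩
  · rw [Nat.one_le_iff_ne_zero]
    intro h0
    rw [card_eq_zero] at h0
    obtain ⟨w⟩ := ‹Nonempty V›
    obtain ⟨c, hc, _⟩ := h3 w (by rw [h0]; simp)
    rw [h0] at hc
    simp at hc
  · rw [← hk, ← Fintype.card_sum, Fintype.card_congr e]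
  · intro y
    exact sum_nonneg fun x _ => adj_nonneg _ _ _
  · intro y
    obtain ⟨c, hc, hyc⟩ := h3 y y.2
    have e1 : ∑ x, B x y ≤ ∑ x : {x // x ∈ C}, (1 - if x = ⟨c, hc⟩ then 1 else 0) := by
      apply sum_le_sum
      intro x _
      split_ifs with h
      · subst h
        show adj H c y ≤ _
        rw [adj_symm, adj_of_not hyc]; norm_num
      · rw [sub_zero]
        rcases adj_cases H x y with h | h <;> (show adj H x y ≤ 1) <;> rw [h] <;> norm_num
    refine e1.trans (le_of_eq ?_)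
    rw [sum_sub_distrib]
    simp
  · rw [← S1_equiv e (adj H)]
    have d1 : ∀ x : {x // x ∈ C}, dg (fun i j => adj H (e i) (e j)) (.inl x) =
        (C.card : ℝ) - 1 + ∑ y, B x y := by
      intro x
      unfold dg
      rw [Fintype.sum_sum_type]
      have : ∑ x', adj H (e (.inl x)) (e (.inl x')) =
          ∑ x' : {x // x ∈ C}, (1 - if x' = x then (1 : ℝ) else 0) := by
        apply sum_congr rfl
        intro x' _
        show adj H x x' = _
        split_ifs with h
        · rw [h, adj_self]; norm_num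
        · rw [adj_of (h1 x x.2 x' x'.2 (fun h' => h (Subtype.ext h'.symm)))]; norm_num
      rw [this, sum_sub_distrib]
      simp
      rfl
    have d2 : ∀ y : {x // ¬ x ∈ C}, dg (fun i j => adj H (e i) (e j)) (.inr y) =
        ∑ x, B x y := by
      intro y
      unfold dg
      rw [Fintype.sum_sum_type]
      have t1 : ∑ y', adj H (e (.inr y)) (e (.inr y')) = 0 :=
        sum_eq_zero fun y' _ => adj_of_not (h2 y y.2 y' y'.2)
      have t2 : ∑ x', adj H (e (.inr y)) (e (.inl x')) = ∑ x, B x y :=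
        sum_congr rfl fun x _ => adj_symm _ _ _
      rw [t1, t2, add_zero]
    unfold S1
    rw [Fintype.sum_sum_type, sum_congr rfl fun x _ => d1 x, sum_congr rfl fun y _ => d2 y,
      sum_add_distrib, sum_const, card_univ, nsmul_eq_mul, hk,
      sum_comm (s := (univ : Finset {x // x ∈ C}))]
    ring
  · rw [← Phi_equiv e (adj H), ← hk]
    refine (Phi_mono (fun i j => adj_nonneg _ _ _) hle).trans ?_
    apply Phi_splitM_le
    · intro x y; exact adj_nonneg _ _ _
    · intro x y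
      rcases adj_cases H x y with h | h <;> (show adj H x y ≤ 1) <;> rw [h] <;> norm_num

/-- The bound for arbitrary graphs. -/
theorem phi_bound {V : Type} [Fintype V] [Nonempty V] {e : ℕ} (he : 1 ≤ e)
    (H₀ : SimpleGraph V) (hH₀ : H₀.edgeSet.ncard ≤ e) :
    ∃ β : ℝ, min 1 ((2 * e + 2) / (Fintype.card V : ℝ) ^ 2) ≤ β ∧
      β ≤ (2 * e + Fintype.card V) / (Fintype.card V : ℝ) ^ 2 ∧
      (β ≤ 1 / 25 → ∃ r y : ℝ, 0 ≤ r ∧ r ≤ 1 ∧ 0 ≤ y ∧ y ^ 2 + 2 * r - r ^ 2 = β ∧
        Phi (adj H₀) ≤ (Fintype.card V : ℝ) ^ 6 * tT r y (1 - r - y)) ∧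
      (1 / 25 ≤ β → Phi (adj H₀) ≤ (Fintype.card V : ℝ) ^ 6 * β ^ 3) := by
  have hS0 : S1 (adj H₀) ≤ 2 * (e : ℝ) := by
    rw [S1_eq]
    have : (H₀.edgeSet.ncard : ℝ) ≤ e := by exact_mod_cast hH₀
    linarith
  obtain ⟨H, h1, h2, h3, h4⟩ := exists_extremal V (2 * (e : ℝ)) (by positivity)
  obtain ⟨k, ι, hι, κ, k1, k2, k3, k4, k5, k6⟩ := nested_bound h3
  have hn : (0 : ℝ) < (Fintype.card V : ℝ) := by exact_mod_cast Fintype.card_pos
  obtain ⟨n, hnn⟩ : ∃ n : ℝ, n = (Fintype.card V : ℝ) := ⟨_, rfl⟩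
  rw [← hnn] at hn ⊢
  have hn0 : n ≠ 0 := hn.ne'
  have k2' : (k : ℝ) + (Fintype.card ι : ℝ) = n := by rw [hnn, ← k2]; push_cast; ring
  have k1' : (1 : ℝ) ≤ k := by exact_mod_cast k1
  have hkn : (k : ℝ) ≤ n := by
    have : (0 : ℝ) ≤ (Fintype.card ι : ℝ) := by positivity
    linarith
  have hPhi : Phi (adj H₀) ≤ n ^ 6 * tK (1 / n) ((k : ℝ) / n) (fun i => κ i / n) := by
    rw [← tK_scale hn]
    exact (h2 H₀ hS0).trans k6
  have hs : 0 < (k : ℝ) / n := by positivity
  have hh : 0 < 1 / n := by positivity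
  have hκ0 : ∀ i, 0 ≤ κ i / n := fun i => div_nonneg (k3 i) hn.le
  have hκ1 : ∀ i, κ i / n ≤ (k : ℝ) / n := fun i =>
    div_le_div_of_nonneg_right (by linarith [k4 i]) hn.le
  have hsum : (k : ℝ) / n + 1 / n * (Fintype.card ι : ℝ) = 1 := by
    rw [← k2'] at hn0 ⊢
    field_simp
  have hβ : ((k : ℝ) / n) ^ 2 + 2 * (1 / n * ∑ i, κ i / n) = ((k : ℝ) ^ 2 + 2 * ∑ i, κ i) / n ^ 2 := by
    rw [← sum_div]
    field_simp
  refine ⟨((k : ℝ) ^ 2 + 2 * ∑ i, κ i) / n ^ 2, ?_, ?_, ?_, ?_⟩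
  · -- lower bound
    rcases h4 with h4 | h4
    · -- complete graph
      have hcomp : S1 (adj H) = n ^ 2 - n := by
        rw [h4]
        classical
        unfold S1 dg
        have : ∀ x : V, ∑ y, adj (⊤ : SimpleGraph V) x y =
            ∑ y, (1 - if y = x then (1 : ℝ) else 0) := by
          intro x
          apply sum_congr rfl
          intro y _
          split_ifs with h
          · rw [h, adj_self]; norm_num
          · rw [adj_of (by rw [SimpleGraph.top_adj]; exact fun h' => h h'.symm)]; norm_num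
        rw [sum_congr rfl fun x _ => this x]
        simp only [sum_sub_distrib, sum_const, card_univ, nsmul_eq_mul, mul_one, sum_ite_eq',
          mem_univ, if_true]
        rw [← hnn]; ring
      have hκs : ∑ i, κ i ≤ (Fintype.card ι : ℝ) * ((k : ℝ) - 1) := by
        rw [← nsmul_eq_mul, ← card_univ, ← sum_const]
        exact sum_le_sum fun i _ => k4 i
      have hc : (Fintype.card ι : ℝ) = n - k := by linarith
      rw [hc] at hκs
      have hnk : n = k := by
        have : (n - k) ^ 2 + (n - k) ≤ 0 := by nlinarith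
        nlinarith [sq_nonneg (n - k)]
      have : ((k : ℝ) ^ 2 + 2 * ∑ i, κ i) / n ^ 2 = 1 := by
        rw [k5, hcomp, ← hnk]
        field_simp
        ring
      rw [this]
      exact min_le_left _ _
    · -- all the edges are used
      refine le_trans (min_le_right _ _) ?_
      apply div_le_div_of_nonneg_right _ (by positivity)
      rw [k5]
      have hS : 2 * (e : ℝ) ≤ S1 (adj H) := by
        rw [S1_eq] at h4 ⊢
        have : (e : ℝ) < (H.edgeSet.ncard : ℝ) + 1 := by linarith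
        have h' : e < H.edgeSet.ncard + 1 := by exact_mod_cast this
        have h'' : (e : ℝ) ≤ (H.edgeSet.ncard : ℝ) := by exact_mod_cast Nat.lt_succ_iff.1 h'
        linarith
      have hk2 : (2 : ℝ) ≤ k := by
        by_contra hcon
        push Not at hcon
        have : k < 2 := by exact_mod_cast hcon
        have hk1 : k = 1 := by omega
        have hκ : ∑ i, κ i = 0 := by
          apply sum_eq_zero
          intro i _
          have a1 := k3 i
          have a2 := k4 i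
          rw [hk1] at a2
          push_cast at a2
          linarith
        rw [hκ, hk1] at k5
        push_cast at k5
        have : (1 : ℝ) ≤ e := by exact_mod_cast he
        linarith
      linarith
  · apply div_le_div_of_nonneg_right _ (by positivity)
    rw [k5]; linarith
  · intro hle
    rw [← hβ] at hle ⊢
    obtain ⟨r, y, r1, r2, r3, r4, r5⟩ := main_small hh hs hκ0 hκ1 hsum hle
    refine ⟨r, y, r1, r2, r3, r4, hPhi.trans ?_⟩
    exact mul_le_mul_of_nonneg_left r5 (by positivity)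
  · intro hle
    rw [← hβ] at hle ⊢
    have := main_large hh hs hκ0 hκ1 hsum (by linarith)
    exact hPhi.trans (mul_le_mul_of_nonneg_left this (by positivity))

end Pool.Agent.H26.G6
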