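import Mathlib
import Pool.Agent.H26.G6Defs
import Pool.Agent.H26.G6Split

/-!
Counting copies of `G₆`.
-/

namespace Pool.Agent.H26.G6

open Finset

section Labelled

variable {V W : Type*} [Fintype V] [Fintype W]

/-- The number of labelled copies is the number of automorphisms times the number of copies. -/
lemma labelled_eq (G : SimpleGraph V) (H : SimpleGraph W) :
    G.labelledCopyCount H = Nat.card (H ≃g H) * G.copyCount H := by
  classical
  have : Fintype (H ≃g H) :=
    Fintype.ofInjective (fun σ : H ≃g H => (σ : W → W)) DFunLike.coe_injective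
  rw [SimpleGraph.copyCount_eq_card_image_copyToSubgraph, SimpleGraph.labelledCopyCount,
    ← card_univ]
  have key : ∀ B ∈ (univ : Finset (H.Copy G)).image SimpleGraph.Copy.toSubgraph,
      ((univ : Finset (H.Copy G)).filter (fun f => f.toSubgraph = B)).card =
        Nat.card (H ≃g H) := by
    intro B hB
    rw [mem_image] at hB
    obtain ⟨f₀, _, hf₀⟩ := hB
    have : Nat.card (H ≃g H) = Fintype.card (H ≃g H) := Nat.card_eq_fintype_card
    rw [this, ← card_univ]
    symm
    refine card_bij (fun σ _ => f₀.comp σ.toCopy) ?_ ?_ ?_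
    · intro σ _
      rw [mem_filter]
      refine ⟨mem_univ _, ?_⟩
      rw [← hf₀]
      ext x y
      · simp only [SimpleGraph.Subgraph.map_verts, Set.mem_image]
        constructor
        · rintro ⟨v, _, rfl⟩
          exact ⟨σ v, trivial, rfl⟩
        · rintro ⟨v, _, rfl⟩
          exact ⟨σ.symm v, trivial, by
            show f₀ (σ (σ.symm v)) = f₀ v
            rw [RelIso.apply_symm_apply]⟩
      · simp only [SimpleGraph.Subgraph.map_adj, Relation.Map]
        constructor
        · rintro ⟨v, w, hvw, rfl, rfl⟩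
          exact ⟨σ v, σ w, σ.map_adj_iff.2 hvw, rfl, rfl⟩
        · rintro ⟨v, w, hvw, rfl, rfl⟩
          refine ⟨σ.symm v, σ.symm w, σ.symm.map_adj_iff.2 hvw, ?_, ?_⟩
          · show f₀ (σ (σ.symm v)) = f₀ v
            rw [RelIso.apply_symm_apply]
          · show f₀ (σ (σ.symm w)) = f₀ w
            rw [RelIso.apply_symm_apply]
    · intro σ _ τ _ h
      ext v
      apply f₀.injective
      exact DFunLike.congr_fun h v
    · intro f hf
      rw [mem_filter] at hf
      have hf1 : f.toSubgraph = f₀.toSubgraph := hf.2.trans hf₀.symm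
      -- the inverse of `f₀` composed with `f`
      have hr : ∀ v, ∃ w, f₀ w = f v := by
        intro v
        have : f v ∈ f.toSubgraph.verts := ⟨v, trivial, rfl⟩
        rw [hf1] at this
        obtain ⟨w, _, hw⟩ := this
        exact ⟨w, hw⟩
      have hr' : ∀ v, ∃ w, f w = f₀ v := by
        intro v
        have : f₀ v ∈ f₀.toSubgraph.verts := ⟨v, trivial, rfl⟩
        rw [← hf1] at this
        obtain ⟨w, _, hw⟩ := this
        exact ⟨w, hw⟩
      choose s hs using hr
      choose s' hs' using hr'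
      have hadj : ∀ {v w}, H.Adj (s v) (s w) ↔ H.Adj v w := by
        intro v w
        constructor
        · intro h
          have : f₀.toSubgraph.Adj (f₀ (s v)) (f₀ (s w)) := ⟨s v, s w, h, rfl, rfl⟩
          rw [← hf1, hs, hs] at this
          obtain ⟨v', w', h1, h2, h3⟩ := this
          have e1 : v' = v := f.injective h2
          have e2 : w' = w := f.injective h3
          rw [← e1, ← e2]
          exact h1
        · intro h
          have : f.toSubgraph.Adj (f v) (f w) := ⟨v, w, h, rfl, rfl⟩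
          rw [hf1] at this
          obtain ⟨v', w', h1, h2, h3⟩ := this
          have e1 : v' = s v := f₀.injective (h2.trans (hs v).symm)
          have e2 : w' = s w := f₀.injective (h3.trans (hs w).symm)
          rw [← e1, ← e2]
          exact h1
      refine ⟨⟨⟨s, s', ?_, ?_⟩, hadj⟩, mem_univ _, ?_⟩
      · intro v
        apply f.injective
        show f (s' (s v)) = f v
        rw [hs', hs]
      · intro v
        apply f₀.injective
        show f₀ (s (s' v)) = f₀ v
        rw [hs, hs']
      · ext v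
        exact hs v
  rw [card_eq_sum_card_image SimpleGraph.Copy.toSubgraph, sum_congr rfl key, sum_const,
    smul_eq_mul, mul_comm]

lemma labelled_eq_natCard (G : SimpleGraph V) (H : SimpleGraph W) :
    G.labelledCopyCount H = Nat.card (H.Copy G) := by
  classical
  unfold SimpleGraph.labelledCopyCount
  rw [Nat.card_eq_fintype_card]

end Labelled

section Homs

variable {V : Type*}

/-- weight of a map of the vertices of `G₆` -/
def wt (A : V → V → ℝ) (f : Fin 6 → V) : ℝ :=
  A (f 2) (f 0) * A (f 2) (f 1) * A (f 0) (f 1) * (A (f 2) (f 3) * (A (f 3) (f 4) * A (f 3) (f 5)))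

lemma sum_cons [Fintype V] {n : ℕ} (F : (Fin (n + 1) → V) → ℝ) :
    ∑ f, F f = ∑ x, ∑ g : Fin n → V, F (Fin.cons x g) := by
  rw [← (Fin.consEquiv (fun _ => V)).sum_comp, Fintype.sum_prod_type]
  rfl

lemma sum_wt [Fintype V] (A : V → V → ℝ) : ∑ f, wt A f = Phi A := by
  have e : ∀ F : (Fin 6 → V) → ℝ, ∑ f, F f = ∑ a, ∑ b, ∑ c, ∑ d, ∑ e, ∑ f,
      F (Fin.cons a (Fin.cons b (Fin.cons c (Fin.cons d (Fin.cons e (Fin.cons f Fin.elim0)))))) := by
    intro F
    simp only [sum_cons]
    refine sum_congr rfl fun a _ => sum_congr rfl fun b _ => sum_congr rfl fun c _ =>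
      sum_congr rfl fun d _ => sum_congr rfl fun e _ => sum_congr rfl fun f _ => ?_
    rw [Fintype.sum_unique]
    have : (default : Fin 0 → V) = Fin.elim0 := Subsingleton.elim _ _
    rw [this]
  rw [e]
  have e2 : ∀ a b c d e f : V, wt A (Fin.cons a (Fin.cons b (Fin.cons c (Fin.cons d (Fin.cons e
      (Fin.cons f Fin.elim0)))))) = A c a * A c b * A a b * (A c d * (A d e * A d f)) :=
    fun a b c d e f => rfl
  simp only [e2]
  unfold Phi tau rho dg
  have e3 : ∀ a b c : V, ∑ d, ∑ e, ∑ f, A c a * A c b * A a b * (A c d * (A d e * A d f)) =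
      A c a * A c b * A a b * ∑ u, A c u * (∑ v, A u v) ^ 2 := by
    intro a b c
    rw [mul_sum]
    apply sum_congr rfl
    intro d _
    rw [sq, sum_mul_sum, mul_sum, mul_sum]
    apply sum_congr rfl
    intro e _
    rw [mul_sum, mul_sum]
  simp only [e3]
  calc ∑ a, ∑ b, ∑ c, A c a * A c b * A a b * ∑ u, A c u * (∑ v, A u v) ^ 2
      = ∑ a, ∑ c, ∑ b, A c a * A c b * A a b * ∑ u, A c u * (∑ v, A u v) ^ 2 :=
        sum_congr rfl fun a _ => sum_comm
    _ = ∑ c, ∑ a, ∑ b, A c a * A c b * A a b * ∑ u, A c u * (∑ v, A u v) ^ 2 := sum_comm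
    _ = _ := by
        apply sum_congr rfl
        intro c _
        rw [sum_mul]
        apply sum_congr rfl
        intro a _
        rw [sum_mul]

lemma wt_nonneg {A : V → V → ℝ} (h0 : ∀ x y, 0 ≤ A x y) (f : Fin 6 → V) : 0 ≤ wt A f := by
  unfold wt
  exact mul_nonneg (mul_nonneg (mul_nonneg (h0 _ _) (h0 _ _)) (h0 _ _))
    (mul_nonneg (h0 _ _) (mul_nonneg (h0 _ _) (h0 _ _)))

lemma wt_le_one {A : V → V → ℝ} (h0 : ∀ x y, 0 ≤ A x y) (h1 : ∀ x y, A x y ≤ 1)
    (f : Fin 6 → V) : wt A f ≤ 1 := by
  unfold wt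
  have a1 : A (f 2) (f 0) * A (f 2) (f 1) * A (f 0) (f 1) ≤ 1 :=
    mul_le_one₀ (mul_le_one₀ (h1 _ _) (h0 _ _) (h1 _ _)) (h0 _ _) (h1 _ _)
  have a2 : A (f 2) (f 3) * (A (f 3) (f 4) * A (f 3) (f 5)) ≤ 1 :=
    mul_le_one₀ (h1 _ _) (mul_nonneg (h0 _ _) (h0 _ _)) (mul_le_one₀ (h1 _ _) (h0 _ _) (h1 _ _))
  exact mul_le_one₀ a1 (mul_nonneg (h0 _ _) (mul_nonneg (h0 _ _) (h0 _ _))) a2

lemma wt_adj (H : SimpleGraph V) (f : Fin 6 → V) :
    wt (adj H) f = 1 ∨ wt (adj H) f = 0 := by
  unfold wt
  rcases adj_cases H (f 2) (f 0) with h1 | h1 <;> rw [h1]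
  · right; ring
  rcases adj_cases H (f 2) (f 1) with h2 | h2 <;> rw [h2]
  · right; ring
  rcases adj_cases H (f 0) (f 1) with h3 | h3 <;> rw [h3]
  · right; ring
  rcases adj_cases H (f 2) (f 3) with h4 | h4 <;> rw [h4]
  · right; ring
  rcases adj_cases H (f 3) (f 4) with h5 | h5 <;> rw [h5]
  · right; ring
  rcases adj_cases H (f 3) (f 5) with h6 | h6 <;> rw [h6]
  · right; ring
  left; ring

lemma wt_adj_eq_one {H : SimpleGraph V} {f : Fin 6 → V} :
    wt (adj H) f = 1 ↔ ∀ i j, graphG6.Adj i j → H.Adj (f i) (f j) := by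
  constructor
  · intro h
    have hne : wt (adj H) f ≠ 0 := by rw [h]; norm_num
    unfold wt at hne
    have h1 : H.Adj (f 2) (f 0) := by
      by_contra hc; apply hne; rw [adj_of_not hc]; ring
    have h2 : H.Adj (f 2) (f 1) := by
      by_contra hc; apply hne; rw [adj_of_not hc]; ring
    have h3 : H.Adj (f 0) (f 1) := by
      by_contra hc; apply hne; rw [adj_of_not hc]; ring
    have h4 : H.Adj (f 2) (f 3) := by
      by_contra hc; apply hne; rw [adj_of_not hc]; ring
    have h5 : H.Adj (f 3) (f 4) := by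
      by_contra hc; apply hne; rw [adj_of_not hc]; ring
    have h6 : H.Adj (f 3) (f 5) := by
      by_contra hc; apply hne; rw [adj_of_not hc]; ring
    intro i j hij
    unfold graphG6 at hij
    rw [SimpleGraph.fromEdgeSet_adj] at hij
    simp only [Set.mem_insert_iff, Set.mem_singleton_iff, Sym2.eq_iff] at hij
    obtain ⟨hij, _⟩ := hij
    rcases hij with (⟨rfl, rfl⟩ | ⟨rfl, rfl⟩) | (⟨rfl, rfl⟩ | ⟨rfl, rfl⟩) |
      (⟨rfl, rfl⟩ | ⟨rfl, rfl⟩) | (⟨rfl, rfl⟩ | ⟨rfl, rfl⟩) | (⟨rfl, rfl⟩ | ⟨rfl, rfl⟩) |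
      (⟨rfl, rfl⟩ | ⟨rfl, rfl⟩)
    · exact h3
    · exact h3.symm
    · exact h1.symm
    · exact h1
    · exact h2.symm
    · exact h2
    · exact h4
    · exact h4.symm
    · exact h5
    · exact h5.symm
    · exact h6
    · exact h6.symm
  · intro h
    have g : ∀ i j : Fin 6, i ≠ j → (s(i, j) : Sym2 (Fin 6)) ∈
        ({s(0, 1), s(0, 2), s(1, 2), s(2, 3), s(3, 4), s(3, 5)} : Set (Sym2 (Fin 6))) →
        H.Adj (f i) (f j) := by
      intro i j hij hmem
      apply h
      unfold graphG6
      rw [SimpleGraph.fromEdgeSet_adj]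
      exact ⟨hmem, hij⟩
    have h1 : H.Adj (f 2) (f 0) := (g 0 2 (by decide) (by simp)).symm
    have h2 : H.Adj (f 2) (f 1) := (g 1 2 (by decide) (by simp)).symm
    have h3 : H.Adj (f 0) (f 1) := g 0 1 (by decide) (by simp)
    have h4 : H.Adj (f 2) (f 3) := g 2 3 (by decide) (by simp)
    have h5 : H.Adj (f 3) (f 4) := g 3 4 (by decide) (by simp)
    have h6 : H.Adj (f 3) (f 5) := g 3 5 (by decide) (by simp)
    unfold wt
    rw [adj_of h1, adj_of h2, adj_of h3, adj_of h4, adj_of h5, adj_of h6]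
    norm_num

variable [Fintype V]

open Classical in
lemma labelled_eq_sum (H : SimpleGraph V) :
    (H.labelledCopyCount graphG6 : ℝ) =
      ∑ f ∈ univ.filter (fun f : Fin 6 → V => Function.Injective f), wt (adj H) f := by
  have e1 : H.labelledCopyCount graphG6 = (univ.filter (fun f : Fin 6 → V =>
      Function.Injective f ∧ ∀ i j, graphG6.Adj i j → H.Adj (f i) (f j))).card := by
    rw [labelled_eq_natCard, ← Fintype.card_subtype, ← Nat.card_eq_fintype_card]
    refine Nat.card_congr ⟨fun φ => ⟨(φ : Fin 6 → V), φ.injective, fun i j h => φ.toHom.map_adj h⟩,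
      fun f => ⟨⟨f.1, fun {a b} h => f.2.2 a b h⟩, f.2.1⟩, ?_, ?_⟩
    · intro φ
      exact DFunLike.coe_injective rfl
    · intro f
      rfl
  rw [e1, ← filter_filter, card_filter]
  push_cast
  apply sum_congr rfl
  intro f _
  split_ifs with h
  · exact (wt_adj_eq_one.2 h).symm
  · rcases wt_adj H f with h' | h'
    · exact absurd (wt_adj_eq_one.1 h') h
    · exact h'.symm

lemma labelled_le_Phi (H : SimpleGraph V) : (H.labelledCopyCount graphG6 : ℝ) ≤ Phi (adj H) := by
  classical
  rw [labelled_eq_sum, ← sum_wt]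
  exact sum_le_sum_of_subset_of_nonneg (filter_subset _ _)
    fun f _ _ => wt_nonneg (adj_nonneg H) f

/-- Two-sided estimate of the number of labelled copies. -/
lemma labelled_bounds (H : SimpleGraph V) {A : V → V → ℝ} (h0 : ∀ x y, 0 ≤ A x y)
    (h1 : ∀ x y, A x y ≤ 1) (hA : ∀ x y, x ≠ y → A x y = adj H x y) :
    (H.labelledCopyCount graphG6 : ℝ) ≤ Phi A ∧
      Phi A - ((Fintype.card V : ℝ) ^ 6 - ((Fintype.card V).descFactorial 6 : ℝ)) ≤
        (H.labelledCopyCount graphG6 : ℝ) := by
  classical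
  have e1 : ∀ f ∈ univ.filter (fun f : Fin 6 → V => Function.Injective f),
      wt (adj H) f = wt A f := by
    intro f hf
    rw [mem_filter] at hf
    have hne : ∀ i j : Fin 6, i ≠ j → f i ≠ f j := fun i j hij h => hij (hf.2 h)
    unfold wt
    rw [hA _ _ (hne 2 0 (by decide)), hA _ _ (hne 2 1 (by decide)), hA _ _ (hne 0 1 (by decide)),
      hA _ _ (hne 2 3 (by decide)), hA _ _ (hne 3 4 (by decide)), hA _ _ (hne 3 5 (by decide))]
  rw [labelled_eq_sum, sum_congr rfl e1, ← sum_wt]
  constructor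
  · exact sum_le_sum_of_subset_of_nonneg (filter_subset _ _) fun f _ _ => wt_nonneg h0 f
  · rw [← sum_filter_add_sum_filter_not univ (fun f : Fin 6 → V => Function.Injective f)
      (fun f => wt A f)]
    have e2 : ∑ f ∈ univ.filter (fun f : Fin 6 → V => ¬ Function.Injective f), wt A f ≤
        ((univ.filter (fun f : Fin 6 → V => ¬ Function.Injective f)).card : ℝ) := by
      rw [card_eq_sum_ones]
      push_cast
      exact sum_le_sum fun f _ => wt_le_one h0 h1 f
    have e3 : ((univ.filter (fun f : Fin 6 → V => ¬ Function.Injective f)).card : ℝ) =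
        (Fintype.card V : ℝ) ^ 6 - ((Fintype.card V).descFactorial 6 : ℝ) := by
      have c1 : (univ.filter (fun f : Fin 6 → V => Function.Injective f)).card =
          (Fintype.card V).descFactorial 6 := by
        have := Fintype.card_embedding_eq (α := Fin 6) (β := V)
        rw [Fintype.card_fin] at this
        rw [← this, ← card_univ]
        symm
        refine card_bij (fun φ _ => (φ : Fin 6 → V)) ?_ ?_ ?_
        · intro φ _
          rw [mem_filter]
          exact ⟨mem_univ _, φ.injective⟩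
        · intro φ _ ψ _ h
          exact DFunLike.coe_injective h
        · intro f hf
          rw [mem_filter] at hf
          exact ⟨⟨f, hf.2⟩, mem_univ _, rfl⟩
      have c2 := card_filter_add_card_filter_not (s := (univ : Finset (Fin 6 → V)))
        (fun f : Fin 6 → V => Function.Injective f)
      rw [card_univ, Fintype.card_fun, Fintype.card_fin, c1] at c2
      have c3 : ((Fintype.card V).descFactorial 6 : ℝ) +
          ((univ.filter (fun f : Fin 6 → V => ¬ Function.Injective f)).card : ℝ) =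
          (Fintype.card V : ℝ) ^ 6 := by exact_mod_cast c2
      linarith
    linarith

end Homs

end Pool.Agent.H26.G6
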