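import Mathlib
import Pool.Agent.H26.G6Count

/-!
Copies of `G₆` in the graphs `tGraph` and `quasiClique`.
-/

namespace Pool.Agent.H26.G6

open Finset

/-- The adjacency matrix of `tGraph`, with ones on the diagonal positions of the two cliques. -/
noncomputable def tBar (n y r : ℕ) : Fin n → Fin n → ℝ := fun i j =>
  if (y ≤ (i : ℕ) ∧ (i : ℕ) < y + r) ∨ (y ≤ (j : ℕ) ∧ (j : ℕ) < y + r) ∨
    ((i : ℕ) < y ∧ (j : ℕ) < y) then 1 else 0

lemma tBar_val (n y r : ℕ) (i j : Fin n) : tBar n y r i j =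
    if (y ≤ (i : ℕ) ∧ (i : ℕ) < y + r) ∨ (y ≤ (j : ℕ) ∧ (j : ℕ) < y + r) ∨
      ((i : ℕ) < y ∧ (j : ℕ) < y) then 1 else 0 := rfl

lemma tBar_nonneg (n y r : ℕ) (i j : Fin n) : 0 ≤ tBar n y r i j := by
  unfold tBar; split_ifs <;> norm_num

lemma tBar_le_one (n y r : ℕ) (i j : Fin n) : tBar n y r i j ≤ 1 := by
  unfold tBar; split_ifs <;> norm_num

lemma tBar_eq_adj (n y r : ℕ) (i j : Fin n) (h : i ≠ j) :
    tBar n y r i j = adj (tGraph n y r) i j := by
  unfold tBar adj tGraph
  simp only [h, ne_eq, not_false_eq_true, true_and]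

lemma sum_lt {n k : ℕ} (hk : k ≤ n) : ∑ i : Fin n, (if (i : ℕ) < k then (1 : ℝ) else 0) = k := by
  rw [Fin.sum_univ_eq_sum_range (fun i => if i < k then (1 : ℝ) else 0) n, ← sum_filter]
  have : (range n).filter (fun i => i < k) = range k := by
    ext i; simp only [mem_filter, mem_range]; omega
  rw [this]; simp

lemma sum_between {n y r : ℕ} (h : y + r ≤ n) :
    ∑ i : Fin n, (if y ≤ (i : ℕ) ∧ (i : ℕ) < y + r then (1 : ℝ) else 0) = r := by
  have e1 := sum_lt (n := n) (k := y + r) h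
  have e2 := sum_lt (n := n) (k := y) (by omega)
  have : ∑ i : Fin n, (if y ≤ (i : ℕ) ∧ (i : ℕ) < y + r then (1 : ℝ) else 0) =
      ∑ i : Fin n, (if (i : ℕ) < y + r then (1 : ℝ) else 0) -
        ∑ i : Fin n, (if (i : ℕ) < y then (1 : ℝ) else 0) := by
    rw [← sum_sub_distrib]
    apply sum_congr rfl
    intro i _
    by_cases h1 : (i : ℕ) < y
    · rw [if_neg (by omega), if_pos (by omega), if_pos h1]; norm_num
    · by_cases h2 : (i : ℕ) < y + r
      · rw [if_pos ⟨by omega, h2⟩, if_pos h2, if_neg h1]; norm_num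
      · rw [if_neg (by omega), if_neg h2, if_neg h1]; norm_num
  rw [this, e1, e2]
  push_cast
  ring

lemma card_lt {n k : ℕ} (hk : k ≤ n) : (Fintype.card {i : Fin n // (i : ℕ) < k} : ℝ) = k := by
  rw [Fintype.card_subtype, ← sum_lt hk, ← sum_filter, sum_const, nsmul_eq_mul, mul_one]

lemma card_ge {n k : ℕ} (hk : k ≤ n) :
    (Fintype.card {i : Fin n // ¬ (i : ℕ) < k} : ℝ) = n - k := by
  have e1 := card_lt hk
  have e2 := Fintype.card_congr (Equiv.sumCompl (fun i : Fin n => (i : ℕ) < k))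
  rw [Fintype.card_sum, Fintype.card_fin] at e2
  have e3 : (Fintype.card {i : Fin n // (i : ℕ) < k} : ℝ) +
    (Fintype.card {i : Fin n // ¬ (i : ℕ) < k} : ℝ) = n := by exact_mod_cast e2
  linarith

/-- the block between the cliques and the independent set -/
noncomputable def tB (n y r : ℕ) : {i : Fin n // (i : ℕ) < y + r} →
    {i : Fin n // ¬ (i : ℕ) < y + r} → ℝ := fun x _ => if y ≤ (x : Fin n).val then 1 else 0

lemma tBar_split (n y r : ℕ) :
    (fun i j => tBar n y r (Equiv.sumCompl (fun i : Fin n => (i : ℕ) < y + r) i)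
      (Equiv.sumCompl (fun i : Fin n => (i : ℕ) < y + r) j)) = splitM (tB n y r) := by
  funext i j
  rcases i with ⟨i, hi⟩ | ⟨i, hi⟩ <;> rcases j with ⟨j, hj⟩ | ⟨j, hj⟩
  · show tBar n y r i j = 1
    rw [tBar_val, if_pos (by omega)]
  · show tBar n y r i j = if y ≤ (i : ℕ) then (1 : ℝ) else 0
    by_cases h : y ≤ (i : ℕ)
    · rw [tBar_val, if_pos (by omega), if_pos h]
    · rw [tBar_val, if_neg (by omega), if_neg h]
  · show tBar n y r i j = if y ≤ (j : ℕ) then (1 : ℝ) else 0
    by_cases h : y ≤ (j : ℕ)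
    · rw [tBar_val, if_pos (by omega), if_pos h]
    · rw [tBar_val, if_neg (by omega), if_neg h]
  · show tBar n y r i j = 0
    rw [tBar_val, if_neg (by omega)]

lemma sum_tB {n y r : ℕ} (h : y + r ≤ n) :
    ∑ x : {i : Fin n // (i : ℕ) < y + r}, (if y ≤ (x : Fin n).val then (1 : ℝ) else 0) = r := by
  rw [← sum_between h, ← sum_filter, ← sum_filter]
  rw [sum_const, sum_const, nsmul_eq_mul, nsmul_eq_mul, mul_one, mul_one]
  congr 1
  refine card_bij (fun x _ => (x : Fin n)) ?_ ?_ ?_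
  · intro x hx
    rw [mem_filter] at hx ⊢
    exact ⟨mem_univ _, hx.2, x.2⟩
  · intro x _ x' _ hxx
    exact Subtype.ext hxx
  · intro i hi
    rw [mem_filter] at hi
    exact ⟨⟨i, hi.2.2⟩, by rw [mem_filter]; exact ⟨mem_univ _, hi.2.1⟩, rfl⟩

lemma Phi_tBar {n y r : ℕ} (h : y + r ≤ n) :
    Phi (tBar n y r) = tT r y ((n : ℝ) - r - y) := by
  rw [← Phi_equiv (Equiv.sumCompl (fun i : Fin n => (i : ℕ) < y + r)) (tBar n y r), tBar_split,
    Phi_splitM]
  have i1 : ∀ a : ℝ, (if y ≤ y then a else 0) = a := fun a => if_pos le_rfl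
  have e0 : ∀ x : {i : Fin n // (i : ℕ) < y + r},
      (if y ≤ (x : Fin n).val then (1 : ℝ) else 0) * (if y ≤ (x : Fin n).val then (1 : ℝ) else 0) =
        if y ≤ (x : Fin n).val then (1 : ℝ) else 0 := by
    intro x; split_ifs <;> norm_num
  simp only [tB, e0, sum_tB h, sum_const, card_univ, nsmul_eq_mul, card_lt h, card_ge h]
  unfold tT
  push_cast
  ring

lemma S1_tBar {n y r : ℕ} (h : y + r ≤ n) :
    S1 (tBar n y r) = ((r : ℝ) + y) ^ 2 + 2 * r * ((n : ℝ) - r - y) := by
  rw [← S1_equiv (Equiv.sumCompl (fun i : Fin n => (i : ℕ) < y + r)) (tBar n y r), tBar_split]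
  unfold S1 dg
  simp only [Fintype.sum_sum_type, splitM, tB, sum_const, card_univ, nsmul_eq_mul, card_lt h,
    card_ge h, sum_add_distrib, ← mul_sum, sum_tB h, mul_zero, add_zero, mul_one]
  push_cast
  ring

lemma S1_tGraph {n y r : ℕ} (h : y + r ≤ n) :
    S1 (adj (tGraph n y r)) = (r : ℝ) ^ 2 + 2 * r * y + y ^ 2 + 2 * r * ((n : ℝ) - r - y) - r - y := by
  have e1 : S1 (tBar n y r) = S1 (adj (tGraph n y r)) + (y + r : ℕ) := by
    unfold S1 dg
    rw [← sum_lt h, ← sum_add_distrib]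
    apply sum_congr rfl
    intro i _
    have : ∀ j, tBar n y r i j = adj (tGraph n y r) i j +
        if j = i then (if (i : ℕ) < y + r then (1 : ℝ) else 0) else 0 := by
      intro j
      by_cases hij : j = i
      · subst hij
        rw [adj_self, if_pos rfl, zero_add]
        unfold tBar
        by_cases h1 : (j : ℕ) < y + r
        · rw [if_pos (by omega), if_pos h1]
        · rw [if_neg (by omega), if_neg h1]
      · rw [tBar_eq_adj n y r i j (fun h => hij h.symm), if_neg hij, add_zero]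
    rw [sum_congr rfl fun j _ => this j, sum_add_distrib]
    simp
  rw [S1_tBar h] at e1
  push_cast at e1
  linarith

lemma copyCount_mono {V : Type*} [Fintype V] {H K : SimpleGraph V} (h : H ≤ K) :
    H.labelledCopyCount graphG6 ≤ K.labelledCopyCount graphG6 := by
  rw [labelled_eq_natCard, labelled_eq_natCard]
  have : Finite (graphG6.Copy K) := Finite.of_injective (fun φ => (φ : Fin 6 → V))
    DFunLike.coe_injective
  refine Nat.card_le_card_of_injective (fun φ => (SimpleGraph.Copy.ofLE H K h).comp φ) ?_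
  intro φ ψ hφ
  ext v
  exact DFunLike.congr_fun hφ v

end Pool.Agent.H26.G6
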