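import Mathlib
import Pool.Agent.H26.G6TGraph

/-!
Limits of the numbers of copies of `G₆`.
-/

namespace Pool.Agent.H26.G6

open Finset Filter Topology

/-- number of automorphisms of `G₆` -/
noncomputable def cG : ℝ := (Nat.card (graphG6 ≃g graphG6) : ℝ)

lemma cG_pos : 0 < cG := by
  unfold cG
  have : Finite (graphG6 ≃g graphG6) := Finite.of_injective (fun φ => (φ : Fin 6 → Fin 6))
    DFunLike.coe_injective
  have : Nonempty (graphG6 ≃g graphG6) := ⟨SimpleGraph.Iso.refl⟩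
  exact_mod_cast Nat.card_pos

lemma labelled_eq_cG {n : ℕ} (H : SimpleGraph (Fin n)) :
    (H.labelledCopyCount graphG6 : ℝ) = cG * (numCopies H : ℝ) := by
  unfold cG numCopies
  rw [labelled_eq]
  push_cast
  ring

lemma desc_le (n : ℕ) : (n.descFactorial 6 : ℝ) ≤ (n : ℝ) ^ 6 := by
  exact_mod_cast Nat.descFactorial_le_pow n 6

lemma le_desc {n : ℕ} (hn : 5 ≤ n) : ((n : ℝ) - 5) ^ 6 ≤ (n.descFactorial 6 : ℝ) := by
  have h := Nat.pow_sub_le_descFactorial n 6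
  have h' : ((n + 1 - 6 : ℕ) : ℝ) ^ 6 ≤ (n.descFactorial 6 : ℝ) := by exact_mod_cast h
  have e : ((n + 1 - 6 : ℕ) : ℝ) = (n : ℝ) - 5 := by
    rw [Nat.cast_sub (by omega)]; push_cast; ring
  rwa [e] at h'

lemma tendsto_inv_nat : Tendsto (fun n : ℕ => 1 / (n : ℝ)) atTop (𝓝 0) :=
  tendsto_one_div_atTop_nhds_zero_nat

lemma desc_limit : Tendsto (fun n : ℕ => ((n : ℝ) ^ 6 - (n.descFactorial 6 : ℝ)) / (n : ℝ) ^ 6)
    atTop (𝓝 0) := by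
  have h1 : Tendsto (fun n : ℕ => 1 - (1 - 5 * (1 / (n : ℝ))) ^ 6) atTop (𝓝 0) := by
    have : Tendsto (fun n : ℕ => 1 - (1 - 5 * (1 / (n : ℝ))) ^ 6) atTop
        (𝓝 (1 - (1 - 5 * 0) ^ 6)) :=
      (((tendsto_inv_nat.const_mul 5).const_sub 1).pow 6).const_sub 1
    simpa using this
  refine tendsto_of_tendsto_of_tendsto_of_le_of_le' tendsto_const_nhds h1 ?_ ?_
  · filter_upwards with n
    exact div_nonneg (by linarith [desc_le n]) (by positivity)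
  · filter_upwards [eventually_ge_atTop 5] with n hn
    have hn0 : (0 : ℝ) < n := by exact_mod_cast (by omega : 0 < n)
    rw [div_le_iff₀ (by positivity)]
    have e : (1 - (1 - 5 * (1 / (n : ℝ))) ^ 6) * (n : ℝ) ^ 6 = (n : ℝ) ^ 6 - ((n : ℝ) - 5) ^ 6 := by
      field_simp
    rw [e]
    linarith [le_desc hn]

lemma tT_cont {r y b : ℕ → ℝ} {ρ υ γ : ℝ} (hr : Tendsto r atTop (𝓝 ρ))
    (hy : Tendsto y atTop (𝓝 υ)) (hb : Tendsto b atTop (𝓝 γ)) :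
    Tendsto (fun n => tT (r n) (y n) (b n)) atTop (𝓝 (tT ρ υ γ)) := by
  unfold tT
  refine Tendsto.add (Tendsto.mul (Tendsto.add ((hr.add hy).pow 3) ((hb.const_mul 2).mul
    (hr.pow 2))) (Tendsto.add (Tendsto.add ((hr.add hy).pow 3) ?_) ((hb.pow 2).mul hr)))
    (Tendsto.mul (hb.mul (hr.pow 3)) ?_)
  · exact (((hr.add hy).const_mul 2).mul hb).mul hr
  · exact (((((hr.add hy).pow 2).const_mul 2).add (((hr.add hy).const_mul 2).mul hb)).add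
      ((hb.const_mul 2).mul hr)).add (hb.pow 2)

lemma tT_scale {n : ℝ} (hn : n ≠ 0) (r y b : ℝ) :
    tT r y b / n ^ 6 = tT (r / n) (y / n) (b / n) := by
  unfold tT
  field_simp

/-- Limit of the number of labelled copies in the graphs `tGraph`. -/
lemma labelled_tGraph_tendsto {y r : ℕ → ℕ} {υ ρ : ℝ} (hyr : ∀ n, y n + r n ≤ n)
    (hy : Tendsto (fun n => (y n : ℝ) / n) atTop (𝓝 υ))
    (hr : Tendsto (fun n => (r n : ℝ) / n) atTop (𝓝 ρ)) :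
    Tendsto (fun n => ((tGraph n (y n) (r n)).labelledCopyCount graphG6 : ℝ) / (n : ℝ) ^ 6) atTop
      (𝓝 (tT ρ υ (1 - ρ - υ))) := by
  have hb : Tendsto (fun n : ℕ => 1 - (r n : ℝ) / n - (y n : ℝ) / n) atTop (𝓝 (1 - ρ - υ)) :=
    (hr.const_sub 1).sub hy
  have h1 := tT_cont hr hy hb
  have h2 : Tendsto (fun n : ℕ => tT ((r n : ℝ) / n) ((y n : ℝ) / n)
      (1 - (r n : ℝ) / n - (y n : ℝ) / n) -
      ((n : ℝ) ^ 6 - (n.descFactorial 6 : ℝ)) / (n : ℝ) ^ 6) atTop (𝓝 (tT ρ υ (1 - ρ - υ))) := by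
    have := h1.sub desc_limit
    rwa [sub_zero] at this
  have hkey : ∀ n : ℕ, 0 < n → tT ((r n : ℝ) / n) ((y n : ℝ) / n)
      (1 - (r n : ℝ) / n - (y n : ℝ) / n) = Phi (tBar n (y n) (r n)) / (n : ℝ) ^ 6 := by
    intro n hn
    have hn0 : (n : ℝ) ≠ 0 := by exact_mod_cast hn.ne'
    rw [Phi_tBar (hyr n), tT_scale hn0]
    congr 1
    field_simp
  refine tendsto_of_tendsto_of_tendsto_of_le_of_le' h2 h1 ?_ ?_
  · filter_upwards [eventually_gt_atTop 0] with n hn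
    rw [hkey n hn, ← sub_div]
    have hn0 : (0 : ℝ) < n := by exact_mod_cast hn
    apply div_le_div_of_nonneg_right _ (by positivity)
    have := (labelled_bounds (tGraph n (y n) (r n)) (tBar_nonneg n (y n) (r n))
      (tBar_le_one n (y n) (r n)) (tBar_eq_adj n (y n) (r n))).2
    rwa [Fintype.card_fin] at this
  · filter_upwards [eventually_gt_atTop 0] with n hn
    rw [hkey n hn]
    have hn0 : (0 : ℝ) < n := by exact_mod_cast hn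
    apply div_le_div_of_nonneg_right _ (by positivity)
    exact (labelled_bounds (tGraph n (y n) (r n)) (tBar_nonneg n (y n) (r n))
      (tBar_le_one n (y n) (r n)) (tBar_eq_adj n (y n) (r n))).1

/-- facts about `ex` -/
lemma ex_bdd (n e : ℕ) : BddAbove {N : ℕ | ∃ H : SimpleGraph (Fin n), H.edgeSet.ncard ≤ e ∧
    numCopies H = N} := by
  have : Finite (SimpleGraph (Fin n)) := inferInstance
  apply Set.Finite.bddAbove
  apply Set.Finite.subset (Set.finite_range (fun H : SimpleGraph (Fin n) => numCopies H))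
  rintro N ⟨H, _, rfl⟩
  exact ⟨H, rfl⟩

lemma le_ex {n e : ℕ} {H : SimpleGraph (Fin n)} (h : H.edgeSet.ncard ≤ e) :
    numCopies H ≤ ex n e := le_csSup (ex_bdd n e) ⟨H, h, rfl⟩

lemma ex_attained (n e : ℕ) : ∃ H : SimpleGraph (Fin n), H.edgeSet.ncard ≤ e ∧
    numCopies H = ex n e := by
  have : ex n e ∈ {N : ℕ | ∃ H : SimpleGraph (Fin n), H.edgeSet.ncard ≤ e ∧
    numCopies H = N} := Nat.sSup_mem ⟨_, ⊥, by simp, rfl⟩ (ex_bdd n e)
  exact this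

lemma ncard_tGraph {n y r : ℕ} (h : y + r ≤ n) :
    2 * ((tGraph n y r).edgeSet.ncard : ℝ) =
      (y : ℝ) ^ 2 + 2 * r * n - (r : ℝ) ^ 2 - r - y := by
  rw [← S1_eq, S1_tGraph h]
  ring

/-- Lower bound for `ex`. -/
lemma ex_lower {β υ ρ : ℝ} (hυ : 0 ≤ υ) (hρ : 0 ≤ ρ) (h1 : υ + ρ ≤ 1)
    (hβ : υ ^ 2 + 2 * ρ - ρ ^ 2 ≤ β) :
    ∃ f : ℕ → ℝ, Tendsto f atTop (𝓝 (tT ρ υ (1 - ρ - υ))) ∧
      ∀ n : ℕ, f n ≤ cG * (ex n ⌊β * n ^ 2 / 2⌋₊ : ℝ) / (n : ℝ) ^ 6 := by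
  have hle : ∀ n : ℕ, ⌊υ * n⌋₊ + ⌊ρ * n⌋₊ ≤ n := by
    intro n
    have a1 : ((⌊υ * n⌋₊ : ℕ) : ℝ) ≤ υ * n := Nat.floor_le (by positivity)
    have a2 : ((⌊ρ * n⌋₊ : ℕ) : ℝ) ≤ ρ * n := Nat.floor_le (by positivity)
    have : ((⌊υ * n⌋₊ + ⌊ρ * n⌋₊ : ℕ) : ℝ) ≤ n := by
      push_cast
      have : (υ + ρ) * n ≤ 1 * n := mul_le_mul_of_nonneg_right h1 (by positivity)
      linarith
    exact_mod_cast this
  have hfl : ∀ x : ℝ, 0 ≤ x → Tendsto (fun n : ℕ => (⌊x * n⌋₊ : ℝ) / n) atTop (𝓝 x) := by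
    intro x hx
    exact (tendsto_nat_floor_mul_div_atTop hx).comp tendsto_natCast_atTop_atTop
  refine ⟨fun n => ((tGraph n ⌊υ * n⌋₊ ⌊ρ * n⌋₊).labelledCopyCount graphG6 : ℝ) / (n : ℝ) ^ 6,
    labelled_tGraph_tendsto hle (hfl υ hυ) (hfl ρ hρ), ?_⟩
  intro n
  apply div_le_div_of_nonneg_right _ (by positivity)
  rw [labelled_eq_cG]
  apply mul_le_mul_of_nonneg_left _ cG_pos.le
  have : (tGraph n ⌊υ * n⌋₊ ⌊ρ * n⌋₊).edgeSet.ncard ≤ ⌊β * n ^ 2 / 2⌋₊ := by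
    apply Nat.le_floor
    have e := ncard_tGraph (hle n)
    have a1 : ((⌊υ * n⌋₊ : ℕ) : ℝ) ≤ υ * n := Nat.floor_le (by positivity)
    have a2 : ((⌊ρ * n⌋₊ : ℕ) : ℝ) ≤ ρ * n := Nat.floor_le (by positivity)
    have b1 : (0 : ℝ) ≤ (⌊υ * n⌋₊ : ℕ) := by positivity
    have b2 : (0 : ℝ) ≤ (⌊ρ * n⌋₊ : ℕ) := by positivity
    have hn : (0 : ℝ) ≤ n := by positivity
    have hρn : ρ * n ≤ n := by
      have : ρ ≤ 1 := by linarith
      calc ρ * n ≤ 1 * n := mul_le_mul_of_nonneg_right this hn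
        _ = n := one_mul _
    have c1 : ((⌊υ * n⌋₊ : ℕ) : ℝ) ^ 2 ≤ (υ * n) ^ 2 := pow_le_pow_left₀ b1 a1 2
    have c2 : 2 * ((⌊ρ * n⌋₊ : ℕ) : ℝ) * n - ((⌊ρ * n⌋₊ : ℕ) : ℝ) ^ 2 ≤
        2 * (ρ * n) * n - (ρ * n) ^ 2 := by
      nlinarith [mul_nonneg (sub_nonneg.2 a2) (sub_nonneg.2 hρn),
        mul_nonneg (sub_nonneg.2 a2) (sub_nonneg.2 (a2.trans hρn))]
    have c3 : (υ ^ 2 + 2 * ρ - ρ ^ 2) * (n : ℝ) ^ 2 ≤ β * (n : ℝ) ^ 2 :=
      mul_le_mul_of_nonneg_right hβ (by positivity)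
    linarith
  exact_mod_cast le_ex this

end Pool.Agent.H26.G6
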