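import Mathlib
import Pool.Agent.H26.G6Asymp

/-!
The limits of `ex(n, e, G₆) / n⁶`.
-/

namespace Pool.Agent.H26.G6

open Finset Filter Topology

lemma phi_bound_fin {n : ℕ} (hn : 0 < n) {β : ℝ} (hβ0 : 0 ≤ β) (hβ1 : β ≤ 1)
    (he : 1 ≤ ⌊β * n ^ 2 / 2⌋₊) :
    ∃ β' : ℝ, β ≤ β' ∧ β' ≤ β + 1 / n ∧
      (β' ≤ 1 / 25 → ∃ r y : ℝ, 0 ≤ r ∧ r ≤ 1 ∧ 0 ≤ y ∧ y ^ 2 + 2 * r - r ^ 2 = β' ∧
        cG * (ex n ⌊β * n ^ 2 / 2⌋₊ : ℝ) / (n : ℝ) ^ 6 ≤ tT r y (1 - r - y)) ∧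
      (1 / 25 ≤ β' → cG * (ex n ⌊β * n ^ 2 / 2⌋₊ : ℝ) / (n : ℝ) ^ 6 ≤ β' ^ 3) := by
  have : Nonempty (Fin n) := ⟨⟨0, hn⟩⟩
  have hn0 : (0 : ℝ) < n := by exact_mod_cast hn
  obtain ⟨e, hee⟩ : ∃ e, e = ⌊β * n ^ 2 / 2⌋₊ := ⟨_, rfl⟩
  have h1 : (e : ℝ) ≤ β * n ^ 2 / 2 := by rw [hee]; exact Nat.floor_le (by positivity)
  have h2 : β * n ^ 2 / 2 < e + 1 := by rw [hee]; exact Nat.lt_floor_add_one _
  rw [← hee] at he ⊢
  obtain ⟨H, hH1, hH2⟩ := ex_attained n e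
  obtain ⟨β', b1, b2, b3, b4⟩ := phi_bound he H hH1
  rw [Fintype.card_fin] at b1 b2 b3 b4
  have hPhi : cG * (ex n e : ℝ) ≤ Phi (adj H) := by
    rw [← hH2, ← labelled_eq_cG]
    exact labelled_le_Phi H
  refine ⟨β', ?_, ?_, ?_, ?_⟩
  · refine le_trans (le_min hβ1 ?_) b1
    rw [le_div_iff₀ (by positivity)]
    linarith
  · refine b2.trans ?_
    rw [div_le_iff₀ (by positivity)]
    have : (β + 1 / n) * (n : ℝ) ^ 2 = β * n ^ 2 + n := by field_simp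
    rw [this]
    linarith
  · intro h
    obtain ⟨r, y, c1, c2, c3, c4, c5⟩ := b3 h
    refine ⟨r, y, c1, c2, c3, c4, ?_⟩
    rw [div_le_iff₀ (by positivity)]
    linarith
  · intro h
    have := b4 h
    rw [div_le_iff₀ (by positivity)]
    linarith

lemma floor_eventually {β : ℝ} (hβ : 0 < β) : ∀ᶠ n : ℕ in atTop, 1 ≤ ⌊β * n ^ 2 / 2⌋₊ := by
  filter_upwards [eventually_ge_atTop (⌈2 / β⌉₊ + 1)] with n hn
  apply Nat.le_floor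
  have h1 : 2 / β ≤ n := by
    have : ((⌈2 / β⌉₊ + 1 : ℕ) : ℝ) ≤ n := by exact_mod_cast hn
    push_cast at this
    have := Nat.le_ceil (2 / β)
    linarith
  have h2 : (1 : ℝ) ≤ n := by exact_mod_cast (by omega : 1 ≤ n)
  rw [div_le_iff₀ hβ] at h1
  push_cast
  nlinarith

/-- Large densities. -/
theorem ex_limit_large {β : ℝ} (h0 : 1 / 25 ≤ β) (h1 : β ≤ 1) :
    Tendsto (fun n : ℕ => cG * (ex n ⌊β * n ^ 2 / 2⌋₊ : ℝ) / (n : ℝ) ^ 6) atTop (𝓝 (β ^ 3)) := by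
  have hβ : 0 < β := by linarith
  have hs : Real.sqrt β ≤ 1 := Real.sqrt_le_one.2 h1
  obtain ⟨f, f1, f2⟩ := ex_lower (β := β) (υ := Real.sqrt β) (ρ := 0) (Real.sqrt_nonneg _) le_rfl
    (by linarith) (by rw [Real.sq_sqrt hβ.le]; norm_num)
  have e1 : tT 0 (Real.sqrt β) (1 - 0 - Real.sqrt β) = β ^ 3 := by
    have : tT 0 (Real.sqrt β) (1 - 0 - Real.sqrt β) = (Real.sqrt β ^ 2) ^ 3 := by
      unfold tT; ring
    rw [this, Real.sq_sqrt hβ.le]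
  rw [e1] at f1
  have h2 : Tendsto (fun n : ℕ => (β + 1 / (n : ℝ)) ^ 3) atTop (𝓝 (β ^ 3)) := by
    have := (tendsto_inv_nat.const_add β).pow 3
    rwa [add_zero] at this
  refine tendsto_of_tendsto_of_tendsto_of_le_of_le' f1 h2 (Eventually.of_forall f2) ?_
  filter_upwards [eventually_gt_atTop 0, floor_eventually hβ] with n hn hf
  obtain ⟨β', b1, b2, _, b4⟩ := phi_bound_fin hn hβ.le h1 hf
  exact (b4 (by linarith)).trans (pow_le_pow_left₀ (by linarith) b2 3)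

/-- the function on the curve -/
noncomputable def curveF (p : ℝ × ℝ) : ℝ := tT p.1 p.2 (1 - p.1 - p.2)

lemma curveF_cont : Continuous curveF := by
  unfold curveF tT
  fun_prop

lemma curve_y_le {r y β : ℝ} (hr0 : 0 ≤ r) (hr1 : r ≤ 1) (hy : 0 ≤ y) (hβ : β ≤ 1)
    (h : y ^ 2 + 2 * r - r ^ 2 = β) : y + r ≤ 1 := by
  have h1 : y ^ 2 ≤ (1 - r) ^ 2 := by nlinarith
  have := abs_le_of_sq_le_sq h1 (by linarith)
  have := abs_le.1 this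
  linarith

/-- Small densities. -/
theorem ex_limit_small {β : ℝ} (h0 : 0 < β) (h1 : β < 1 / 25) :
    ∃ r y : ℝ, 0 ≤ r ∧ r ≤ 1 ∧ 0 ≤ y ∧ y ^ 2 + 2 * r - r ^ 2 = β ∧
      (∀ r' y' : ℝ, 0 ≤ r' → r' ≤ 1 → 0 ≤ y' → y' ^ 2 + 2 * r' - r' ^ 2 = β →
        tT r' y' (1 - r' - y') ≤ tT r y (1 - r - y)) ∧
      Tendsto (fun n : ℕ => cG * (ex n ⌊β * n ^ 2 / 2⌋₊ : ℝ) / (n : ℝ) ^ 6) atTop
        (𝓝 (tT r y (1 - r - y))) := by
  -- the compact square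
  have hK : IsCompact (Set.Icc (0 : ℝ) 1 ×ˢ Set.Icc (0 : ℝ) 1) := isCompact_Icc.prod isCompact_Icc
  have hgc : Continuous (fun p : ℝ × ℝ => p.2 ^ 2 + 2 * p.1 - p.1 ^ 2) := by fun_prop
  -- the curve
  have hS : IsCompact ((Set.Icc (0 : ℝ) 1 ×ˢ Set.Icc (0 : ℝ) 1) ∩
      {p : ℝ × ℝ | p.2 ^ 2 + 2 * p.1 - p.1 ^ 2 = β}) :=
    hK.inter_right (isClosed_eq hgc continuous_const)
  have hne : ((Set.Icc (0 : ℝ) 1 ×ˢ Set.Icc (0 : ℝ) 1) ∩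
      {p : ℝ × ℝ | p.2 ^ 2 + 2 * p.1 - p.1 ^ 2 = β}).Nonempty := by
    refine ⟨(0, Real.sqrt β), ⟨⟨le_rfl, zero_le_one⟩, Real.sqrt_nonneg _, ?_⟩, ?_⟩
    · exact Real.sqrt_le_one.2 (by linarith)
    · show Real.sqrt β ^ 2 + 2 * 0 - 0 ^ 2 = β
      rw [Real.sq_sqrt h0.le]; ring
  obtain ⟨⟨r, y⟩, ⟨⟨⟨hr0, hr1⟩, ⟨hy0, hy1⟩⟩, hry⟩, hmax⟩ := hS.exists_isMaxOn hne
    curveF_cont.continuousOn
  simp only at hr0 hr1 hy0 hy1
  have hry' : y ^ 2 + 2 * r - r ^ 2 = β := hry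
  have hmax' : ∀ r' y' : ℝ, 0 ≤ r' → r' ≤ 1 → 0 ≤ y' → y' ^ 2 + 2 * r' - r' ^ 2 = β →
      tT r' y' (1 - r' - y') ≤ tT r y (1 - r - y) := by
    intro r' y' k1 k2 k3 k4
    have := curve_y_le k1 k2 k3 (by linarith) k4
    exact hmax (show (r', y') ∈ _ from ⟨⟨⟨k1, k2⟩, ⟨k3, by
      show y' ≤ 1
      linarith⟩⟩, k4⟩)
  refine ⟨r, y, hr0, hr1, hy0, hry', hmax', ?_⟩
  obtain ⟨L, hL⟩ : ∃ L, L = tT r y (1 - r - y) := ⟨_, rfl⟩
  rw [← hL] at hmax' ⊢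
  -- points near the curve
  have hnear : ∀ ε > 0, ∃ δ > 0, ∀ r' y' : ℝ, 0 ≤ r' → r' ≤ 1 → 0 ≤ y' → y' ≤ 1 →
      |y' ^ 2 + 2 * r' - r' ^ 2 - β| < δ → tT r' y' (1 - r' - y') < L + ε := by
    intro ε hε
    have hKε : IsCompact ((Set.Icc (0 : ℝ) 1 ×ˢ Set.Icc (0 : ℝ) 1) ∩
        {p : ℝ × ℝ | L + ε ≤ curveF p}) :=
      hK.inter_right (isClosed_le continuous_const curveF_cont)
    by_cases hemp : ((Set.Icc (0 : ℝ) 1 ×ˢ Set.Icc (0 : ℝ) 1) ∩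
        {p : ℝ × ℝ | L + ε ≤ curveF p}).Nonempty
    · obtain ⟨p, ⟨⟨⟨p1, p2⟩, ⟨p3, p4⟩⟩, p5⟩, hmin⟩ := hKε.exists_isMinOn hemp
        ((hgc.sub continuous_const).abs.continuousOn :
          ContinuousOn (fun p : ℝ × ℝ => |p.2 ^ 2 + 2 * p.1 - p.1 ^ 2 - β|) _)
      have hpos : 0 < |p.2 ^ 2 + 2 * p.1 - p.1 ^ 2 - β| := by
        rw [abs_pos]
        intro hzero
        have := hmax' p.1 p.2 p1 p2 p3 (by linarith)
        have p5' : L + ε ≤ tT p.1 p.2 (1 - p.1 - p.2) := p5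
        linarith
      refine ⟨_, hpos, ?_⟩
      intro r' y' k1 k2 k3 k4 k5
      by_contra hcon
      push Not at hcon
      have := hmin (show (r', y') ∈ _ from ⟨⟨⟨k1, k2⟩, ⟨k3, k4⟩⟩, hcon⟩)
      exact absurd k5 (not_lt.2 this)
    · refine ⟨1, one_pos, ?_⟩
      intro r' y' k1 k2 k3 k4 _
      by_contra hcon
      push Not at hcon
      exact hemp ⟨(r', y'), ⟨⟨⟨k1, k2⟩, ⟨k3, k4⟩⟩, hcon⟩⟩
  obtain ⟨f, f1, f2⟩ := ex_lower (β := β) (υ := y) (ρ := r) hy0 hr0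
    (curve_y_le hr0 hr1 hy0 (by linarith) hry') hry'.le
  rw [← hL] at f1
  rw [Metric.tendsto_atTop]
  intro ε hε
  obtain ⟨δ, hδ, hd⟩ := hnear ε hε
  have ev1 : ∀ᶠ n : ℕ in atTop, 1 / (n : ℝ) < δ := tendsto_inv_nat.eventually_lt_const hδ
  have ev2 : ∀ᶠ n : ℕ in atTop, 1 / (n : ℝ) < 1 / 25 - β :=
    tendsto_inv_nat.eventually_lt_const (by linarith)
  have ev3 : ∀ᶠ n : ℕ in atTop, L - ε < f n := f1.eventually_const_lt (by linarith)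
  have ev := ((eventually_gt_atTop 0).and (floor_eventually h0)).and (ev1.and (ev2.and ev3))
  rw [eventually_atTop] at ev
  obtain ⟨N, hN⟩ := ev
  refine ⟨N, fun n hn => ?_⟩
  obtain ⟨⟨g1, g2⟩, g3, g4, g5⟩ := hN n hn
  rw [Real.dist_eq, abs_lt]
  constructor
  · linarith [f2 n]
  · obtain ⟨β', b1, b2, b3, _⟩ := phi_bound_fin g1 h0.le (by linarith) g2
    obtain ⟨r', y', c1, c2, c3, c4, c5⟩ := b3 (by linarith)
    have hn0 : (0 : ℝ) < 1 / (n : ℝ) := by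
      have : (0 : ℝ) < n := by exact_mod_cast g1
      positivity
    have hy' := curve_y_le c1 c2 c3 (by linarith) c4
    have := hd r' y' c1 c2 c3 (by linarith) (by
      rw [c4, abs_lt]; constructor <;> linarith)
    linarith

/-- The maximum on the curve is larger than the value of the clique. -/
lemma exists_better {β : ℝ} (h0 : 0 < β) (h1 : β < 1 / 25) :
    ∃ r y : ℝ, 0 ≤ r ∧ r ≤ 1 ∧ 0 ≤ y ∧ y ^ 2 + 2 * r - r ^ 2 = β ∧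
      β ^ 3 < tT r y (1 - r - y) := by
  have hs0 : 0 < Real.sqrt β := Real.sqrt_pos.2 h0
  have hs1 : Real.sqrt β < 1 / 5 := by
    rw [Real.sqrt_lt' (by norm_num)]
    norm_num
    linarith
  have hcont : Continuous (fun r : ℝ => (r + Real.sqrt (β - 2 * r + r ^ 2)) ^ 3 *
      (1 - r - Real.sqrt (β - 2 * r + r ^ 2)) - 4 * (r + Real.sqrt (β - 2 * r + r ^ 2)) ^ 4 -
      12 * (r + Real.sqrt (β - 2 * r + r ^ 2)) ^ 2 *
        ((1 - r - Real.sqrt (β - 2 * r + r ^ 2)) * r) -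
      8 * ((1 - r - Real.sqrt (β - 2 * r + r ^ 2)) * r) ^ 2) := by
    fun_prop
  have hpos : 0 < (fun r : ℝ => (r + Real.sqrt (β - 2 * r + r ^ 2)) ^ 3 *
      (1 - r - Real.sqrt (β - 2 * r + r ^ 2)) - 4 * (r + Real.sqrt (β - 2 * r + r ^ 2)) ^ 4 -
      12 * (r + Real.sqrt (β - 2 * r + r ^ 2)) ^ 2 *
        ((1 - r - Real.sqrt (β - 2 * r + r ^ 2)) * r) -
      8 * ((1 - r - Real.sqrt (β - 2 * r + r ^ 2)) * r) ^ 2) 0 := by
    simp only [mul_zero, sub_zero, zero_add, ne_eq, OfNat.ofNat_ne_zero, not_false_eq_true,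
      zero_pow, add_zero]
    have : 0 < Real.sqrt β ^ 3 * (1 - 5 * Real.sqrt β) := by
      apply mul_pos (by positivity) (by linarith)
    nlinarith
  have hev := (hcont.tendsto 0).eventually_const_lt hpos
  have hev2 : ∀ᶠ r : ℝ in 𝓝 0, r < β / 2 := eventually_lt_nhds (by linarith)
  have hev3 : ∀ᶠ r : ℝ in 𝓝[>] 0, 0 < r := eventually_mem_nhdsWithin
  obtain ⟨r, ⟨k1, k2⟩, k3⟩ := (((hev.and hev2).filter_mono nhdsWithin_le_nhds).and hev3).exists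
  have hb : 0 ≤ β - 2 * r + r ^ 2 := by nlinarith [sq_nonneg r]
  obtain ⟨y, hy⟩ : ∃ y, y = Real.sqrt (β - 2 * r + r ^ 2) := ⟨_, rfl⟩
  have hy2 : y ^ 2 = β - 2 * r + r ^ 2 := by rw [hy, Real.sq_sqrt hb]
  have hy0 : 0 ≤ y := by rw [hy]; exact Real.sqrt_nonneg _
  rw [← hy] at k1
  have hr1 : r ≤ 1 := by linarith
  have hyr : y + r ≤ 1 := curve_y_le k3.le hr1 hy0 (by linarith : β ≤ 1) (by linarith)
  refine ⟨r, y, k3.le, hr1, hy0, by linarith, ?_⟩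
  obtain ⟨k, hk⟩ : ∃ k, k = r + y := ⟨_, rfl⟩
  obtain ⟨b, hbb⟩ : ∃ b, b = 1 - r - y := ⟨_, rfl⟩
  rw [← hk, ← hbb] at k1
  rw [← hbb]
  have hk0 : 0 < k := by rw [hk]; linarith
  have hb0 : 0 ≤ b := by rw [hbb]; linarith
  have hβ : β = k ^ 2 + 2 * (b * r) := by
    have e : k ^ 2 + 2 * (b * r) = y ^ 2 + 2 * r - r ^ 2 := by rw [hk, hbb]; ring
    rw [e, hy2]; ring
  have hE0 : 0 < b * r := by
    rcases hb0.eq_or_lt with h | h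
    · exfalso
      rw [← h] at k1
      have : 0 < k ^ 4 := by positivity
      nlinarith
    · positivity
  have e1 : tT r y b = k ^ 3 * (k ^ 3 + 2 * k * (b * r) + b * (b * r)) +
      (2 * b * r ^ 2 * (k ^ 3 + 2 * k * (b * r) + b * (b * r)) +
        b * r ^ 3 * (2 * k ^ 2 + 2 * k * b + 2 * b * r + b ^ 2)) := by
    unfold tT; rw [← hk]; ring
  have e2 : 0 ≤ 2 * b * r ^ 2 * (k ^ 3 + 2 * k * (b * r) + b * (b * r)) +
        b * r ^ 3 * (2 * k ^ 2 + 2 * k * b + 2 * b * r + b ^ 2) := by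
    have := k3.le
    positivity
  have e3 : 0 < (b * r) * (k ^ 3 * b - 4 * k ^ 4 - 12 * k ^ 2 * (b * r) - 8 * (b * r) ^ 2) :=
    mul_pos hE0 k1
  rw [e1, hβ]
  nlinarith

/-- The quasi-star is worse than the clique for small densities. -/
lemma star_le {r β : ℝ} (hr0 : 0 ≤ r) (hr1 : r ≤ 1) (h1 : β ≤ 1 / 25)
    (h : 2 * r - r ^ 2 = β) : tT r 0 (1 - r) ≤ β ^ 3 := by
  have hr : r ≤ 1 / 25 := by nlinarith
  rw [← h]
  have e : (2 * r - r ^ 2) ^ 3 - tT r 0 (1 - r) = r ^ 3 * (5 - 12 * r + 9 * r ^ 2 - 2 * r ^ 3) := by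
    unfold tT; ring
  have : 0 ≤ r ^ 3 * (5 - 12 * r + 9 * r ^ 2 - 2 * r ^ 3) := by
    apply mul_nonneg (by positivity)
    have : r ^ 3 ≤ r := by nlinarith [mul_nonneg hr0 hr0]
    nlinarith [sq_nonneg r]
  linarith

/-- For large densities the other graphs are worse than the clique. -/
lemma large_lt {r y β : ℝ} (hr0 : 0 < r) (hy : 0 ≤ y) (hb : r + y < 1) (h1 : 1 / 25 ≤ β)
    (h : y ^ 2 + 2 * r - r ^ 2 = β) : tT r y (1 - r - y) < β ^ 3 := by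
  obtain ⟨b, hbb⟩ : ∃ b, b = 1 - r - y := ⟨_, rfl⟩
  rw [← hbb]
  have hb0 : 0 < b := by rw [hbb]; linarith
  have hβ : β = (r + y) ^ 2 + 2 * (b * r) := by rw [← h, hbb]; ring
  have hs : 0 < r + y := by linarith
  have key := clique_region (s := r + y) (a := b) (E := b * r) (M := b * r ^ 2)
    (m := b ^ 2 * r) hs hb0.le (by positivity) (by positivity)
    (by
      have : 0 ≤ b * r * y := by positivity
      nlinarith)
    (by nlinarith)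
    (by
      have : r + y + b = 1 := by rw [hbb]; ring
      rw [this, ← hβ]; linarith)
  have hE : 0 < (b * r) ^ 3 := by positivity
  have e : ((r + y) ^ 3 + 3 * (b * r ^ 2)) * ((r + y) ^ 3 + 2 * (r + y) * (b * r) + b ^ 2 * r) +
      (r + y) ^ 3 * (b * r ^ 2) + 2 * (b * r ^ 2) ^ 2 - tT r y b =
      2 * b * r ^ 2 * (r + y) ^ 2 * y := by
    unfold tT; ring
  have e2 : 0 ≤ 2 * b * r ^ 2 * (r + y) ^ 2 * y := by positivity
  rw [hβ]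
  linarith

end Pool.Agent.H26.G6
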