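import Mathlib
import Pool.Agent.H26.G6Limit

/-!
Asymptotic maximisers for `G₆`.
-/

namespace Pool.Agent.H26.G6

open Finset Filter Topology Asymptotics

/-- limits from the roundings -/
lemma tendsto_of_round {x : ℕ → ℕ} {υ C : ℝ} (h : ∀ n, |(x n : ℝ) - υ * n| ≤ C) :
    Tendsto (fun n => (x n : ℝ) / n) atTop (𝓝 υ) := by
  have h1 : Tendsto (fun n : ℕ => υ - C * (1 / (n : ℝ))) atTop (𝓝 υ) := by
    have := (tendsto_inv_nat.const_mul C).const_sub υ
    rwa [mul_zero, sub_zero] at this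
  have h2 : Tendsto (fun n : ℕ => υ + C * (1 / (n : ℝ))) atTop (𝓝 υ) := by
    have := (tendsto_inv_nat.const_mul C).const_add υ
    rwa [mul_zero, add_zero] at this
  refine tendsto_of_tendsto_of_tendsto_of_le_of_le' h1 h2 ?_ ?_
  · filter_upwards [eventually_gt_atTop 0] with n hn
    have hn0 : (0 : ℝ) < n := by exact_mod_cast hn
    rw [le_div_iff₀ hn0]
    have e : (υ - C * (1 / (n : ℝ))) * n = υ * n - C := by field_simp
    rw [e]
    linarith [(abs_le.1 (h n)).1]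
  · filter_upwards [eventually_gt_atTop 0] with n hn
    have hn0 : (0 : ℝ) < n := by exact_mod_cast hn
    rw [div_le_iff₀ hn0]
    have e : (υ + C * (1 / (n : ℝ))) * n = υ * n + C := by field_simp
    rw [e]
    linarith [(abs_le.1 (h n)).2]

/-- parameters of `T(t)` -/
lemma T_param {β t : ℝ} (h0 : 0 ≤ β) (h1 : β ≤ 1) (ht0 : 0 ≤ t) (ht1 : t ≤ 1) :
    0 ≤ Real.sqrt β * t ∧ 0 ≤ 1 - Real.sqrt (1 - β * (1 - t ^ 2)) ∧
      1 - Real.sqrt (1 - β * (1 - t ^ 2)) ≤ 1 ∧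
      (Real.sqrt β * t) ^ 2 + 2 * (1 - Real.sqrt (1 - β * (1 - t ^ 2))) -
        (1 - Real.sqrt (1 - β * (1 - t ^ 2))) ^ 2 = β := by
  have ht2 : t ^ 2 ≤ 1 := by nlinarith
  have hnn : 0 ≤ β * (1 - t ^ 2) := mul_nonneg h0 (by linarith)
  have hle : β * (1 - t ^ 2) ≤ 1 := by nlinarith [sq_nonneg t]
  have hsq := Real.sq_sqrt (by linarith : 0 ≤ 1 - β * (1 - t ^ 2))
  refine ⟨by positivity, ?_, ?_, ?_⟩
  · have : Real.sqrt (1 - β * (1 - t ^ 2)) ≤ 1 := Real.sqrt_le_one.2 (by linarith)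
    linarith
  · linarith [Real.sqrt_nonneg (1 - β * (1 - t ^ 2))]
  · rw [mul_pow, Real.sq_sqrt h0]
    nlinarith

/-- Edge densities of the graphs `T(t)`. -/
lemma T_density {β υ ρ : ℝ} {y r : ℕ → ℕ} (hυ0 : 0 ≤ υ) (hρ0 : 0 ≤ ρ) (hυ1 : υ ≤ 1) (hρ1 : ρ ≤ 1)
    (hβ : υ ^ 2 + 2 * ρ - ρ ^ 2 = β)
    (hy : ∀ n, |(y n : ℝ) - υ * n| ≤ 1) (hr : ∀ n, |(r n : ℝ) - ρ * n| ≤ 1)
    (hyr : ∀ n, y n + r n ≤ n) :
    ∃ C : ℝ, ∀ n, |2 * ((tGraph n (y n) (r n)).edgeSet.ncard : ℝ) - β * n ^ 2| ≤ C * n := by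
  refine ⟨8, fun n => ?_⟩
  rw [ncard_tGraph (hyr n)]
  have hn : (0 : ℝ) ≤ n := by positivity
  have a1 := abs_le.1 (hy n)
  have a2 := abs_le.1 (hr n)
  have b0 : (0 : ℝ) ≤ y n := by positivity
  have c0 : (0 : ℝ) ≤ r n := by positivity
  have hyr' : (y n : ℝ) + r n ≤ n := by exact_mod_cast hyr n
  have b1 : υ * n ≤ n := by
    calc υ * n ≤ 1 * n := mul_le_mul_of_nonneg_right hυ1 hn
      _ = n := one_mul _
  have c1 : ρ * n ≤ n := by
    calc ρ * n ≤ 1 * n := mul_le_mul_of_nonneg_right hρ1 hn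
      _ = n := one_mul _
  have b2 : 0 ≤ υ * n := by positivity
  have c2 : 0 ≤ ρ * n := by positivity
  have e : (y n : ℝ) ^ 2 + 2 * (r n : ℝ) * n - (r n : ℝ) ^ 2 - r n - y n - β * (n : ℝ) ^ 2 =
      ((y n : ℝ) - υ * n) * (y n + υ * n) + ((r n : ℝ) - ρ * n) * (2 * n) -
        ((r n : ℝ) - ρ * n) * (r n + ρ * n) - (r n + y n) := by
    rw [← hβ]; ring
  rw [e]
  have d1 : |((y n : ℝ) - υ * n) * (y n + υ * n)| ≤ 1 * (2 * n) := by
    rw [abs_mul]
    apply mul_le_mul (hy n) _ (abs_nonneg _) (by norm_num)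
    rw [abs_of_nonneg (by positivity)]
    linarith
  have d2 : |((r n : ℝ) - ρ * n) * (2 * n)| ≤ 1 * (2 * n) := by
    rw [abs_mul]
    apply mul_le_mul (hr n) _ (abs_nonneg _) (by norm_num)
    rw [abs_of_nonneg (by positivity)]
  have d3 : |((r n : ℝ) - ρ * n) * (r n + ρ * n)| ≤ 1 * (2 * n) := by
    rw [abs_mul]
    apply mul_le_mul (hr n) _ (abs_nonneg _) (by norm_num)
    rw [abs_of_nonneg (by positivity)]
    linarith
  rw [abs_le] at d1 d2 d3 ⊢
  constructor <;> linarith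

/-- From limits to equivalence. -/
lemma equiv_of_limits {u v : ℕ → ℝ} {ℓ : ℝ} (hℓ : 0 < ℓ)
    (hu : Tendsto (fun n : ℕ => cG * u n / (n : ℝ) ^ 6) atTop (𝓝 ℓ))
    (hv : Tendsto (fun n : ℕ => cG * v n / (n : ℝ) ^ 6) atTop (𝓝 ℓ)) : u ~[atTop] v := by
  have hv0 : ∀ᶠ n : ℕ in atTop, 0 < cG * v n / (n : ℝ) ^ 6 := hv.eventually_const_lt hℓ
  have hv1 : ∀ᶠ n : ℕ in atTop, v n ≠ 0 := by
    filter_upwards [hv0] with n hn h
    rw [h, mul_zero, zero_div] at hn
    exact lt_irrefl _ hn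
  rw [isEquivalent_iff_tendsto_one hv1]
  have h1 : Tendsto (fun n : ℕ => (cG * u n / (n : ℝ) ^ 6) / (cG * v n / (n : ℝ) ^ 6)) atTop
      (𝓝 1) := by
    have := hu.div hv hℓ.ne'
    rwa [div_self hℓ.ne'] at this
  refine h1.congr' ?_
  filter_upwards [hv1, eventually_gt_atTop 0] with n hn hn0
  have : (n : ℝ) ≠ 0 := by exact_mod_cast hn0.ne'
  have := cG_pos.ne'
  rw [Pi.div_apply]
  field_simp

/-- From different limits to non-equivalence. -/
lemma not_equiv_of_limits {u v : ℕ → ℝ} {ℓ ℓ' : ℝ} (hℓ : 0 < ℓ) (hne : ℓ' ≠ ℓ)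
    (hu : Tendsto (fun n : ℕ => cG * u n / (n : ℝ) ^ 6) atTop (𝓝 ℓ'))
    (hv : Tendsto (fun n : ℕ => cG * v n / (n : ℝ) ^ 6) atTop (𝓝 ℓ)) : ¬ u ~[atTop] v := by
  intro h
  have hv0 : ∀ᶠ n : ℕ in atTop, 0 < cG * v n / (n : ℝ) ^ 6 := hv.eventually_const_lt hℓ
  have hv1 : ∀ᶠ n : ℕ in atTop, v n ≠ 0 := by
    filter_upwards [hv0] with n hn h
    rw [h, mul_zero, zero_div] at hn
    exact lt_irrefl _ hn
  rw [isEquivalent_iff_tendsto_one hv1] at h
  have h1 : Tendsto (fun n : ℕ => (u / v) n * (cG * v n / (n : ℝ) ^ 6)) atTop (𝓝 (1 * ℓ)) :=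
    h.mul hv
  rw [one_mul] at h1
  have h2 : Tendsto (fun n : ℕ => cG * u n / (n : ℝ) ^ 6) atTop (𝓝 ℓ) := by
    refine h1.congr' ?_
    filter_upwards [hv1, eventually_gt_atTop 0] with n hn hn0
    have : (n : ℝ) ≠ 0 := by exact_mod_cast hn0.ne'
    rw [Pi.div_apply]
    field_simp
  exact hne (tendsto_nhds_unique hu h2)

/-- limit for `T(t)` -/
lemma T_limit {β t : ℝ} {y r : ℕ → ℕ} (h : TSizes β t y r) :
    Tendsto (fun n : ℕ => cG * (numCopies (tGraph n (y n) (r n)) : ℝ) / (n : ℝ) ^ 6) atTop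
      (𝓝 (tT (1 - Real.sqrt (1 - β * (1 - t ^ 2))) (Real.sqrt β * t)
        (1 - (1 - Real.sqrt (1 - β * (1 - t ^ 2))) - Real.sqrt β * t))) := by
  have := labelled_tGraph_tendsto (fun n => (h n).2.2)
    (tendsto_of_round (fun n => (h n).1)) (tendsto_of_round (fun n => (h n).2.1))
  simp only [labelled_eq_cG] at this
  exact this

/-- Quasi-cliques are between two graphs `tGraph`. -/
lemma quasi_le {n a b : ℕ} (hab : b < a) : tGraph n a 0 ≤ quasiClique n a b ∧
    quasiClique n a b ≤ tGraph n (min (a + 1) n) 0 := by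
  constructor
  · intro i j h
    obtain ⟨h1, h2⟩ := h
    exact ⟨h1, Or.inl (by omega)⟩
  · intro i j h
    obtain ⟨h1, h2⟩ := h
    have := i.isLt
    have := j.isLt
    exact ⟨h1, Or.inr (Or.inr (by omega))⟩

/-- `a n ≤ n` for quasi-cliques. -/
lemma K_le {n a b : ℕ} (hn : 0 < n) (h : a.choose 2 + b ≤ n.choose 2) : a ≤ n := by
  by_contra hcon
  push Not at hcon
  have h1 : (n + 1).choose 2 ≤ a.choose 2 := Nat.choose_le_choose 2 hcon
  have h2 : (n + 1).choose 2 = n + n.choose 2 := by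
    rw [Nat.choose_succ_succ' n 1, Nat.choose_one_right]
  omega

lemma choose_two_cast (a : ℕ) : 2 * ((a.choose 2 : ℕ) : ℝ) = (a : ℝ) ^ 2 - a := by
  rw [Nat.cast_choose_two]; ring

lemma ncard_mono {n : ℕ} {H K : SimpleGraph (Fin n)} (h : H ≤ K) :
    (H.edgeSet.ncard : ℝ) ≤ K.edgeSet.ncard := by
  have : H.edgeSet.ncard ≤ K.edgeSet.ncard :=
    Set.ncard_le_ncard (SimpleGraph.edgeSet_mono h) (Set.toFinite _)
  exact_mod_cast this

lemma K_density {β : ℝ} {a b : ℕ → ℕ} (h : KSizes β a b) :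
    ∃ C : ℝ, ∀ n, |2 * ((quasiClique n (a n) (b n)).edgeSet.ncard : ℝ) - β * n ^ 2| ≤ C * n := by
  obtain ⟨h1, C, hC⟩ := h
  refine ⟨C + 4, fun n => ?_⟩
  rcases Nat.eq_zero_or_pos n with h0 | h0
  · subst h0
    have : (quasiClique 0 (a 0) (b 0)).edgeSet.ncard = 0 := by
      have : (quasiClique 0 (a 0) (b 0)) = ⊥ := by ext i; exact i.elim0
      rw [this]; simp
    rw [this]
    simp
  · obtain ⟨h2, h3⟩ := h1 n
    have han : a n ≤ n := K_le h0 h3
    have q := quasi_le (n := n) h2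
    have e1 := ncard_mono q.1
    have e2 := ncard_mono q.2
    have f1 := ncard_tGraph (n := n) (y := a n) (r := 0) (by omega)
    have f2 := ncard_tGraph (n := n) (y := min (a n + 1) n) (r := 0) (by omega)
    have hm : ((min (a n + 1) n : ℕ) : ℝ) ≤ a n + 1 := by
      exact_mod_cast (min_le_left (a n + 1) n)
    have hm0 : (0 : ℝ) ≤ ((min (a n + 1) n : ℕ) : ℝ) := by positivity
    have hm1 : (1 : ℝ) ≤ ((min (a n + 1) n : ℕ) : ℝ) := by
      exact_mod_cast (le_min (by omega) h0 : 1 ≤ min (a n + 1) n)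
    push_cast at f1 f2
    have g := hC n
    have hc := choose_two_cast (a n)
    push_cast at g
    have hb : (b n : ℝ) ≤ a n := by exact_mod_cast h2.le
    have hb0 : (0 : ℝ) ≤ b n := by positivity
    have han' : (a n : ℝ) ≤ n := by exact_mod_cast han
    have hmm : ((min (a n + 1) n : ℕ) : ℝ) ^ 2 - ((min (a n + 1) n : ℕ) : ℝ) ≤
        (a n : ℝ) ^ 2 + a n := by
      push_cast at hm hm1 ⊢
      nlinarith
    rw [abs_le] at g ⊢
    push_cast at hmm
    constructor <;> nlinarith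

lemma K_tendsto {β : ℝ} {a b : ℕ → ℕ} (h : KSizes β a b) :
    Tendsto (fun n => (a n : ℝ) / n) atTop (𝓝 (Real.sqrt β)) := by
  obtain ⟨h1, C, hC⟩ := h
  have key : Tendsto (fun n => ((a n : ℝ) / n) ^ 2) atTop (𝓝 β) := by
    have l1 : Tendsto (fun n : ℕ => β - (C + 1) * (1 / (n : ℝ))) atTop (𝓝 β) := by
      have := (tendsto_inv_nat.const_mul (C + 1)).const_sub β
      rwa [mul_zero, sub_zero] at this
    have l2 : Tendsto (fun n : ℕ => β + (C + 1) * (1 / (n : ℝ))) atTop (𝓝 β) := by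
      have := (tendsto_inv_nat.const_mul (C + 1)).const_add β
      rwa [mul_zero, add_zero] at this
    refine tendsto_of_tendsto_of_tendsto_of_le_of_le' l1 l2 ?_ ?_
    · filter_upwards [eventually_gt_atTop 0] with n hn
      obtain ⟨h2, h3⟩ := h1 n
      have hn0 : (0 : ℝ) < n := by exact_mod_cast hn
      have han : (a n : ℝ) ≤ n := by exact_mod_cast K_le hn h3
      have hb : (b n : ℝ) ≤ a n := by exact_mod_cast h2.le
      have g := (abs_le.1 (hC n)).1
      have hc := choose_two_cast (a n)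
      push_cast at g
      rw [div_pow, le_div_iff₀ (by positivity)]
      have e : (β - (C + 1) * (1 / (n : ℝ))) * (n : ℝ) ^ 2 = β * n ^ 2 - (C + 1) * n := by
        field_simp
      rw [e]
      linarith
    · filter_upwards [eventually_gt_atTop 0] with n hn
      obtain ⟨h2, h3⟩ := h1 n
      have hn0 : (0 : ℝ) < n := by exact_mod_cast hn
      have han : (a n : ℝ) ≤ n := by exact_mod_cast K_le hn h3
      have hb : (0 : ℝ) ≤ b n := by positivity
      have g := (abs_le.1 (hC n)).2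
      have hc := choose_two_cast (a n)
      push_cast at g
      rw [div_pow, div_le_iff₀ (by positivity)]
      have e : (β + (C + 1) * (1 / (n : ℝ))) * (n : ℝ) ^ 2 = β * n ^ 2 + (C + 1) * n := by
        field_simp
      rw [e]
      linarith
  have := (Real.continuous_sqrt.tendsto β).comp key
  refine this.congr ?_
  intro n
  simp only [Function.comp_apply]
  rw [Real.sqrt_sq (by positivity)]

/-- limit for quasi-cliques -/
lemma K_limit {β : ℝ} (hβ : 0 ≤ β) {a b : ℕ → ℕ} (h : KSizes β a b) :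
    Tendsto (fun n : ℕ => cG * (numCopies (quasiClique n (a n) (b n)) : ℝ) / (n : ℝ) ^ 6) atTop
      (𝓝 (β ^ 3)) := by
  have e1 : tT 0 (Real.sqrt β) (1 - 0 - Real.sqrt β) = β ^ 3 := by
    have : tT 0 (Real.sqrt β) (1 - 0 - Real.sqrt β) = (Real.sqrt β ^ 2) ^ 3 := by
      unfold tT; ring
    rw [this, Real.sq_sqrt hβ]
  have hK := K_tendsto h
  have h0 : Tendsto (fun n : ℕ => ((0 : ℕ) : ℝ) / (n : ℝ)) atTop (𝓝 0) := by simp
  obtain ⟨h1, C, hC⟩ := h
  -- lower sequence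
  have l1 : Tendsto (fun n => ((min (a n) n : ℕ) : ℝ) / n) atTop (𝓝 (Real.sqrt β)) := by
    refine hK.congr' ?_
    filter_upwards [eventually_gt_atTop 0] with n hn
    rw [min_eq_left (K_le hn (h1 n).2)]
  have l2 : Tendsto (fun n => ((min (a n + 1) n : ℕ) : ℝ) / n) atTop (𝓝 (Real.sqrt β)) := by
    have u2 : Tendsto (fun n => (a n : ℝ) / n + 1 / n) atTop (𝓝 (Real.sqrt β)) := by
      have := hK.add tendsto_inv_nat
      rwa [add_zero] at this
    refine tendsto_of_tendsto_of_tendsto_of_le_of_le' hK u2 ?_ ?_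
    · filter_upwards [eventually_gt_atTop 0] with n hn
      have hn0 : (0 : ℝ) < n := by exact_mod_cast hn
      apply div_le_div_of_nonneg_right _ hn0.le
      exact_mod_cast le_min (Nat.le_succ _) (K_le hn (h1 n).2)
    · filter_upwards [eventually_gt_atTop 0] with n hn
      have hn0 : (0 : ℝ) < n := by exact_mod_cast hn
      rw [← add_div]
      apply div_le_div_of_nonneg_right _ hn0.le
      exact_mod_cast min_le_left _ _
  have m1 := labelled_tGraph_tendsto (y := fun n => min (a n) n) (r := fun _ => 0)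
    (fun n => by simp) l1 h0
  have m2 := labelled_tGraph_tendsto (y := fun n => min (a n + 1) n) (r := fun _ => 0)
    (fun n => by simp) l2 h0
  rw [e1] at m1 m2
  refine tendsto_of_tendsto_of_tendsto_of_le_of_le' m1 m2 ?_ ?_
  · filter_upwards [eventually_gt_atTop 0] with n hn
    rw [← labelled_eq_cG]
    apply div_le_div_of_nonneg_right _ (by positivity)
    rw [min_eq_left (K_le hn (h1 n).2)]
    exact_mod_cast copyCount_mono (quasi_le (n := n) (h1 n).1).1
  · filter_upwards [eventually_gt_atTop 0] with n hn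
    rw [← labelled_eq_cG]
    apply div_le_div_of_nonneg_right _ (by positivity)
    exact_mod_cast copyCount_mono (quasi_le (n := n) (h1 n).1).2

/-- (b) -/
theorem quasi_clique_large {β : ℝ} (h0 : 1 / 25 ≤ β) (h1 : β ≤ 1) {a b : ℕ → ℕ}
    (h : KSizes β a b) : IsAsymptoticMaximiser β (fun n => quasiClique n (a n) (b n)) := by
  have hβ : 0 < β := by linarith
  exact ⟨K_density h, equiv_of_limits (by positivity) (K_limit hβ.le h) (ex_limit_large h0 h1)⟩

/-- (c) -/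
theorem quasi_clique_small {β : ℝ} (h0 : 0 < β) (h1 : β < 1 / 25) {a b : ℕ → ℕ}
    (h : KSizes β a b) : ¬ IsAsymptoticMaximiser β (fun n => quasiClique n (a n) (b n)) := by
  rintro ⟨_, hE⟩
  obtain ⟨r, y, _, _, _, _, hmax, hlim⟩ := ex_limit_small h0 h1
  obtain ⟨r', y', k1, k2, k3, k4, k5⟩ := exists_better h0 h1
  have hL := hmax r' y' k1 k2 k3 k4
  have hpos : 0 < β ^ 3 := by positivity
  exact not_equiv_of_limits (by linarith) (by linarith : β ^ 3 < _).ne (K_limit h0.le h) hlim hE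

/-- (d) -/
theorem T_large {β t : ℝ} (h0 : 1 / 25 ≤ β) (h1 : β < 1) (ht0 : 0 < t) (ht1 : t < 1)
    {y r : ℕ → ℕ} (h : TSizes β t y r) :
    ¬ IsAsymptoticMaximiser β (fun n => tGraph n (y n) (r n)) := by
  rintro ⟨_, hE⟩
  have hβ : 0 < β := by linarith
  obtain ⟨p1, p2, p3, p4⟩ := T_param hβ.le h1.le ht0.le ht1.le
  have ht2 : t ^ 2 < 1 := by nlinarith
  have hr : 0 < 1 - Real.sqrt (1 - β * (1 - t ^ 2)) := by
    have : Real.sqrt (1 - β * (1 - t ^ 2)) < 1 := by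
      rw [Real.sqrt_lt' one_pos]
      have : 0 < β * (1 - t ^ 2) := mul_pos hβ (by linarith)
      linarith
    linarith
  have hb : 1 - Real.sqrt (1 - β * (1 - t ^ 2)) + Real.sqrt β * t < 1 := by
    have : Real.sqrt β * t < Real.sqrt (1 - β * (1 - t ^ 2)) := by
      rw [Real.lt_sqrt p1, mul_pow, Real.sq_sqrt hβ.le]
      linarith
    linarith
  have := large_lt hr p1 hb h0 p4
  have hpos : 0 < β ^ 3 := by positivity
  exact not_equiv_of_limits hpos this.ne (T_limit h) (ex_limit_large h0 h1.le) hE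

/-- no copies when there are no edges -/
lemma labelled_zero {n : ℕ} {H : SimpleGraph (Fin n)}
    (h : ∀ i j k, H.Adj i j → H.Adj i k → H.Adj j k → False) : numCopies H = 0 := by
  have e1 : (H.labelledCopyCount graphG6 : ℝ) = 0 := by
    classical
    rw [labelled_eq_sum]
    apply sum_eq_zero
    intro f _
    rcases wt_adj H f with h' | h'
    · exfalso
      have := wt_adj_eq_one.1 h'
      have g : ∀ i j : Fin 6, i ≠ j → (s(i, j) : Sym2 (Fin 6)) ∈
          ({s(0, 1), s(0, 2), s(1, 2), s(2, 3), s(3, 4), s(3, 5)} : Set (Sym2 (Fin 6))) →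
          H.Adj (f i) (f j) := by
        intro i j hij hmem
        apply this
        unfold graphG6
        rw [SimpleGraph.fromEdgeSet_adj]
        exact ⟨hmem, hij⟩
      exact h (f 0) (f 1) (f 2) (g 0 1 (by decide) (by simp)) (g 0 2 (by decide) (by simp))
        (g 1 2 (by decide) (by simp))
    · exact h'
  rw [labelled_eq_cG] at e1
  have := mul_eq_zero.1 e1
  rcases this with h' | h'
  · exact absurd h' cG_pos.ne'
  · exact_mod_cast h'

/-- (a) -/
theorem T_small {β : ℝ} (h0 : 0 ≤ β) (h1 : β < 1 / 25) :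
    ∃ t : ℝ, 0 < t ∧ t < 1 ∧ ∀ y r : ℕ → ℕ, TSizes β t y r →
      IsAsymptoticMaximiser β (fun n => tGraph n (y n) (r n)) := by
  rcases h0.eq_or_lt with h0' | h0'
  · -- density zero
    subst h0'
    refine ⟨1 / 2, by norm_num, by norm_num, fun y r h => ?_⟩
    obtain ⟨p1, p2, p3, p4⟩ := T_param (β := 0) (t := 1 / 2) le_rfl (by norm_num) (by norm_num)
      (by norm_num)
    have hs1 : Real.sqrt 0 * (1 / 2) ≤ 1 := by simp
    refine ⟨T_density p1 p2 hs1 p3 p4 (fun n => (h n).1) (fun n => (h n).2.1)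
      (fun n => (h n).2.2), ?_⟩
    have e1 : (fun n => (numCopies (tGraph n (y n) (r n)) : ℝ)) = fun _ => 0 := by
      funext n
      obtain ⟨h2, h3, h4⟩ := h n
      have hy : y n ≤ 1 := by
        rw [Real.sqrt_zero, zero_mul, zero_mul, sub_zero, abs_le] at h2
        exact_mod_cast h2.2
      have hr : r n ≤ 1 := by
        rw [zero_mul, sub_zero, Real.sqrt_one, sub_self, zero_mul, sub_zero, abs_le] at h3
        exact_mod_cast h3.2
      rw [labelled_zero]
      · norm_num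
      · rintro i j k ⟨a1, a2⟩ ⟨a3, a4⟩ ⟨a5, a6⟩
        have b1 : (i : ℕ) ≠ j := fun h => a1 (Fin.ext h)
        have b2 : (i : ℕ) ≠ k := fun h => a3 (Fin.ext h)
        have b3 : (j : ℕ) ≠ k := fun h => a5 (Fin.ext h)
        omega
    have e2 : (fun n : ℕ => (ex n ⌊(0 : ℝ) * n ^ 2 / 2⌋₊ : ℝ)) = fun _ => 0 := by
      funext n
      have : ⌊(0 : ℝ) * n ^ 2 / 2⌋₊ = 0 := by simp
      rw [this]
      obtain ⟨H, hH1, hH2⟩ := ex_attained n 0
      rw [← hH2, labelled_zero]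
      · norm_num
      · intro i j k a1 _ _
        have hc : H.edgeSet.ncard = 0 := by omega
        rw [Set.ncard_eq_zero (Set.toFinite _)] at hc
        have : s(i, j) ∈ H.edgeSet := a1
        rw [hc] at this
        exact this
    rw [e1, e2]
  · obtain ⟨r, y, hr0, hr1, hy0, hry, hmax, hlim⟩ := ex_limit_small h0' h1
    obtain ⟨r', y', k1, k2, k3, k4, k5⟩ := exists_better h0' h1
    have hL : β ^ 3 < tT r y (1 - r - y) := k5.trans_le (hmax r' y' k1 k2 k3 k4)
    have hβ3 : 0 < β ^ 3 := by positivity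
    have hr : 0 < r := by
      rcases hr0.eq_or_lt with h | h
      · exfalso
        rw [← h] at hL hry
        have : tT 0 y (1 - 0 - y) = (y ^ 2) ^ 3 := by unfold tT; ring
        rw [this] at hL
        have : y ^ 2 = β := by linarith
        rw [this] at hL
        exact lt_irrefl _ hL
      · exact h
    have hy : 0 < y := by
      rcases hy0.eq_or_lt with h | h
      · exfalso
        rw [← h] at hL hry
        have := star_le hr0 hr1 h1.le (by linarith : 2 * r - r ^ 2 = β)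
        rw [sub_zero] at hL
        linarith
      · exact h
    have hsβ : 0 < Real.sqrt β := Real.sqrt_pos.2 h0'
    have hyβ : y < Real.sqrt β := by
      rw [Real.lt_sqrt hy0]
      nlinarith
    have e1 : Real.sqrt β * (y / Real.sqrt β) = y := by field_simp
    have e2 : 1 - Real.sqrt (1 - β * (1 - (y / Real.sqrt β) ^ 2)) = r := by
      have : 1 - β * (1 - (y / Real.sqrt β) ^ 2) = (1 - r) ^ 2 := by
        rw [div_pow, Real.sq_sqrt h0'.le]
        have : β * (1 - y ^ 2 / β) = β - y ^ 2 := by field_simp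
        rw [this, ← hry]
        ring
      rw [this, Real.sqrt_sq (by linarith)]
      ring
    refine ⟨y / Real.sqrt β, by positivity, by rw [div_lt_one hsβ]; exact hyβ,
      fun y' r' h => ?_⟩
    have hT := T_limit h
    have hβ1 : β ≤ 1 := by linarith
    have hy1 : y ≤ 1 := by
      have : Real.sqrt β ≤ 1 := Real.sqrt_le_one.2 hβ1
      linarith
    unfold TSizes at h
    rw [e1, e2] at h hT
    exact ⟨T_density hy0 hr0 hy1 hr1 hry (fun n => (h n).1) (fun n => (h n).2.1)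
      (fun n => (h n).2.2), equiv_of_limits (by linarith) hT hlim⟩

/-- Roundings exist. -/
lemma exists_TSizes {β t : ℝ} (h0 : 0 ≤ β) (h1 : β ≤ 1) (ht0 : 0 ≤ t) (ht1 : t ≤ 1) :
    ∃ y r : ℕ → ℕ, TSizes β t y r := by
  obtain ⟨p1, p2, p3, p4⟩ := T_param h0 h1 ht0 ht1
  have p5 := curve_y_le p2 p3 p1 h1 p4
  refine ⟨fun n => ⌊Real.sqrt β * t * n⌋₊,
    fun n => ⌊(1 - Real.sqrt (1 - β * (1 - t ^ 2))) * n⌋₊, fun n => ?_⟩
  have hn : (0 : ℝ) ≤ n := by positivity
  have a1 := Nat.floor_le (mul_nonneg p1 hn)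
  have a2 := Nat.floor_le (mul_nonneg p2 hn)
  have b1 := Nat.lt_floor_add_one (Real.sqrt β * t * n)
  have b2 := Nat.lt_floor_add_one ((1 - Real.sqrt (1 - β * (1 - t ^ 2))) * n)
  refine ⟨?_, ?_, ?_⟩
  · rw [abs_le]; constructor <;> linarith
  · rw [abs_le]; constructor <;> linarith
  · have h := mul_le_mul_of_nonneg_right p5 hn
    have : ((⌊Real.sqrt β * t * n⌋₊ + ⌊(1 - Real.sqrt (1 - β * (1 - t ^ 2))) * n⌋₊ : ℕ) : ℝ) ≤ n := by
      push_cast
      linarith
    exact_mod_cast this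

lemma exists_ab (e : ℕ) : ∃ a b : ℕ, b < a ∧ a.choose 2 + b = e := by
  induction e with
  | zero => exact ⟨1, 0, by norm_num, by norm_num⟩
  | succ e ih =>
    obtain ⟨a, b, h1, h2⟩ := ih
    by_cases h : b + 1 < a
    · exact ⟨a, b + 1, h, by omega⟩
    · refine ⟨a + 1, 0, by omega, ?_⟩
      have : (a + 1).choose 2 = a + a.choose 2 := by
        rw [Nat.choose_succ_succ' a 1, Nat.choose_one_right]
      omega

/-- Quasi-cliques of the right density exist. -/
lemma exists_KSizes {β : ℝ} (h0 : 0 ≤ β) (h1 : β ≤ 1) : ∃ a b : ℕ → ℕ, KSizes β a b := by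
  have h : ∀ n : ℕ, ∃ a b : ℕ, b < a ∧ a.choose 2 + b = min ⌊β * n ^ 2 / 2⌋₊ (n.choose 2) :=
    fun n => exists_ab _
  choose a b hab he using h
  refine ⟨a, b, fun n => ⟨hab n, by rw [he]; exact min_le_right _ _⟩, 2, fun n => ?_⟩
  rw [he]
  have hn : (0 : ℝ) ≤ n := by positivity
  have hc := choose_two_cast n
  have f1 : (⌊β * n ^ 2 / 2⌋₊ : ℝ) ≤ β * n ^ 2 / 2 := Nat.floor_le (by positivity)
  have f2 := Nat.lt_floor_add_one (β * n ^ 2 / 2)
  rcases Nat.eq_zero_or_pos n with hn0 | hn0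
  · subst hn0; simp
  have hn1 : (1 : ℝ) ≤ n := by exact_mod_cast hn0
  rcases le_total ⌊β * n ^ 2 / 2⌋₊ (n.choose 2) with h | h
  · rw [min_eq_left h, abs_le]
    constructor <;> linarith
  · rw [min_eq_right h, abs_le]
    have h' : ((n.choose 2 : ℕ) : ℝ) ≤ (⌊β * n ^ 2 / 2⌋₊ : ℝ) := by exact_mod_cast h
    have h'' : β * (n : ℝ) ^ 2 ≤ 1 * (n : ℝ) ^ 2 := mul_le_mul_of_nonneg_right h1 (by positivity)
    constructor <;> linarith

/-- The complete picture. -/
theorem main_G6 :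
    (∀ β : ℝ, 0 ≤ β → β ≤ 1 → (∀ t : ℝ, 0 ≤ t → t ≤ 1 → ∃ y r : ℕ → ℕ, TSizes β t y r) ∧
      ∃ a b : ℕ → ℕ, KSizes β a b) ∧
    (∀ β : ℝ, 0 ≤ β → β < 1 / 25 → ∃ t : ℝ, 0 < t ∧ t < 1 ∧ ∀ y r : ℕ → ℕ, TSizes β t y r →
      IsAsymptoticMaximiser β (fun n => tGraph n (y n) (r n))) ∧
    (∀ β : ℝ, 1 / 25 ≤ β → β ≤ 1 → ∀ a b : ℕ → ℕ, KSizes β a b →
      IsAsymptoticMaximiser β (fun n => quasiClique n (a n) (b n))) ∧
    (∀ β : ℝ, 0 < β → β < 1 / 25 → ∀ a b : ℕ → ℕ, KSizes β a b →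
      ¬ IsAsymptoticMaximiser β (fun n => quasiClique n (a n) (b n))) ∧
    (∀ β : ℝ, 1 / 25 ≤ β → β < 1 → ∀ t : ℝ, 0 < t → t < 1 → ∀ y r : ℕ → ℕ, TSizes β t y r →
      ¬ IsAsymptoticMaximiser β (fun n => tGraph n (y n) (r n))) :=
  ⟨fun _ h0 h1 => ⟨fun _ ht0 ht1 => exists_TSizes h0 h1 ht0 ht1, exists_KSizes h0 h1⟩,
    fun _ h0 h1 => T_small h0 h1, fun _ h0 h1 _ _ h => quasi_clique_large h0 h1 h,
    fun _ h0 h1 _ _ h => quasi_clique_small h0 h1 h,
    fun _ h0 h1 _ ht0 ht1 _ _ h => T_large h0 h1 ht0 ht1 h⟩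

end Pool.Agent.H26.G6
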